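import Pool.Agent.Helper6.T6.Defs

/-!
# T6-1: `1 + (a/b) e` is not a square in the cubic field

`e³ + a e + b = 0`, `K` of degree 3 over `ℚ`. If `b s² = b + a e` then with `y = s²`:
`(y - 1)³ + J y = 0`, `J = a³/b²` (exactly: `b² (y-1)³ + a³ y = 0`).
By Cayley - Hamilton `s³ + α s² + β s + γ = 0` with rational `α β γ` (charpoly of multiplication by
`s`, degree 3), so `y (y + β)² = (α y + γ)²`, i.e.
`y³ + (2β - α²) y² + (β² - 2αγ) y - γ² = 0`. As `1, y, y²` are linearly independent over `ℚ`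
(`e = (b/a)(y-1)`, `e` is a root of an irreducible cubic), comparison with
`y³ - 3 y² + (3 + J) y - 1 = 0` gives `2β - α² = -3`, `β² - 2αγ = 3 + J`, `γ² = 1`, hence
`4 J = (α+1)³(α-3)` for `γ = 1` and `4 J = (1-α)³(-α-3)` for `γ = -1`. Contradiction to `hthin`.
-/

namespace Pool.Agent.Helper6.T6

/-- Cayley - Hamilton for an element of a cubic field -/
private lemma cubic_rel {K : Type} [Field K] [Algebra ℚ K] (hK : Module.finrank ℚ K = 3) (s : K) :
    ∃ α β γ : ℚ, s ^ 3 + (α : K) * s ^ 2 + (β : K) * s + (γ : K) = 0 := by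
  have : FiniteDimensional ℚ K := Module.finite_of_finrank_pos (by omega)
  set f : K →ₗ[ℚ] K := Algebra.lmul ℚ K s with hf
  have h0 : Polynomial.aeval f f.charpoly = 0 := LinearMap.aeval_self_charpoly f
  have h1 : Polynomial.aeval s f.charpoly = 0 := by
    have h2 : Polynomial.aeval (Algebra.lmul ℚ K s) f.charpoly
        = Algebra.lmul ℚ K (Polynomial.aeval s f.charpoly) :=
      Polynomial.aeval_algHom_apply (Algebra.lmul ℚ K) s f.charpoly
    have h3 : Algebra.lmul ℚ K (Polynomial.aeval s f.charpoly) = 0 := by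
      rw [← h2]; exact h0
    have h4 := LinearMap.congr_fun h3 (1 : K)
    simpa using h4
  have hd : f.charpoly.natDegree = 3 := by rw [LinearMap.charpoly_natDegree, hK]
  have hm : f.charpoly.coeff 3 = 1 := by
    have := f.charpoly_monic
    rw [Polynomial.Monic, Polynomial.leadingCoeff, hd] at this
    exact this
  refine ⟨f.charpoly.coeff 2, f.charpoly.coeff 1, f.charpoly.coeff 0, ?_⟩
  rw [Polynomial.aeval_eq_sum_range, hd] at h1
  simp only [Finset.sum_range_succ, Finset.sum_range_zero, hm, Algebra.smul_def, eq_ratCast,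
    Rat.cast_one, pow_zero, pow_one] at h1
  linear_combination h1

/-- no linear relation -/
private lemma lin1 {a b : ℤ} (hroot : ∀ r : ℚ, r ^ 3 + a * r + b ≠ 0)
    {K : Type} [Field K] [CharZero K] (e : K)
    (he : e ^ 3 + a * e + b = 0) (u v : ℚ) (h : (u : K) + v * e = 0) : v = 0 ∧ u = 0 := by
  by_cases hv : v = 0
  · refine ⟨hv, ?_⟩
    subst hv
    have : (u : K) = 0 := by simpa using h
    exact_mod_cast this
  · exfalso
    have hv' : (v : K) ≠ 0 := by exact_mod_cast hv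
    have he2 : e = ((-(u / v) : ℚ) : K) := by
      push_cast
      field_simp
      linear_combination h
    apply hroot (-(u / v))
    have h3 : (((-(u / v)) ^ 3 + a * (-(u / v)) + b : ℚ) : K) = 0 := by
      have := he
      rw [he2] at this
      push_cast at this ⊢
      exact this
    exact_mod_cast h3

/-- no quadratic relation -/
private lemma lin2 {a b : ℤ} (hroot : ∀ r : ℚ, r ^ 3 + a * r + b ≠ 0)
    {K : Type} [Field K] [CharZero K] (e : K)
    (he : e ^ 3 + a * e + b = 0) (u v w : ℚ) (h : (u : K) + v * e + w * e ^ 2 = 0) :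
    w = 0 ∧ v = 0 ∧ u = 0 := by
  by_cases hw : w = 0
  · refine ⟨hw, ?_⟩
    subst hw
    exact lin1 hroot e he u v (by simpa using h)
  · exfalso
    have hw' : (w : K) ≠ 0 := by exact_mod_cast hw
    have h2 : e ^ 2 = -((v / w : ℚ) : K) * e - ((u / w : ℚ) : K) := by
      push_cast
      field_simp
      linear_combination h
    set p : ℚ := v / w with hp
    set q : ℚ := u / w with hq
    have h3 := lin1 hroot e he (p * q + b) (p ^ 2 - q + a) (by
      push_cast
      linear_combination he - (e - (p : K)) * h2)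
    obtain ⟨h4, h5⟩ := h3
    apply hroot p
    linear_combination p * h4 + h5

theorem not_sq {a b : ℤ} (ha : a ≠ 0) (hb : b ≠ 0) (hroot : ∀ r : ℚ, r ^ 3 + a * r + b ≠ 0)
    (hthin : ∀ r : ℚ, 4 * (a : ℚ) ^ 3 ≠ (r + 1) ^ 3 * (r - 3) * b ^ 2)
    {K : Type} [Field K] [Algebra ℚ K] (hK : Module.finrank ℚ K = 3) (e : K)
    (he : e ^ 3 + a * e + b = 0) (s : K) : (b : K) * s ^ 2 ≠ b + a * e := by
  have : CharZero K := algebraRat.charZero K
  intro hs
  obtain ⟨α, β, γ, hc⟩ := cubic_rel hK s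
  have haQ : (a : ℚ) ≠ 0 := by exact_mod_cast ha
  have hbQ : (b : ℚ) ≠ 0 := by exact_mod_cast hb
  have haK : (a : K) ≠ 0 := by exact_mod_cast ha
  have hbK : (b : K) ≠ 0 := by exact_mod_cast hb
  -- the cubic for `y = s ^ 2`
  have hy : (b : K) ^ 2 * (s ^ 2 - 1) ^ 3 + (a : K) ^ 3 * s ^ 2 = 0 := by
    have h1 : (b : K) * (s ^ 2 - 1) = a * e := by linear_combination hs
    have h2 : (b : K) ^ 3 * (s ^ 2 - 1) ^ 3 = a ^ 3 * e ^ 3 := by
      rw [← mul_pow, h1, mul_pow]
    have h3 : (b : K) * ((b : K) ^ 2 * (s ^ 2 - 1) ^ 3 + (a : K) ^ 3 * s ^ 2) = 0 := by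
      linear_combination h2 + (a : K) ^ 3 * he + (a : K) ^ 3 * hs
    exact (mul_eq_zero.mp h3).resolve_left hbK
  -- the second cubic
  have hq : s ^ 2 * (s ^ 2 + β) ^ 2 = ((α : K) * s ^ 2 + γ) ^ 2 := by
    linear_combination (s ^ 3 + (β : K) * s - (α : K) * s ^ 2 - (γ : K)) * hc
  -- the quadratic relation for `y`
  have hrel : (b : K) ^ 2 * (1 - (γ : K) ^ 2) +
      ((b : K) ^ 2 * ((β : K) ^ 2 - 2 * α * γ - 3) - (a : K) ^ 3) * s ^ 2 +
      (b : K) ^ 2 * (3 + 2 * β - (α : K) ^ 2) * (s ^ 2) ^ 2 = 0 := by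
    linear_combination (b : K) ^ 2 * hq - hy
  have hs2 : s ^ 2 = 1 + ((a / b : ℚ) : K) * e := by
    push_cast
    field_simp
    linear_combination hs
  set t : ℚ := a / b with ht
  have ht0 : t ≠ 0 := div_ne_zero haQ hbQ
  set U : ℚ := (b : ℚ) ^ 2 * (1 - γ ^ 2) with hU
  set V : ℚ := (b : ℚ) ^ 2 * (β ^ 2 - 2 * α * γ - 3) - (a : ℚ) ^ 3 with hV
  set W : ℚ := (b : ℚ) ^ 2 * (3 + 2 * β - α ^ 2) with hW
  have hrel2 : (U : K) + (V : K) * s ^ 2 + (W : K) * (s ^ 2) ^ 2 = 0 := by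
    rw [hU, hV, hW]
    push_cast
    linear_combination hrel
  have h3 := lin2 hroot e he (U + V + W) ((V + 2 * W) * t) (W * t ^ 2) (by
    rw [hs2] at hrel2
    push_cast
    linear_combination hrel2)
  obtain ⟨h4, h5, h6⟩ := h3
  have hW0 : W = 0 := (mul_eq_zero.mp h4).resolve_right (pow_ne_zero 2 ht0)
  have hV0 : V = 0 := by
    have := (mul_eq_zero.mp h5).resolve_right ht0
    linarith
  have hU0 : U = 0 := by linarith
  have hγ : γ ^ 2 = 1 := by
    have := (mul_eq_zero.mp (hU ▸ hU0)).resolve_left (pow_ne_zero 2 hbQ)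
    linarith
  have hα : 3 + 2 * β - α ^ 2 = 0 :=
    (mul_eq_zero.mp (hW ▸ hW0)).resolve_left (pow_ne_zero 2 hbQ)
  have hβ : β = (α ^ 2 - 3) / 2 := by linarith
  have hJ : (b : ℚ) ^ 2 * (β ^ 2 - 2 * α * γ - 3) = (a : ℚ) ^ 3 := by
    have : (b : ℚ) ^ 2 * (β ^ 2 - 2 * α * γ - 3) - (a : ℚ) ^ 3 = 0 := hV ▸ hV0
    linarith
  have hγ2 : (γ - 1) * (γ + 1) = 0 := by linear_combination hγ
  rcases mul_eq_zero.mp hγ2 with h | h
  · have h1 : γ = 1 := by linarith
    apply hthin α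
    rw [← hJ, hβ, h1]
    ring
  · have h1 : γ = -1 := by linarith
    apply hthin (-α)
    rw [← hJ, hβ, h1]
    ring

end Pool.Agent.Helper6.T6
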