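import Pool.Agent.Helper6.T6.Defs

/-!
# T6-10: few primes with a short vector

`{l : Y^(1-δ) < l ≤ Y, l ∣ GG a b x y for some (x,y) ≠ 0, x²+y² < Y^(1-2δ)}`: union over the at
most `(2 Y^((1-2δ)/2) + 1)² ≤ 9 Y^(1-2δ)` pairs; `|GG a b x y| ≤ C (Y^(1-2δ))^6 ≤ C Y^6`, not zero, and at
most 9 primes `> Y^(1-δ)` divide it (10 primes have a product `> Y^(15/2) > C Y^6`).
-/

namespace Pool.Agent.Helper6.T6

private lemma bd_bound (a b x y : ℤ) :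
    |(GG a b x y : ℝ)| ≤ (27 * (b : ℝ) ^ 2 + 4 * |(a : ℝ)| ^ 3) * ((x : ℝ) ^ 2 + (y : ℝ) ^ 2) ^ 6 := by
  obtain ⟨s, hs⟩ : ∃ s : ℝ, s = (x : ℝ) ^ 2 + (y : ℝ) ^ 2 := ⟨_, rfl⟩
  have hx0 : 0 ≤ (x : ℝ) ^ 2 := sq_nonneg _
  have hy0 : 0 ≤ (y : ℝ) ^ 2 := sq_nonneg _
  have hs0 : 0 ≤ s := by rw [hs]; positivity
  have h1 : |(x : ℝ) ^ 2 - (y : ℝ) ^ 2| ≤ s := by
    rw [abs_le]
    constructor <;> linarith
  have h2 : 3 * (x : ℝ) ^ 2 + (y : ℝ) ^ 2 ≤ 3 * s := by linarith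
  have h3 : (x : ℝ) ^ 4 ≤ s ^ 2 := by
    have : (x : ℝ) ^ 4 = ((x : ℝ) ^ 2) ^ 2 := by ring
    rw [this]
    exact pow_le_pow_left₀ hx0 (by linarith) 2
  have e : (GG a b x y : ℝ) = (b : ℝ) ^ 2 * (3 * (x : ℝ) ^ 2 + (y : ℝ) ^ 2) ^ 3 *
      ((x : ℝ) ^ 2 - (y : ℝ) ^ 2) ^ 3 + 4 * (a : ℝ) ^ 3 * (x : ℝ) ^ 4 * s ^ 4 := by
    unfold GG
    push_cast
    rw [hs]
  have h4 : |(b : ℝ) ^ 2 * (3 * (x : ℝ) ^ 2 + (y : ℝ) ^ 2) ^ 3 *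
      ((x : ℝ) ^ 2 - (y : ℝ) ^ 2) ^ 3| ≤ (b : ℝ) ^ 2 * (3 * s) ^ 3 * s ^ 3 := by
    rw [abs_mul, abs_mul, abs_of_nonneg (sq_nonneg (b : ℝ)), abs_pow, abs_pow]
    have h5 : |3 * (x : ℝ) ^ 2 + (y : ℝ) ^ 2| = 3 * (x : ℝ) ^ 2 + (y : ℝ) ^ 2 :=
      abs_of_nonneg (by positivity)
    rw [h5]
    have h6 : (3 * (x : ℝ) ^ 2 + (y : ℝ) ^ 2) ^ 3 ≤ (3 * s) ^ 3 :=
      pow_le_pow_left₀ (by positivity) h2 3
    have h7 : |(x : ℝ) ^ 2 - (y : ℝ) ^ 2| ^ 3 ≤ s ^ 3 := pow_le_pow_left₀ (abs_nonneg _) h1 3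
    apply mul_le_mul _ h7 (by positivity) (by positivity)
    exact mul_le_mul_of_nonneg_left h6 (sq_nonneg _)
  have h8 : |4 * (a : ℝ) ^ 3 * (x : ℝ) ^ 4 * s ^ 4| ≤ 4 * |(a : ℝ)| ^ 3 * s ^ 2 * s ^ 4 := by
    rw [abs_mul, abs_mul, abs_mul, abs_pow, abs_of_nonneg (by positivity : (0 : ℝ) ≤ (x : ℝ) ^ 4),
      abs_of_nonneg (by positivity : (0 : ℝ) ≤ s ^ 4), abs_of_nonneg (by norm_num : (0 : ℝ) ≤ 4)]
    apply mul_le_mul_of_nonneg_right _ (by positivity)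
    exact mul_le_mul_of_nonneg_left h3 (by positivity)
  rw [e, ← hs]
  refine (abs_add_le _ _).trans ?_
  calc _ ≤ (b : ℝ) ^ 2 * (3 * s) ^ 3 * s ^ 3 + 4 * |(a : ℝ)| ^ 3 * s ^ 2 * s ^ 4 := add_le_add h4 h8
    _ = (27 * (b : ℝ) ^ 2 + 4 * |(a : ℝ)| ^ 3) * s ^ 6 := by ring

open Classical in
private noncomputable def bdT (m : ℤ) (z : ℝ) : Finset ℕ :=
  m.natAbs.primeFactors.filter (fun l => z < (l : ℝ))

private lemma bdT_card {m : ℤ} (hm : m ≠ 0) {z : ℝ} (hz : 1 < z) {k : ℕ}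
    (h : |(m : ℝ)| < z ^ (k + 1)) : (bdT m z).card ≤ k := by
  classical
  by_contra hc
  push Not at hc
  have h1 : z ^ (bdT m z).card ≤ ∏ l ∈ bdT m z, (l : ℝ) := by
    rw [← Finset.prod_const]
    apply Finset.prod_le_prod
    · intro i _
      linarith
    · intro i hi
      exact (Finset.mem_filter.1 hi).2.le
  have h2 : (∏ l ∈ bdT m z, l) ∣ m.natAbs :=
    (Finset.prod_dvd_prod_of_subset _ _ _ (Finset.filter_subset _ _)).trans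
      (Nat.prod_primeFactors_dvd _)
  have h3 : ∏ l ∈ bdT m z, l ≤ m.natAbs :=
    Nat.le_of_dvd (Int.natAbs_pos.2 hm) h2
  have h4 : (∏ l ∈ bdT m z, (l : ℝ)) ≤ |(m : ℝ)| := by
    have h5 : ((∏ l ∈ bdT m z, l : ℕ) : ℝ) ≤ (m.natAbs : ℝ) := by exact_mod_cast h3
    rw [Nat.cast_prod, Nat.cast_natAbs, Int.cast_abs] at h5
    exact h5
  have h6 : z ^ (k + 1) ≤ z ^ (bdT m z).card := pow_le_pow_right₀ hz.le hc
  linarith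

theorem bad_count (a b : ℤ) (hG : ∀ x y : ℤ, x ≠ 0 ∨ y ≠ 0 → GG a b x y ≠ 0) (δ : ℝ)
    (hδ : 0 < δ) (hδ1 : δ ≤ 1 / 4) : ∃ C : ℝ, 0 < C ∧ ∃ Y₀ : ℝ, ∀ Y : ℝ, Y₀ ≤ Y →
      (Set.ncard {l : ℕ | l.Prime ∧ Y ^ (1 - δ) < l ∧ (l : ℝ) ≤ Y ∧ ∃ x y : ℤ,
        (x ≠ 0 ∨ y ≠ 0) ∧ (x : ℝ) ^ 2 + (y : ℝ) ^ 2 < Y ^ (1 - 2 * δ) ∧
          (l : ℤ) ∣ GG a b x y} : ℝ) ≤ C * Y ^ (1 - 2 * δ) := by
  classical
  obtain ⟨K, hK⟩ : ∃ K : ℝ, K = 27 * (b : ℝ) ^ 2 + 4 * |(a : ℝ)| ^ 3 := ⟨_, rfl⟩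
  have hK0 : 0 ≤ K := by rw [hK]; positivity
  refine ⟨81, by norm_num, K + 2, ?_⟩
  intro Y hY
  have hY1 : 1 < Y := by linarith
  have hY0 : 0 < Y := by linarith
  obtain ⟨z, hz⟩ : ∃ z : ℝ, z = Y ^ (1 - δ) := ⟨_, rfl⟩
  have hz1 : 1 < z := by
    rw [hz]
    exact Real.one_lt_rpow hY1 (by linarith)
  obtain ⟨R, hR⟩ : ∃ R : ℝ, R = Y ^ ((1 - 2 * δ) / 2) := ⟨_, rfl⟩
  have hR1 : 1 ≤ R := by
    rw [hR]
    exact Real.one_le_rpow hY1.le (by linarith)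
  have hR2 : R ^ 2 = Y ^ (1 - 2 * δ) := by
    rw [hR, ← Real.rpow_natCast, ← Real.rpow_mul hY0.le]
    congr 1
    push_cast
    ring
  have hRY : R ^ 2 ≤ Y := by
    rw [hR2]
    calc Y ^ (1 - 2 * δ) ≤ Y ^ (1 : ℝ) := Real.rpow_le_rpow_of_exponent_le hY1.le (by linarith)
      _ = Y := Real.rpow_one Y
  have hz10 : K * Y ^ 6 < z ^ 10 := by
    have h1 : z ^ 10 = Y ^ (10 * (1 - δ)) := by
      rw [hz, ← Real.rpow_natCast, ← Real.rpow_mul hY0.le]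
      congr 1
      push_cast
      ring
    have h2 : Y ^ (7 : ℕ) ≤ Y ^ (10 * (1 - δ)) := by
      rw [← Real.rpow_natCast]
      apply Real.rpow_le_rpow_of_exponent_le hY1.le
      push_cast
      linarith
    have h3 : K * Y ^ 6 < Y ^ 7 := by
      have h4 : Y ^ 7 = Y * Y ^ 6 := by ring
      rw [h4]
      apply mul_lt_mul_of_pos_right _ (by positivity)
      linarith
    rw [h1]
    linarith
  obtain ⟨n, hn⟩ : ∃ n : ℤ, n = ⌊R⌋ := ⟨_, rfl⟩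
  have hn1 : 1 ≤ n := by
    rw [hn]
    exact Int.le_floor.2 (by exact_mod_cast hR1)
  have hnR : (n : ℝ) ≤ R := by
    rw [hn]
    exact Int.floor_le R
  obtain ⟨P, hP⟩ : ∃ P : Finset (ℤ × ℤ), P = (Finset.Icc (-n) n ×ˢ Finset.Icc (-n) n).filter
    (fun p => (p.1 ≠ 0 ∨ p.2 ≠ 0) ∧ (p.1 : ℝ) ^ 2 + (p.2 : ℝ) ^ 2 < R ^ 2) := ⟨_, rfl⟩
  have hcard : (P.card : ℝ) ≤ 9 * R ^ 2 := by
    have h1 : P.card ≤ (Finset.Icc (-n) n ×ˢ Finset.Icc (-n) n).card := by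
      rw [hP]
      exact Finset.card_filter_le _ _
    rw [Finset.card_product, Int.card_Icc] at h1
    have h2 : ((n + 1 - -n).toNat : ℝ) = 2 * (n : ℝ) + 1 := by
      have h3 : ((n + 1 - -n).toNat : ℤ) = 2 * n + 1 := by
        rw [Int.toNat_of_nonneg (by omega)]
        ring
      exact_mod_cast h3
    have h4 : (P.card : ℝ) ≤ (2 * (n : ℝ) + 1) * (2 * (n : ℝ) + 1) := by
      rw [← h2]
      exact_mod_cast h1
    have h5 : 2 * (n : ℝ) + 1 ≤ 3 * R := by linarith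
    have h6 : 0 ≤ 2 * (n : ℝ) + 1 := by
      have : (1 : ℝ) ≤ n := by exact_mod_cast hn1
      linarith
    nlinarith
  have hsub : {l : ℕ | l.Prime ∧ Y ^ (1 - δ) < l ∧ (l : ℝ) ≤ Y ∧ ∃ x y : ℤ,
      (x ≠ 0 ∨ y ≠ 0) ∧ (x : ℝ) ^ 2 + (y : ℝ) ^ 2 < Y ^ (1 - 2 * δ) ∧
        (l : ℤ) ∣ GG a b x y} ⊆ ((P.biUnion (fun p => bdT (GG a b p.1 p.2) z) : Finset ℕ) : Set ℕ) := by
    rintro l ⟨hl, hl1, -, x, y, hxy, hs, hd⟩
    rw [Finset.mem_coe, Finset.mem_biUnion]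
    rw [← hR2] at hs
    have hbox : ∀ t : ℤ, (t : ℝ) ^ 2 < R ^ 2 → t ∈ Finset.Icc (-n) n := by
      intro t ht
      have h1 := abs_lt_of_sq_lt_sq ht (by linarith)
      rw [abs_lt] at h1
      rw [Finset.mem_Icc]
      constructor
      · have h2 : -t ≤ n := by
          rw [hn]
          apply Int.le_floor.2
          push_cast
          linarith [h1.1]
        omega
      · rw [hn]
        exact Int.le_floor.2 h1.2.le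
    refine ⟨(x, y), ?_, ?_⟩
    · rw [hP, Finset.mem_filter, Finset.mem_product]
      have hx : (x : ℝ) ^ 2 < R ^ 2 := by nlinarith [sq_nonneg (y : ℝ)]
      have hy : (y : ℝ) ^ 2 < R ^ 2 := by nlinarith [sq_nonneg (x : ℝ)]
      exact ⟨⟨hbox x hx, hbox y hy⟩, hxy, hs⟩
    · unfold bdT
      rw [Finset.mem_filter, Nat.mem_primeFactors, hz]
      refine ⟨⟨hl, ?_, Int.natAbs_ne_zero.2 (hG x y hxy)⟩, hl1⟩
      exact Int.natCast_dvd.1 hd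
  have hle : (P.biUnion (fun p => bdT (GG a b p.1 p.2) z)).card ≤ P.card * 9 := by
    apply Finset.card_biUnion_le_card_mul
    intro p hp
    rw [hP, Finset.mem_filter] at hp
    obtain ⟨-, hne, hs⟩ := hp
    apply bdT_card (hG _ _ hne) hz1
    refine lt_of_le_of_lt ?_ hz10
    refine (bd_bound a b p.1 p.2).trans ?_
    rw [← hK]
    apply mul_le_mul_of_nonneg_left _ hK0
    apply pow_le_pow_left₀ (by positivity)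
    linarith
  have hfin := Set.ncard_le_ncard hsub (Finset.finite_toSet _)
  rw [Set.ncard_coe_finset] at hfin
  have h7 : (Set.ncard {l : ℕ | l.Prime ∧ Y ^ (1 - δ) < l ∧ (l : ℝ) ≤ Y ∧ ∃ x y : ℤ,
      (x ≠ 0 ∨ y ≠ 0) ∧ (x : ℝ) ^ 2 + (y : ℝ) ^ 2 < Y ^ (1 - 2 * δ) ∧
        (l : ℤ) ∣ GG a b x y} : ℝ) ≤ (P.card * 9 : ℕ) := by
    exact_mod_cast hfin.trans hle
  refine h7.trans ?_
  rw [← hR2]
  push_cast
  linarith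

end Pool.Agent.Helper6.T6
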