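import Pool.Agent.Helper6.T6.Defs

/-!
# T6-4: simple roots modulo `l`

For a prime `l ∤ 2ab(4a³+27b²)` and `l ∣ GG a b r 1`: `l ∤ r` (`G(0,1) = -b²`), `l ∤ r²+1`,
`l ∤ 3r²+1`, and `l ∤ GD a b r`: with `T = r²`, `A = (3T+1)(T-1)`, `B = T(1+T)²`, `G = b²A³ + 4a³B²`,
`GD = 2r·G_T`, `G_T = 3b²A²A' + 8a³BB'`, `A' = 6T-2`, `B' = (1+T)(1+3T)`,
`3A'·G - A·G_T = 8 a³ B (1+T)(9T²+2T+1)`, and
`G = 64T⁶(4a³+27b²) + (9T²+2T+1)·(-b²(A²+12AT²+144T⁴) + 4a³T(B-8T³))`.  Taylor: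
`G(r+h,1) = G(r,1) + h GD(r) + h² R`.
Then: there is `s ≡ r (mod l)` with `l² ∣ G(s,1)` (if `G(r,1) = l k`, `s = r + l j` with
`k + j GD(r) ≡ 0 mod l`), and for `l ∣ u - r v`, `l² ∤ u - s v`, `l ∤ v`: `l ∥ G(u,v)`:
`G(u,v) ≡ v¹² G(s,1) + (u - s v) v¹¹ GD(s) (mod l²)`.
-/

namespace Pool.Agent.Helper6.T6

/-- simple roots -/
theorem deriv_unit {a b r : ℤ} {l : ℕ} (hl : l.Prime) (h2 : ¬ (l : ℤ) ∣ 2) (ha : ¬ (l : ℤ) ∣ a)
    (hb : ¬ (l : ℤ) ∣ b) (hD : ¬ (l : ℤ) ∣ 4 * a ^ 3 + 27 * b ^ 2)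
    (h0 : (l : ℤ) ∣ GG a b r 1) : ¬ (l : ℤ) ∣ GD a b r := by
  haveI : Fact l.Prime := ⟨hl⟩
  intro h1
  have key : ∀ x : ℤ, (l : ℤ) ∣ x ↔ (x : ZMod l) = 0 := fun x =>
    (ZMod.intCast_zmod_eq_zero_iff_dvd x l).symm
  rw [key] at h2 ha hb hD h0 h1
  simp only [GG, GD] at h0 h1
  push_cast at h2 ha hb hD h0 h1
  generalize (a : ZMod l) = a at ha hD h0 h1
  generalize (b : ZMod l) = b at hb hD h0 h1
  generalize (r : ZMod l) = r at h0 h1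
  have hr : r ≠ 0 := by
    rintro rfl
    apply hb
    have : b ^ 2 = 0 := by linear_combination -h0
    exact pow_eq_zero_iff (two_ne_zero) |>.1 this
  have hT1 : r ^ 2 + 1 ≠ 0 := by
    intro h
    have h64 : (2 : ZMod l) ^ 6 * b ^ 2 = 0 := by
      have hT : r ^ 2 = -1 := by linear_combination h
      have h4 : r ^ 4 = 1 := by
        calc r ^ 4 = (r ^ 2) ^ 2 := by ring
          _ = 1 := by rw [hT]; ring
      rw [hT, h4] at h0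
      linear_combination h0
    rcases mul_eq_zero.1 h64 with h | h
    · exact h2 (pow_eq_zero_iff (by norm_num) |>.1 h)
    · exact hb (pow_eq_zero_iff (by norm_num) |>.1 h)
  have hGT : 3 * b ^ 2 * ((3 * r ^ 2 + 1) * (r ^ 2 - 1)) ^ 2 * (6 * r ^ 2 - 2) +
      8 * a ^ 3 * (r ^ 2 * (r ^ 2 + 1) ^ 2) * ((r ^ 2 + 1) * (3 * r ^ 2 + 1)) = 0 := by
    have : (2 * r) * (3 * b ^ 2 * ((3 * r ^ 2 + 1) * (r ^ 2 - 1)) ^ 2 * (6 * r ^ 2 - 2) +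
      8 * a ^ 3 * (r ^ 2 * (r ^ 2 + 1) ^ 2) * ((r ^ 2 + 1) * (3 * r ^ 2 + 1))) = 0 := by
      linear_combination h1
    rcases mul_eq_zero.1 this with h | h
    · rcases mul_eq_zero.1 h with h | h
      · exact absurd h h2
      · exact absurd h hr
    · exact h
  have h9 : 9 * r ^ 4 + 2 * r ^ 2 + 1 = 0 := by
    have : (2 ^ 3 * a ^ 3 * (r ^ 2 * (r ^ 2 + 1) ^ 2) * (r ^ 2 + 1)) *
        (9 * r ^ 4 + 2 * r ^ 2 + 1) = 0 := by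
      linear_combination 3 * (6 * r ^ 2 - 2) * h0 - (3 * r ^ 2 + 1) * (r ^ 2 - 1) * hGT
    rcases mul_eq_zero.1 this with h | h
    · exfalso
      have : (2 ^ 3 * a ^ 3 * (r ^ 2 * (r ^ 2 + 1) ^ 2) * (r ^ 2 + 1)) ≠ 0 :=
        mul_ne_zero (mul_ne_zero (mul_ne_zero (pow_ne_zero _ h2) (pow_ne_zero _ ha))
          (mul_ne_zero (pow_ne_zero _ hr) (pow_ne_zero _ hT1))) hT1
      exact this h
    · exact h
  have : (2 ^ 6 * r ^ 12) * (4 * a ^ 3 + 27 * b ^ 2) = 0 := by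
    linear_combination h0 - (-b ^ 2 * (((3 * r ^ 2 + 1) * (r ^ 2 - 1)) ^ 2 +
      12 * ((3 * r ^ 2 + 1) * (r ^ 2 - 1)) * r ^ 4 + 144 * r ^ 8) +
      4 * a ^ 3 * r ^ 2 * (r ^ 2 * (r ^ 2 + 1) ^ 2 - 8 * r ^ 6)) * h9
  rcases mul_eq_zero.1 this with h | h
  · exact mul_ne_zero (pow_ne_zero _ h2) (pow_ne_zero _ hr) h
  · exact hD h

/-- Taylor -/
lemma GG_taylor (a b x h v : ℤ) : ∃ R : ℤ, GG a b (x + h) v = GG a b x v +
    (3 * b ^ 2 * ((3 * x ^ 2 + v ^ 2) * (x ^ 2 - v ^ 2)) ^ 2 * (12 * x ^ 3 - 4 * x * v ^ 2) +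
    8 * a ^ 3 * (x ^ 2 * (x ^ 2 + v ^ 2) ^ 2) * ((x ^ 2 + v ^ 2) * (3 * x ^ 2 + v ^ 2) * (2 * x))) * h
    + R * h ^ 2 := by
  open Polynomial in
  obtain ⟨R, hR⟩ := Polynomial.binomExpansion
    (C (b ^ 2) * (C 3 * X ^ 2 + C (v ^ 2)) ^ 3 * (X ^ 2 - C (v ^ 2)) ^ 3 +
      C (4 * a ^ 3) * X ^ 4 * (X ^ 2 + C (v ^ 2)) ^ 4 : ℤ[X]) x h
  refine ⟨R, ?_⟩
  simp only [Polynomial.eval_add, Polynomial.eval_mul, Polynomial.eval_pow, Polynomial.eval_sub,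
    Polynomial.eval_C, Polynomial.eval_X, Polynomial.derivative_add, Polynomial.derivative_mul,
    Polynomial.derivative_C, Polynomial.derivative_pow, Polynomial.derivative_X,
    Polynomial.derivative_sub, Polynomial.eval_zero, Polynomial.eval_one] at hR
  simp only [GG]
  rw [hR]
  push_cast
  ring

/-- `l` divides the value exactly once outside the class of `s` modulo `l²` -/
theorem hensel12 {a b r : ℤ} {l : ℕ} (hl : l.Prime) (h2 : ¬ (l : ℤ) ∣ 2) (ha : ¬ (l : ℤ) ∣ a)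
    (hb : ¬ (l : ℤ) ∣ b) (hD : ¬ (l : ℤ) ∣ 4 * a ^ 3 + 27 * b ^ 2)
    (h0 : (l : ℤ) ∣ GG a b r 1) : ∃ s : ℤ, (l : ℤ) ∣ s - r ∧ ∀ u v : ℤ, (l : ℤ) ∣ u - r * v →
      ¬ (l : ℤ) ^ 2 ∣ u - s * v → ¬ (l : ℤ) ∣ v →
      (l : ℤ) ∣ GG a b u v ∧ ¬ (l : ℤ) ^ 2 ∣ GG a b u v := by
  have hp : Prime (l : ℤ) := Nat.prime_iff_prime_int.1 hl
  have hu := deriv_unit hl h2 ha hb hD h0
  obtain ⟨k, hk⟩ := h0
  have hcop : IsCoprime (l : ℤ) (GD a b r) := (Irreducible.coprime_iff_not_dvd hp.irreducible).2 hu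
  obtain ⟨c, d, hcd⟩ := hcop
  -- `c * l + d * GD = 1`; take `j = - k * d`
  set s : ℤ := r + l * (-(k * d)) with hs
  have hsr : (l : ℤ) ∣ s - r := ⟨-(k * d), by rw [hs]; ring⟩
  obtain ⟨R, hR⟩ := GG_taylor a b r (l * (-(k * d))) 1
  have hGs : (l : ℤ) ^ 2 ∣ GG a b s 1 := by
    refine ⟨k * c + R * (k * d) ^ 2, ?_⟩
    rw [hs, hR, hk]
    have e : (3 * b ^ 2 * ((3 * r ^ 2 + 1 ^ 2) * (r ^ 2 - 1 ^ 2)) ^ 2 * (12 * r ^ 3 - 4 * r * 1 ^ 2) +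
      8 * a ^ 3 * (r ^ 2 * (r ^ 2 + 1 ^ 2) ^ 2) * ((r ^ 2 + 1 ^ 2) * (3 * r ^ 2 + 1 ^ 2) * (2 * r)))
      = GD a b r := by simp only [GD]; ring
    rw [e]
    linear_combination (l : ℤ) * k * (-hcd)
  have hus : ¬ (l : ℤ) ∣ GD a b s :=
    deriv_unit hl h2 ha hb hD (dvd_trans (dvd_pow_self _ two_ne_zero) hGs)
  refine ⟨s, hsr, fun u v h1 h3 h4 => ?_⟩
  have hh : (l : ℤ) ∣ u - s * v := by
    have : u - s * v = (u - r * v) - (s - r) * v := by ring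
    rw [this]
    exact dvd_sub h1 (Dvd.dvd.mul_right hsr v)
  obtain ⟨R', hR'⟩ := GG_taylor a b (s * v) (u - s * v) v
  have e : GG a b u v = v ^ 12 * GG a b s 1 + (u - s * v) * (v ^ 11 * GD a b s) +
      R' * (u - s * v) ^ 2 := by
    have e1 : s * v + (u - s * v) = u := by ring
    rw [e1] at hR'
    rw [hR']
    simp only [GG, GD]
    ring
  obtain ⟨m, hm⟩ := hh
  obtain ⟨n, hn⟩ := hGs
  constructor
  · rw [e, hm, hn]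
    exact ⟨v ^ 12 * (l * n) + m * (v ^ 11 * GD a b s) + R' * (l * m ^ 2), by ring⟩
  · intro h5
    apply h3
    have h6 : (l : ℤ) ^ 2 ∣ (u - s * v) * (v ^ 11 * GD a b s) := by
      have : (u - s * v) * (v ^ 11 * GD a b s) = GG a b u v - v ^ 12 * GG a b s 1 -
        R' * (u - s * v) ^ 2 := by rw [e]; ring
      rw [this]
      refine dvd_sub (dvd_sub h5 ?_) ?_
      · rw [hn]; exact ⟨v ^ 12 * n, by ring⟩
      · rw [hm]; exact ⟨R' * m ^ 2, by ring⟩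
    have hc : IsCoprime ((l : ℤ) ^ 2) (v ^ 11 * GD a b s) := by
      apply IsCoprime.pow_left
      apply IsCoprime.mul_right
      · apply IsCoprime.pow_right
        exact (Irreducible.coprime_iff_not_dvd hp.irreducible).2 h4
      · exact (Irreducible.coprime_iff_not_dvd hp.irreducible).2 hus
    exact hc.dvd_of_dvd_mul_right h6

end Pool.Agent.Helper6.T6
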