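import Pool.Agent.Helper6.T6.Defs

/-!
# T6-9: degree one primes give roots of `GG a b x 1` modulo `l`

`GG a b x 1` is a polynomial with leading coefficient `4a³+27b² ≠ 0` of degree 12 in `x`. Take an
irreducible factor over `ℚ`, `L := AdjoinRoot` of it (a number field), `θ` its root:
`GG(θ,1) = 0` in `L`. With `c = 4a³+27b²`, `c θ` is integral; `c¹² G(θ,1) = G(cθ, c) = 0` in `𝓞 L`.
A ring hom `φ : 𝓞 L → ZMod l`, `l ∤ c`, gives `u = φ(cθ)`, `G(u,c) = 0` in `ZMod l`, and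
`ρ = u/c` is a root of `G(x,1)` modulo `l`.
(Compare `Pool.Agent.Helper38.TW.RootHom`.)
-/

namespace Pool.Agent.Helper6.T6

open NumberField Polynomial

private noncomputable def PP (a b : ℤ) : ℤ[X] :=
  C (4 * a ^ 3 + 27 * b ^ 2) * X ^ 12 + C (16 * a ^ 3 - 54 * b ^ 2) * X ^ 10 +
    C (24 * a ^ 3 + 9 * b ^ 2) * X ^ 8 + C (16 * a ^ 3 + 28 * b ^ 2) * X ^ 6 +
    C (4 * a ^ 3 - 3 * b ^ 2) * X ^ 4 + C (-6 * b ^ 2) * X ^ 2 + C (-b ^ 2)

private lemma PP_deg (a b : ℤ) : (PP a b).natDegree ≤ 12 := by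
  unfold PP
  compute_degree

private lemma PP_coeff (a b : ℤ) : (PP a b).coeff 12 = 4 * a ^ 3 + 27 * b ^ 2 := by
  unfold PP
  rw [coeff_add, coeff_add, coeff_add, coeff_add, coeff_add, coeff_add, coeff_C_mul, coeff_C_mul,
    coeff_C_mul, coeff_C_mul, coeff_C_mul, coeff_C_mul, coeff_X_pow, coeff_X_pow, coeff_X_pow,
    coeff_X_pow, coeff_X_pow, coeff_X_pow, coeff_C]
  norm_num

private lemma PP_nat {a b : ℤ} (hD : 4 * a ^ 3 + 27 * b ^ 2 ≠ 0) : (PP a b).natDegree = 12 :=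
  le_antisymm (PP_deg a b) (le_natDegree_of_ne_zero (by rw [PP_coeff]; exact hD))

private lemma PP_lead {a b : ℤ} (hD : 4 * a ^ 3 + 27 * b ^ 2 ≠ 0) :
    (PP a b).leadingCoeff = 4 * a ^ 3 + 27 * b ^ 2 := by
  rw [leadingCoeff, PP_nat hD, PP_coeff]

private lemma PP_aeval {R : Type} [CommRing R] [Algebra ℤ R] (a b : ℤ) (x : R) :
    aeval x (PP a b) = (b : R) ^ 2 * (3 * x ^ 2 + 1) ^ 3 * (x ^ 2 - 1) ^ 3 +
      4 * (a : R) ^ 3 * x ^ 4 * (x ^ 2 + 1) ^ 4 := by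
  unfold PP
  simp only [map_add (aeval x), map_mul (aeval x), map_pow (aeval x), aeval_X, aeval_C]
  simp only [eq_intCast]
  push_cast
  ring

theorem root_field {a b : ℤ} (hD : 4 * a ^ 3 + 27 * b ^ 2 ≠ 0) :
    ∃ (L : Type) (_ : Field L) (_ : NumberField L), ∀ l : ℕ, l.Prime →
      ¬ (l : ℤ) ∣ 4 * a ^ 3 + 27 * b ^ 2 → Nonempty (𝓞 L →+* ZMod l) →
      ∃ r : ℤ, (l : ℤ) ∣ GG a b r 1 := by
  have hinj : Function.Injective (Int.castRingHom ℚ) := Int.cast_injective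
  have hnat : ((PP a b).map (Int.castRingHom ℚ)).natDegree ≠ 0 := by
    rw [natDegree_map_eq_of_injective hinj, PP_nat hD]
    norm_num
  obtain ⟨G, hGi, hGd⟩ := exists_irreducible_of_natDegree_ne_zero hnat
  have hfact : Fact (Irreducible G) := ⟨hGi⟩
  have hfin : FiniteDimensional ℚ (AdjoinRoot G) := (AdjoinRoot.powerBasis hGi.ne_zero).finite
  have hnf : NumberField (AdjoinRoot G) :=
    { to_charZero := inferInstance
      to_finiteDimensional := hfin }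
  have hof : algebraMap ℚ (AdjoinRoot G) = AdjoinRoot.of G := Subsingleton.elim _ _
  have haev : ∀ m : ℚ[X], aeval (AdjoinRoot.root G) m = AdjoinRoot.mk G m := by
    intro m
    rw [aeval_def, hof]
    have h1 := Polynomial.hom_eval₂ m (C : ℚ →+* ℚ[X]) (AdjoinRoot.mk G) X
    rw [Polynomial.eval₂_C_X] at h1
    exact h1.symm
  have hθ : aeval (AdjoinRoot.root G) (PP a b) = 0 := by
    have h2 := aeval_map_algebraMap ℚ (AdjoinRoot.root G) (PP a b)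
    rw [haev] at h2
    rw [← h2, algebraMap_int_eq]
    exact AdjoinRoot.mk_eq_zero.2 hGd
  refine ⟨AdjoinRoot G, inferInstance, hnf, ?_⟩
  have hint : IsIntegral ℤ ((PP a b).leadingCoeff • AdjoinRoot.root G) :=
    isIntegral_leadingCoeff_smul (PP a b) _ hθ
  obtain ⟨α, hα⟩ : ∃ α : 𝓞 (AdjoinRoot G), algebraMap (𝓞 (AdjoinRoot G)) (AdjoinRoot G) α =
    (PP a b).leadingCoeff • AdjoinRoot.root G := ⟨⟨_, hint⟩, rfl⟩
  rw [PP_lead hD] at hα
  obtain ⟨c, hc⟩ : ∃ c : ℤ, c = 4 * a ^ 3 + 27 * b ^ 2 := ⟨_, rfl⟩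
  rw [← hc] at hα
  have h0 : (b : 𝓞 (AdjoinRoot G)) ^ 2 * (3 * α ^ 2 + (c : 𝓞 (AdjoinRoot G)) ^ 2) ^ 3 *
      (α ^ 2 - (c : 𝓞 (AdjoinRoot G)) ^ 2) ^ 3 +
      4 * (a : 𝓞 (AdjoinRoot G)) ^ 3 * α ^ 4 * (α ^ 2 + (c : 𝓞 (AdjoinRoot G)) ^ 2) ^ 4 = 0 := by
    apply RingOfIntegers.coe_injective
    rw [PP_aeval] at hθ
    simp only [map_add, map_mul, map_pow, map_sub, map_intCast, map_ofNat, map_zero]
    rw [hα, zsmul_eq_mul]
    linear_combination (c : AdjoinRoot G) ^ 12 * hθ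
  intro l hl hlc ⟨φ⟩
  have hlf : Fact l.Prime := ⟨hl⟩
  rw [← hc] at hlc
  have hc0 : (c : ZMod l) ≠ 0 := by
    intro h
    exact hlc ((ZMod.intCast_zmod_eq_zero_iff_dvd _ _).1 h)
  have h1 := congrArg φ h0
  simp only [map_add, map_mul, map_pow, map_sub, map_intCast, map_zero, map_ofNat] at h1
  refine ⟨((φ α * (c : ZMod l)⁻¹).val : ℤ), ?_⟩
  rw [← ZMod.intCast_zmod_eq_zero_iff_dvd]
  obtain ⟨s, hs⟩ : ∃ s : ZMod l, s = φ α * (c : ZMod l)⁻¹ := ⟨_, rfl⟩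
  have hs' : φ α = s * c := by
    rw [hs, mul_assoc, inv_mul_cancel₀ hc0, mul_one]
  rw [← hs]
  rw [hs'] at h1
  unfold GG
  push_cast
  rw [ZMod.natCast_zmod_val]
  have hc12 : (c : ZMod l) ^ 12 ≠ 0 := pow_ne_zero _ hc0
  apply mul_left_cancel₀ hc12
  linear_combination h1

end Pool.Agent.Helper6.T6
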