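import Pool.Agent.Helper6.T6.Win
import Pool.Agent.Helper6.T6.Root
import Pool.Agent.Helper6.T6.Hens

/-!
# T6-13a: auxiliary primes

`root_field` + `window` (for every `N` there is a large prime `p ∤ N`, `p ∤ 2ab(4a³+27b²)` with a
root `r` of `GG a b x 1` modulo `p`) + `hensel12` with `v = 1` (`u = r` or `r + p`, one of them is
not `≡ s (mod p²)`) gives `GoodQ a b p u 1`.
-/

namespace Pool.Agent.Helper6.T6

theorem class12 {a b : ℤ} (ha : a ≠ 0) (hb : b ≠ 0) (hD : 4 * a ^ 3 + 27 * b ^ 2 ≠ 0) :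
    ∀ N : ℤ, N ≠ 0 → ∃ p : ℕ, p.Prime ∧ ¬ (p : ℤ) ∣ N ∧ ∃ t : ℤ, GoodQ a b p t 1 := by
  intro N hN
  obtain ⟨L, hL1, hL2, hL⟩ := root_field hD
  obtain ⟨c, hc, Y₀, hY⟩ := window L (1 / 2) (by norm_num) (by norm_num)
  obtain ⟨N', hN'⟩ : ∃ N', N' = N * (2 * (a * (b * (4 * a ^ 3 + 27 * b ^ 2)))) := ⟨_, rfl⟩
  have hN'0 : N' ≠ 0 := by
    rw [hN']
    exact mul_ne_zero hN (mul_ne_zero two_ne_zero (mul_ne_zero ha (mul_ne_zero hb hD)))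
  obtain ⟨Y, hYd⟩ : ∃ Y : ℝ, Y = max (max Y₀ 1) ((|(N' : ℝ)|) ^ 2) := ⟨_, rfl⟩
  have hY0 : Y₀ ≤ Y := by rw [hYd]; exact (le_max_left _ _).trans (le_max_left _ _)
  have hY1 : 1 ≤ Y := by rw [hYd]; exact (le_max_right _ _).trans (le_max_left _ _)
  have hY2 : |(N' : ℝ)| ^ 2 ≤ Y := by rw [hYd]; exact le_max_right _ _
  have hYpos : 0 < Y := by linarith
  have h1 := hY Y hY0
  have h2 : 0 < c * Y ^ (1 - 1 / 2 : ℝ) := mul_pos hc (Real.rpow_pos_of_pos hYpos _)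
  have h3 : (0 : ℝ) < (Set.ncard {l : ℕ | l.Prime ∧ Y ^ (1 - 1 / 2 : ℝ) < l ∧ (l : ℝ) ≤ Y ∧
        Nonempty (NumberField.RingOfIntegers L →+* ZMod l)} : ℝ) := lt_of_lt_of_le h2 h1
  have h4 : Set.ncard {l : ℕ | l.Prime ∧ Y ^ (1 - 1 / 2 : ℝ) < l ∧ (l : ℝ) ≤ Y ∧
        Nonempty (NumberField.RingOfIntegers L →+* ZMod l)} ≠ 0 := by
    intro h
    rw [h] at h3
    simp at h3
  obtain ⟨l, hl1, hl2, hl3, hl4⟩ := Set.nonempty_of_ncard_ne_zero h4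
  have hlN : ¬ (l : ℤ) ∣ N' := by
    intro hdvd
    have e1 : (l : ℤ) ≤ |N'| := Int.le_of_dvd (abs_pos.2 hN'0) ((dvd_abs _ _).2 hdvd)
    have e2 : (l : ℝ) ≤ |(N' : ℝ)| := by exact_mod_cast e1
    have e3 : |(N' : ℝ)| ≤ Y ^ (1 - 1 / 2 : ℝ) := by
      have e4 : (1 - 1 / 2 : ℝ) = 1 / 2 := by norm_num
      rw [e4, ← Real.sqrt_eq_rpow]
      exact Real.le_sqrt_of_sq_le hY2
    linarith
  rw [hN'] at hlN
  have a1 : ¬ (l : ℤ) ∣ N := fun h => hlN (h.mul_right _)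
  have a2 : ¬ (l : ℤ) ∣ 2 := fun h => hlN ((h.mul_right _).mul_left _)
  have a3 : ¬ (l : ℤ) ∣ a := fun h => hlN (((h.mul_right _).mul_left _).mul_left _)
  have a4 : ¬ (l : ℤ) ∣ b := fun h => hlN ((((h.mul_right _).mul_left _).mul_left _).mul_left _)
  have a5 : ¬ (l : ℤ) ∣ 4 * a ^ 3 + 27 * b ^ 2 :=
    fun h => hlN ((((h.mul_left _).mul_left _).mul_left _).mul_left _)
  obtain ⟨r, hr⟩ := hL l hl1 a5 hl4
  obtain ⟨s, _, hs⟩ := hensel12 hl1 a2 a3 a4 a5 hr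
  have hlp : Prime (l : ℤ) := Nat.prime_iff_prime_int.1 hl1
  have hl1' : ¬ (l : ℤ) ∣ 1 := fun h => hlp.not_unit (isUnit_of_dvd_one h)
  refine ⟨l, hl1, a1, ?_⟩
  by_cases hsr : (l : ℤ) ^ 2 ∣ r - s * 1
  · have h5 : ¬ (l : ℤ) ^ 2 ∣ (r + l) - s * 1 := by
      intro h6
      have h7 : (l : ℤ) ^ 2 ∣ l := by
        have := dvd_sub h6 hsr
        have e : (r + l) - s * 1 - (r - s * 1) = (l : ℤ) := by ring
        rwa [e] at this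
      rw [pow_two] at h7
      have h8 : (l : ℤ) ∣ 1 := by
        have hl0 : (l : ℤ) ≠ 0 := hlp.ne_zero
        have h9 : (l : ℤ) * l ∣ l * 1 := by rwa [mul_one]
        exact (mul_dvd_mul_iff_left hl0).1 h9
      exact hl1' h8
    obtain ⟨h9, h10⟩ := hs (r + l) 1 ⟨1, by ring⟩ h5 hl1'
    exact ⟨r + l, ⟨a2, a3, a4, a5, hl1', h9, h10⟩⟩
  · obtain ⟨h9, h10⟩ := hs r 1 ⟨0, by ring⟩ hsr hl1'
    exact ⟨r, ⟨a2, a3, a4, a5, hl1', h9, h10⟩⟩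

end Pool.Agent.Helper6.T6
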