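import Pool.Agent.Helper6.T6.Mert

/-!
# T6-8: many primes of degree one in `(Y^(1-δ), Y]`

`primes_lower` for `x = ⌊Y⌋`, `Pool.Agent.Helper38.TW.primes_upper` for `x = ⌊Y^(1-δ)⌋`, both with
`ε` small against `δ` (`ε = δ/4`): the sum over `Y^(1-δ) < p ≤ Y` of `#(QQ p) log p/p` is
`≥ (1-ε) log Y - (1+ε)(1-δ) log Y - C ≥ (δ/4) log Y` for large `Y`; each term is
`≤ n log Y / Y^(1-δ)`; terms with empty `QQ` vanish.
-/

namespace Pool.Agent.Helper6.T6

open Finset NumberField Pool.Agent.Helper10.P5 Pool.Agent.Helper79.GA Pool.Agent.Helper38.TW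

theorem window (L : Type) [Field L] [NumberField L] (δ : ℝ) (hδ : 0 < δ) (hδ1 : δ < 1) :
    ∃ c : ℝ, 0 < c ∧ ∃ Y₀ : ℝ, ∀ Y : ℝ, Y₀ ≤ Y → c * Y ^ (1 - δ) ≤
      (Set.ncard {l : ℕ | l.Prime ∧ Y ^ (1 - δ) < l ∧ (l : ℝ) ≤ Y ∧
        Nonempty (𝓞 L →+* ZMod l)} : ℝ) := by
  classical
  obtain ⟨C1, hC1⟩ := primes_lower L (δ / 4) (by linarith) (by linarith)
  obtain ⟨C2, hC2⟩ := primes_upper L (QQ L) (fun p hp P hP => (QQ_mem L hp P).1 hP) (δ / 4) (by linarith)
  set n : ℝ := (Module.finrank ℤ (𝓞 L) : ℝ) + 1 with hn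
  have hn1 : 1 ≤ n := by
    have : (0 : ℝ) ≤ (Module.finrank ℤ (𝓞 L) : ℝ) := Nat.cast_nonneg _
    linarith
  refine ⟨δ / (4 * n), by positivity, max 2 (Real.exp ((4 / δ) * (C1 + C2 + 1))), ?_⟩
  intro Y hY
  have hY2 : 2 ≤ Y := le_trans (le_max_left _ _) hY
  have hY1 : 1 ≤ Y := by linarith
  have hY0 : 0 < Y := by linarith
  have hlogY : (4 / δ) * (C1 + C2 + 1) ≤ Real.log Y := by
    rw [Real.le_log_iff_exp_le hY0]
    exact le_trans (le_max_right _ _) hY
  have hlog0 : 0 ≤ Real.log Y := Real.log_nonneg hY1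
  set Z : ℝ := Y ^ (1 - δ) with hZ
  have hZ1 : 1 ≤ Z := Real.one_le_rpow hY1 (by linarith)
  have hZ0 : 0 < Z := by linarith
  have hlogZ : Real.log Z = (1 - δ) * Real.log Y := Real.log_rpow hY0 _
  have hZY : Z ≤ Y := by
    have := Real.rpow_le_rpow_of_exponent_le hY1 (show 1 - δ ≤ 1 by linarith)
    rwa [Real.rpow_one] at this
  set x := ⌊Y⌋₊ with hx
  set z := ⌊Z⌋₊ with hz
  have hx1 : 1 ≤ x := Nat.le_floor (by simpa using hY1)
  have hz1 : 1 ≤ z := Nat.le_floor (by simpa using hZ1)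
  have hxY : (x : ℝ) ≤ Y := Nat.floor_le hY0.le
  have hzZ : (z : ℝ) ≤ Z := Nat.floor_le hZ0.le
  have hxr : (1 : ℝ) ≤ x := by exact_mod_cast hx1
  have hzr : (1 : ℝ) ≤ z := by exact_mod_cast hz1
  have hYx : Y ≤ 2 * x := by
    have := Nat.lt_floor_add_one Y
    linarith
  have hlx : Real.log Y - Real.log 2 ≤ Real.log x := by
    have := Real.log_le_log hY0 hYx
    rw [Real.log_mul (by norm_num) (by linarith)] at this
    linarith
  have hlz : Real.log z ≤ (1 - δ) * Real.log Y := by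
    rw [← hlogZ]
    exact Real.log_le_log (by linarith) hzZ
  have hl2 : Real.log 2 ≤ 1 := by
    have := Real.log_two_lt_d9
    linarith
  have hl2' : 0 ≤ Real.log 2 := Real.log_nonneg (by norm_num)
  have h1 := hC1 x hx1
  have h2 := hC2 z hz1
  have hzx : z ≤ x := Nat.floor_le_floor hZY
  have hsub : PL z ⊆ PL x := by
    intro p hp
    rw [mem_PL] at hp ⊢
    exact ⟨hp.1.trans hzx, hp.2⟩
  have hsplit := Finset.sum_sdiff (f := fun p => ((QQ L p).card : ℝ) * (Real.log p / p)) hsub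
  -- the window
  set W : Finset ℕ := (PL x \ PL z).filter (fun p => (QQ L p).Nonempty) with hW
  have hWm : ∀ p ∈ PL x \ PL z, p.Prime ∧ Z < p ∧ (p : ℝ) ≤ Y := by
    intro p hp
    rw [Finset.mem_sdiff, mem_PL, mem_PL] at hp
    obtain ⟨⟨ha, hb⟩, hc⟩ := hp
    refine ⟨hb, ?_, le_trans (by exact_mod_cast ha) hxY⟩
    have : ¬ p ≤ z := fun h => hc ⟨h, hb⟩
    have h3 : z < p := not_le.1 this
    exact (Nat.floor_lt hZ0.le).1 h3
  have hterm : ∀ p ∈ PL x \ PL z, ((QQ L p).card : ℝ) * (Real.log p / p) ≤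
      if (QQ L p).Nonempty then n * (Real.log Y / Z) else 0 := by
    intro p hp
    obtain ⟨hpp, hpZ, hpY⟩ := hWm p hp
    have hp0 : (0 : ℝ) < p := by linarith
    split_ifs with h
    · have hc : ((QQ L p).card : ℝ) ≤ n := by
        have := QQ_card L hpp
        have : ((QQ L p).card : ℝ) ≤ (Module.finrank ℤ (𝓞 L) : ℝ) := by exact_mod_cast this
        linarith
      have hlp : Real.log p ≤ Real.log Y := Real.log_le_log hp0 hpY
      have hlp0 : 0 ≤ Real.log p := Real.log_nonneg (by linarith)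
      have : Real.log p / p ≤ Real.log Y / Z := by
        apply div_le_div₀ hlog0 hlp hZ0 hpZ.le
      exact mul_le_mul hc this (by positivity) (by linarith)
    · rw [Finset.not_nonempty_iff_eq_empty] at h
      rw [h]
      simp
  have hsum : ∑ p ∈ PL x \ PL z, ((QQ L p).card : ℝ) * (Real.log p / p) ≤
      (W.card : ℝ) * (n * (Real.log Y / Z)) := by
    refine le_trans (Finset.sum_le_sum hterm) ?_
    rw [← Finset.sum_filter, Finset.sum_const, nsmul_eq_mul]
  -- main inequality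
  have hbig : δ / 4 * Real.log Y ≤ (W.card : ℝ) * (n * (Real.log Y / Z)) := by
    refine le_trans ?_ hsum
    have e : ∑ p ∈ PL x \ PL z, ((QQ L p).card : ℝ) * (Real.log p / p) =
        ∑ p ∈ PL x, ((QQ L p).card : ℝ) * (Real.log p / p) -
          ∑ p ∈ PL z, ((QQ L p).card : ℝ) * (Real.log p / p) := by
      rw [← hsplit]; ring
    rw [e]
    have a1 : (1 - δ / 4) * (Real.log Y - Real.log 2) ≤ (1 - δ / 4) * Real.log x :=
      mul_le_mul_of_nonneg_left hlx (by linarith)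
    have a2 : (1 + δ / 4) * Real.log z ≤ (1 + δ / 4) * ((1 - δ) * Real.log Y) :=
      mul_le_mul_of_nonneg_left hlz (by linarith)
    have a3 : C1 + C2 + 1 ≤ δ / 4 * Real.log Y := by
      have h4 : δ / 4 * ((4 / δ) * (C1 + C2 + 1)) = C1 + C2 + 1 := by
        field_simp
      have := mul_le_mul_of_nonneg_left hlogY (show 0 ≤ δ / 4 by linarith)
      rwa [h4] at this
    have a4 : (1 - δ / 4) * Real.log 2 ≤ 1 := by nlinarith
    have a5 : 0 ≤ δ * δ / 4 * Real.log Y := by positivity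
    nlinarith
  -- conclusion
  have hlogpos : 0 < Real.log Y := Real.log_pos (by linarith)
  have hWc : (W.card : ℝ) ≤ (Set.ncard {l : ℕ | l.Prime ∧ Z < l ∧ (l : ℝ) ≤ Y ∧
      Nonempty (𝓞 L →+* ZMod l)} : ℝ) := by
    have hfin : Set.Finite {l : ℕ | l.Prime ∧ Z < l ∧ (l : ℝ) ≤ Y ∧
        Nonempty (𝓞 L →+* ZMod l)} := by
      refine (Set.finite_Iic x).subset ?_
      rintro l ⟨-, -, h, -⟩
      exact Nat.le_floor h
    have : (W : Set ℕ) ⊆ {l : ℕ | l.Prime ∧ Z < l ∧ (l : ℝ) ≤ Y ∧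
        Nonempty (𝓞 L →+* ZMod l)} := by
      intro p hp
      rw [hW, Finset.coe_filter] at hp
      obtain ⟨hp1, hp2⟩ := hp
      obtain ⟨ha, hb, hc⟩ := hWm p hp1
      exact ⟨ha, hb, hc, QQ_hom L ha hp2⟩
    have := Set.ncard_le_ncard this hfin
    rw [Set.ncard_coe_finset] at this
    exact_mod_cast this
  refine le_trans ?_ hWc
  have e1 : (W.card : ℝ) * (n * (Real.log Y / Z)) = ((W.card : ℝ) * n / Z) * Real.log Y := by
    field_simp
  rw [e1] at hbig
  have hb2 : δ / 4 ≤ (W.card : ℝ) * n / Z := le_of_mul_le_mul_right hbig hlogpos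
  rw [le_div_iff₀ hZ0] at hb2
  have e2 : δ / (4 * n) * Z = (δ / 4 * Z) / n := by
    field_simp
  rw [e2, div_le_iff₀ (by linarith)]
  exact hb2

end Pool.Agent.Helper6.T6
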