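import Pool.Agent.Helper6.T6.Member
import Pool.Agent.Helper6.T6.Win
import Pool.Agent.Helper6.T6.Root
import Pool.Agent.Helper6.T6.Bad

/-!
# T6-13b: the count, with the class lemma as a hypothesis
-/

namespace Pool.Agent.Helper6.T6

open Pool.Agent.Helper19.TW Filter NumberField

/-- at most seven primes `> Z` divide a nonzero integer of size `< Z^8` -/
private lemma fibre7 {Z X : ℝ} (hZ : 1 ≤ Z) (hX : X < Z ^ 8) (F : Finset ℕ)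
    (hF : ∀ l ∈ F, l.Prime ∧ Z < l) (z : ℤ) (hz : z ≠ 0) (hzX : |(z : ℝ)| ≤ X)
    (hdvd : ∀ l ∈ F, (l : ℤ) ∣ z) : F.card ≤ 7 := by
  by_contra hcon
  push Not at hcon
  have hp : (∏ l ∈ F, l) ∣ z.natAbs := by
    apply Finset.prod_primes_dvd
    · intro l hl
      exact (hF l hl).1.prime
    · intro l hl
      exact Int.natCast_dvd.mp (hdvd l hl)
  have hpos : 0 < z.natAbs := Int.natAbs_pos.mpr hz
  have hle : (∏ l ∈ F, l) ≤ z.natAbs := Nat.le_of_dvd hpos hp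
  have h1 : Z ^ F.card ≤ ∏ l ∈ F, (l : ℝ) := by
    rw [← Finset.prod_const]
    apply Finset.prod_le_prod
    · intro l _
      linarith
    · intro l hl
      exact (hF l hl).2.le
  have h2 : (∏ l ∈ F, (l : ℝ)) ≤ |(z : ℝ)| := by
    have h3 : ((∏ l ∈ F, l : ℕ) : ℝ) ≤ (z.natAbs : ℝ) := by exact_mod_cast hle
    rw [Nat.cast_prod] at h3
    rwa [Nat.cast_natAbs, Int.cast_abs] at h3
  have h3 : Z ^ 8 ≤ Z ^ F.card := pow_le_pow_right₀ hZ hcon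
  linarith

private lemma fibres {Z X : ℝ} (hZ : 1 ≤ Z) (hX : X < Z ^ 8) (A : Finset ℕ) (f : ℕ → ℤ)
    (hA : ∀ l ∈ A, l.Prime ∧ Z < l) (hf : ∀ l ∈ A, f l ≠ 0 ∧ (l : ℤ) ∣ f l ∧ |(f l : ℝ)| ≤ X)
    (G : Set ℤ) (hG : ∀ l ∈ A, f l ∈ G) (hGX : ∀ z ∈ G, |(z : ℝ)| ≤ X) :
    A.card ≤ 7 * G.ncard := by
  classical
  have hcard : A.card ≤ 7 * (A.image f).card := by
    apply Finset.card_le_mul_card_image
    intro z hz
    obtain ⟨l1, hl1, hz1⟩ := Finset.mem_image.mp hz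
    have hz0 : z ≠ 0 := hz1 ▸ (hf l1 hl1).1
    have hzC : |(z : ℝ)| ≤ X := hz1 ▸ (hf l1 hl1).2.2
    apply fibre7 hZ hX _ _ z hz0 hzC
    · intro l hl
      have hl' := Finset.mem_filter.mp hl
      rw [← hl'.2]
      exact (hf l hl'.1).2.1
    · intro l hl
      exact hA l (Finset.mem_filter.mp hl).1
  have hfin : G.Finite := by
    apply (Set.finite_Icc (-⌈X⌉) ⌈X⌉).subset
    intro z hz
    have h1 := abs_le.mp (hGX z hz)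
    constructor
    · have : (-(⌈X⌉ : ℝ)) ≤ z := by
        have := Int.le_ceil X
        linarith [h1.1]
      exact_mod_cast this
    · have : (z : ℝ) ≤ ⌈X⌉ := h1.2.trans (Int.le_ceil X)
      exact_mod_cast this
  have hsub : ((A.image f : Finset ℤ) : Set ℤ) ⊆ G := by
    intro z hz
    rw [Finset.mem_coe] at hz
    obtain ⟨l, hl, rfl⟩ := Finset.mem_image.mp hz
    exact hG l hl
  have hnc : (A.image f).card ≤ G.ncard := by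
    rw [← Set.ncard_coe_finset]
    exact Set.ncard_le_ncard hsub hfin
  exact hcard.trans (Nat.mul_le_mul_left 7 hnc)

/-- the form vanishes modulo `l` on the lattice of a root -/
private lemma GG_lat {a b r x y : ℤ} {l : ℕ} (h0 : (l : ℤ) ∣ GG a b r 1)
    (h : (l : ℤ) ∣ x - r * y) : (l : ℤ) ∣ GG a b x y := by
  obtain ⟨k, hk⟩ := h
  obtain ⟨j, hj⟩ := h0
  have hx : (x : ZMod l) = r * y := by
    have h1 : ((x - r * y : ℤ) : ZMod l) = 0 :=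
      (ZMod.intCast_zmod_eq_zero_iff_dvd _ l).2 ⟨k, hk⟩
    push_cast at h1
    exact sub_eq_zero.1 h1
  have h2 : ((GG a b r 1 : ℤ) : ZMod l) = 0 :=
    (ZMod.intCast_zmod_eq_zero_iff_dvd _ l).2 ⟨j, hj⟩
  rw [← ZMod.intCast_zmod_eq_zero_iff_dvd]
  have h3 : ((GG a b x y : ℤ) : ZMod l) = y ^ 12 * ((GG a b r 1 : ℤ) : ZMod l) := by
    simp only [GG]
    push_cast
    rw [hx]
    ring
  rw [h3, h2, mul_zero]

/-- rank at least two from two independent points -/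
private lemma rank_ge' {a b d : ℤ}
    (h : ∃ P Q : (tw a b d).toAffine.Point, LinearIndependent ℤ ![P, Q]) :
    (2 : Cardinal) ≤ Module.rank ℤ (tw a b d).toAffine.Point := by
  obtain ⟨P, Q, hPQ⟩ := h
  have := hPQ.cardinal_le_rank
  simpa using this

lemma disc_ne {a b : ℤ} (ha : a ≠ 0) (hroot : ∀ r : ℚ, r ^ 3 + a * r + b ≠ 0) :
    4 * a ^ 3 + 27 * b ^ 2 ≠ 0 := by
  intro h
  have ha' : (a : ℚ) ≠ 0 := by exact_mod_cast ha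
  have h' : 4 * (a : ℚ) ^ 3 + 27 * b ^ 2 = 0 := by exact_mod_cast h
  apply hroot (3 * b / a)
  have : ((3 * b / a : ℚ)) ^ 3 + a * (3 * b / a) + b = b * (4 * (a : ℚ) ^ 3 + 27 * b ^ 2) / a ^ 3 := by
    field_simp
    ring
  rw [this, h']
  simp

/-- the count at level `Y` -/
private theorem level {a b : ℤ} (ha : a ≠ 0) (hb : b ≠ 0) (hroot : ∀ r : ℚ, r ^ 3 + a * r + b ≠ 0)
    (hthin : ∀ r : ℚ, 4 * (a : ℚ) ^ 3 ≠ (r + 1) ^ 3 * (r - 3) * b ^ 2)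
    (hclass : ∀ N : ℤ, N ≠ 0 → ∃ p : ℕ, p.Prime ∧ ¬ (p : ℤ) ∣ N ∧ ∃ t : ℤ, GoodQ a b p t 1)
    {M : ℕ} (hM : 1 ≤ M) {w : ℤ → ℤ} (hw : RootLike M w)
    (h : ∃ u v : ℤ, F12 a b u v ≠ 0 ∧ w (F12 a b u v) = 1) (δ : ℝ) (hδ : 0 < δ)
    (hδ1 : δ ≤ 1 / 20) :
    ∃ C c : ℝ, 0 < C ∧ 0 < c ∧ ∀ᶠ Y : ℝ in atTop, c * Y ^ (1 - δ) ≤
      (Set.ncard {d : ℤ | |(d : ℝ)| ≤ C * Y ^ (6 + 12 * δ) ∧ IsFund d ∧ w d = 1 ∧
          2 ≤ Module.rank ℤ (tw a b d).toAffine.Point} : ℝ) := by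
  classical
  have hD := disc_ne ha hroot
  have hG : ∀ x y : ℤ, x ≠ 0 ∨ y ≠ 0 → GG a b x y ≠ 0 := fun x y hxy => GG_ne ha hroot hxy
  obtain ⟨u, v, h0, h1⟩ := h
  obtain ⟨C, l0, hC1, H⟩ := member12 ha hb hroot hthin hclass hM hw h0 h1
  obtain ⟨L, hL1, hL2, hL⟩ := root_field hD
  obtain ⟨c, hc, Y1, hwin⟩ := window L δ hδ (by linarith)
  obtain ⟨C', hC', Y2, hbad⟩ := bad_count a b hG δ hδ (by linarith)
  have hCpos : 0 < C := by linarith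
  refine ⟨C, c / 14, hCpos, by positivity, ?_⟩
  have e1 : ∀ᶠ Y : ℝ in atTop, Y1 ≤ Y := eventually_ge_atTop _
  have e2 : ∀ᶠ Y : ℝ in atTop, Y2 ≤ Y := eventually_ge_atTop _
  have e3 : ∀ᶠ Y : ℝ in atTop, (l0 : ℝ) + |((4 * a ^ 3 + 27 * b ^ 2 : ℤ) : ℝ)| + 1 ≤ Y ^ (1 - δ) :=
    (tendsto_rpow_atTop (by linarith : (0 : ℝ) < 1 - δ)).eventually_ge_atTop _
  have e4 : ∀ᶠ Y : ℝ in atTop, C ≤ Y ^ ((1 - 2 * δ) / 2) :=
    (tendsto_rpow_atTop (by linarith : (0 : ℝ) < (1 - 2 * δ) / 2)).eventually_ge_atTop _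
  have e5 : ∀ᶠ Y : ℝ in atTop, 2 * C' / c ≤ Y ^ δ :=
    (tendsto_rpow_atTop hδ).eventually_ge_atTop _
  have e6 : ∀ᶠ Y : ℝ in atTop, C + 1 ≤ Y ^ (2 - 20 * δ) :=
    (tendsto_rpow_atTop (by linarith : (0 : ℝ) < 2 - 20 * δ)).eventually_ge_atTop _
  have e7 : ∀ᶠ Y : ℝ in atTop, (1 : ℝ) ≤ Y := eventually_ge_atTop _
  filter_upwards [e1, e2, e3, e4, e5, e6, e7] with Y g1 g2 g3 g4 g5 g6 g7
  have hY0 : 0 < Y := by linarith
  set A : Set ℕ := {l : ℕ | l.Prime ∧ Y ^ (1 - δ) < l ∧ (l : ℝ) ≤ Y ∧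
        Nonempty (𝓞 L →+* ZMod l)} with hA
  set Bd : Set ℕ := {l : ℕ | l.Prime ∧ Y ^ (1 - δ) < l ∧ (l : ℝ) ≤ Y ∧ ∃ x y : ℤ,
        (x ≠ 0 ∨ y ≠ 0) ∧ (x : ℝ) ^ 2 + (y : ℝ) ^ 2 < Y ^ (1 - 2 * δ) ∧
          (l : ℤ) ∣ GG a b x y} with hBd
  have hAfin : A.Finite := by
    apply (Set.finite_Iic ⌊Y⌋₊).subset
    intro l hl
    exact Nat.le_floor hl.2.2.1
  have hBfin : Bd.Finite := by
    apply (Set.finite_Iic ⌊Y⌋₊).subset
    intro l hl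
    exact Nat.le_floor hl.2.2.1
  have k1 : c * Y ^ (1 - δ) ≤ (A.ncard : ℝ) := hwin Y g1
  have k2 : (Bd.ncard : ℝ) ≤ C' * Y ^ (1 - 2 * δ) := hbad Y g2
  have k3 : C' * Y ^ (1 - 2 * δ) ≤ c / 2 * Y ^ (1 - δ) := by
    have h3 : Y ^ (1 - δ) = Y ^ (1 - 2 * δ) * Y ^ δ := by
      rw [← Real.rpow_add hY0]; ring_nf
    rw [div_le_iff₀ hc] at g5
    rw [h3]
    have h4 : 0 ≤ Y ^ (1 - 2 * δ) := by positivity
    nlinarith
  have k4 : (A.ncard : ℝ) - Bd.ncard ≤ ((A \ Bd).ncard : ℝ) := by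
    have h3 : A.ncard ≤ (A \ Bd).ncard + Bd.ncard := by
      have := Set.ncard_le_ncard_sdiff_add_ncard A Bd hBfin
      exact this
    have h4 : (A.ncard : ℝ) ≤ (A \ Bd).ncard + Bd.ncard := by exact_mod_cast h3
    linarith
  -- the elements
  have hB2 : (Y ^ ((1 - 2 * δ) / 2)) ^ 2 = Y ^ (1 - 2 * δ) := by
    rw [← Real.rpow_natCast, ← Real.rpow_mul hY0.le]
    congr 1
    push_cast
    ring
  have hBpos : 0 < Y ^ ((1 - 2 * δ) / 2) := Real.rpow_pos_of_pos hY0 _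
  have hsize : (Y / Y ^ ((1 - 2 * δ) / 2)) ^ 12 = Y ^ (6 + 12 * δ) := by
    have h3 : Y / Y ^ ((1 - 2 * δ) / 2) = Y ^ (1 - (1 - 2 * δ) / 2) := by
      rw [Real.rpow_sub hY0, Real.rpow_one]
    rw [h3, ← Real.rpow_natCast, ← Real.rpow_mul hY0.le]
    congr 1
    push_cast
    ring
  have hel : ∀ l ∈ A \ Bd, ∃ d : ℤ, IsFund d ∧ w d = 1 ∧
        (∃ P Q : (tw a b d).toAffine.Point, LinearIndependent ℤ ![P, Q]) ∧ d ≠ 0 ∧ (l : ℤ) ∣ d ∧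
        |(d : ℝ)| ≤ C * Y ^ (6 + 12 * δ) := by
    rintro l ⟨⟨hl1, hl2, hl3, hl4⟩, hlB⟩
    have hlD : ¬ (l : ℤ) ∣ 4 * a ^ 3 + 27 * b ^ 2 := by
      intro hdvd
      have h3 := Int.le_of_dvd (abs_pos.2 hD) ((dvd_abs _ _).2 hdvd)
      have h4 : (l : ℝ) ≤ |((4 * a ^ 3 + 27 * b ^ 2 : ℤ) : ℝ)| := by
        rw [← Int.cast_abs]
        exact_mod_cast h3
      have h5 : (0 : ℝ) ≤ l0 := by positivity
      linarith
    obtain ⟨r, hr⟩ := hL l hl1 hlD hl4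
    have hl0 : l0 ≤ l := by
      have h3 : (l0 : ℝ) ≤ l := by
        have h4 := abs_nonneg (((4 * a ^ 3 + 27 * b ^ 2 : ℤ) : ℝ))
        linarith
      exact_mod_cast h3
    obtain ⟨d, d1, d2, d3, d4, d5, d6⟩ := H l r (Y ^ ((1 - 2 * δ) / 2)) hl1 hl0 hr g4 (by
      intro x y hxy hne
      by_contra hcon
      push Not at hcon
      rw [hB2] at hcon
      exact hlB ⟨hl1, hl2, hl3, x, y, hne, hcon, GG_lat hr hxy⟩)
    refine ⟨d, d1, d2, d3, d4, d5, d6.trans ?_⟩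
    rw [← hsize]
    have h3 : (l : ℝ) / Y ^ ((1 - 2 * δ) / 2) ≤ Y / Y ^ ((1 - 2 * δ) / 2) := by
      gcongr
    have h4 : (0 : ℝ) ≤ (l : ℝ) / Y ^ ((1 - 2 * δ) / 2) := by positivity
    exact mul_le_mul_of_nonneg_left (pow_le_pow_left₀ h4 h3 12) hCpos.le
  choose! d hd using hel
  have hdfin : (A \ Bd).Finite := hAfin.subset Set.sdiff_subset
  have hcount := fibres (Z := Y ^ (1 - δ)) (X := C * Y ^ (6 + 12 * δ)) (by
      have h3 := abs_nonneg (((4 * a ^ 3 + 27 * b ^ 2 : ℤ) : ℝ))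
      have h5 : (0 : ℝ) ≤ l0 := by positivity
      linarith) (by
      have h3 : (Y ^ (1 - δ)) ^ 8 = Y ^ (2 - 20 * δ) * Y ^ (6 + 12 * δ) := by
        rw [← Real.rpow_natCast, ← Real.rpow_mul hY0.le, ← Real.rpow_add hY0]
        congr 1
        push_cast
        ring
      rw [h3]
      have h4 : 0 < Y ^ (6 + 12 * δ) := Real.rpow_pos_of_pos hY0 _
      exact mul_lt_mul_of_pos_right (by linarith) h4) hdfin.toFinset d (by
      intro l hl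
      rw [Set.Finite.mem_toFinset] at hl
      exact ⟨hl.1.1, hl.1.2.1⟩) (by
      intro l hl
      rw [Set.Finite.mem_toFinset] at hl
      obtain ⟨q1, q2, q3, q4, q5, q6⟩ := hd l hl
      exact ⟨q4, q5, q6⟩)
      {d : ℤ | |(d : ℝ)| ≤ C * Y ^ (6 + 12 * δ) ∧ IsFund d ∧ w d = 1 ∧
          2 ≤ Module.rank ℤ (tw a b d).toAffine.Point} (by
      intro l hl
      rw [Set.Finite.mem_toFinset] at hl
      obtain ⟨q1, q2, q3, q4, q5, q6⟩ := hd l hl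
      exact ⟨q6, q1, q2, rank_ge' q3⟩) (fun z hz => hz.1)
  rw [← Set.ncard_eq_toFinset_card _ hdfin] at hcount
  have hcount' : ((A \ Bd).ncard : ℝ) ≤ 7 * (Set.ncard {d : ℤ | |(d : ℝ)| ≤ C * Y ^ (6 + 12 * δ) ∧
      IsFund d ∧ w d = 1 ∧ 2 ≤ Module.rank ℤ (tw a b d).toAffine.Point} : ℝ) := by
    exact_mod_cast hcount
  linarith

theorem main12_of {a b : ℤ} (ha : a ≠ 0) (hb : b ≠ 0) (hroot : ∀ r : ℚ, r ^ 3 + a * r + b ≠ 0)
    (hthin : ∀ r : ℚ, 4 * (a : ℚ) ^ 3 ≠ (r + 1) ^ 3 * (r - 3) * b ^ 2)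
    (hclass : ∀ N : ℤ, N ≠ 0 → ∃ p : ℕ, p.Prime ∧ ¬ (p : ℤ) ∣ N ∧ ∃ t : ℤ, GoodQ a b p t 1)
    {M : ℕ} (hM : 1 ≤ M) {w : ℤ → ℤ} (hw : RootLike M w)
    (h : ∃ u v : ℤ, F12 a b u v ≠ 0 ∧ w (F12 a b u v) = 1) (ε : ℝ) (hε : 0 < ε) :
    ∃ D₀ : ℝ, ∀ D : ℝ, D₀ ≤ D → D ^ (1 / 6 - ε : ℝ) ≤
      (Set.ncard {d : ℤ | |(d : ℝ)| ≤ D ∧ IsFund d ∧ w d = 1 ∧
          2 ≤ Module.rank ℤ (tw a b d).toAffine.Point} : ℝ) := by
  set δ : ℝ := min ε (1 / 20) with hδdef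
  have hδ : 0 < δ := lt_min hε (by norm_num)
  have hδ1 : δ ≤ 1 / 20 := min_le_right _ _
  have hδε : δ ≤ ε := min_le_left _ _
  obtain ⟨C, c, hC, hc, hlev⟩ := level ha hb hroot hthin hclass hM hw h δ hδ hδ1
  have hk : (0 : ℝ) < 6 + 12 * δ := by linarith
  -- the change of variables
  have ht : Tendsto (fun D : ℝ => (D / C) ^ (1 / (6 + 12 * δ))) atTop atTop :=
    (tendsto_rpow_atTop (by positivity)).comp (tendsto_id.atTop_div_const hC)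
  have hev := ht.eventually hlev
  set e : ℝ := (1 - δ) / (6 + 12 * δ) with he
  have hgap : 1 / 6 - ε < e := by
    rw [he, lt_div_iff₀ hk]
    nlinarith
  have hev2 : ∀ᶠ D : ℝ in atTop, C ^ e / c ≤ D ^ (e - (1 / 6 - ε)) :=
    (tendsto_rpow_atTop (by linarith)).eventually_ge_atTop _
  have hall := (hev.and (hev2.and (eventually_gt_atTop (0 : ℝ)))).exists_forall_of_atTop
  obtain ⟨D₀, hD₀⟩ := hall
  refine ⟨D₀, fun D hD => ?_⟩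
  obtain ⟨m1, m2, m3⟩ := hD₀ D hD
  have hDC : 0 < D / C := div_pos m3 hC
  have n1 : C * ((D / C) ^ (1 / (6 + 12 * δ))) ^ (6 + 12 * δ) = D := by
    rw [← Real.rpow_mul hDC.le, one_div, inv_mul_cancel₀ hk.ne', Real.rpow_one]
    field_simp
  have n2 : ((D / C) ^ (1 / (6 + 12 * δ))) ^ (1 - δ) = D ^ e / C ^ e := by
    rw [← Real.rpow_mul hDC.le, ← Real.div_rpow m3.le hC.le]
    congr 1
    rw [he]
    ring
  rw [n1, n2] at m1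
  refine le_trans ?_ m1
  have n3 : D ^ e = D ^ (e - (1 / 6 - ε)) * D ^ (1 / 6 - ε) := by
    rw [← Real.rpow_add m3]
    congr 1
    ring
  have hCe : 0 < C ^ e := Real.rpow_pos_of_pos hC _
  have hDe : 0 < D ^ (1 / 6 - ε) := Real.rpow_pos_of_pos m3 _
  rw [div_le_iff₀ hc] at m2
  rw [n3, ← mul_div_assoc, le_div_iff₀ hCe]
  nlinarith

end Pool.Agent.Helper6.T6
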