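import Pool.Agent.Helper19.TW.FamRank

/-!
# T6: a form of degree 12 with two points on every cubic twist

`F12(u,v) y² = x³ + a x + b` has the two points `(X1, Y1)`, `(X2, Y2)` for all `a b ≠ 0`.
-/

namespace Pool.Agent.Helper6.T6

/-- the form of degree 12 (without the constant `a b`) -/
def GG (a b u v : ℤ) : ℤ :=
  b ^ 2 * (3 * u ^ 2 + v ^ 2) ^ 3 * (u ^ 2 - v ^ 2) ^ 3 + 4 * a ^ 3 * u ^ 4 * (u ^ 2 + v ^ 2) ^ 4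

/-- the form of degree 12 -/
def F12 (a b u v : ℤ) : ℤ := a * b * GG a b u v

/-- the derivative of `GG a b x 1` -/
def GD (a b x : ℤ) : ℤ :=
  3 * b ^ 2 * ((3 * x ^ 2 + 1) * (x ^ 2 - 1)) ^ 2 * (12 * x ^ 3 - 4 * x) +
    8 * a ^ 3 * (x ^ 2 * (x ^ 2 + 1) ^ 2) * ((x ^ 2 + 1) * (3 * x ^ 2 + 1) * (2 * x))

/-- a good prime which divides the form exactly once -/
structure GoodQ (a b : ℤ) (p : ℕ) (u v : ℤ) : Prop where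
  two : ¬ (p : ℤ) ∣ 2
  ha : ¬ (p : ℤ) ∣ a
  hb : ¬ (p : ℤ) ∣ b
  hD : ¬ (p : ℤ) ∣ 4 * a ^ 3 + 27 * b ^ 2
  hv : ¬ (p : ℤ) ∣ v
  h1 : (p : ℤ) ∣ GG a b u v
  h2 : ¬ (p : ℤ) ^ 2 ∣ GG a b u v

/-- first coordinate of the first point -/
def X1 (a b u v : ℤ) : ℚ :=
  (b : ℚ) * (3 * u ^ 2 + v ^ 2) * (u ^ 2 - v ^ 2) / (a * (u ^ 2 + v ^ 2) ^ 2)

/-- second coordinate of the first point -/
def Y1 (a u v : ℤ) : ℚ := 1 / ((a : ℚ) ^ 2 * (u ^ 2 + v ^ 2) ^ 3)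

/-- first coordinate of the second point -/
def X2 (a b u v : ℤ) : ℚ :=
  ((b : ℚ) ^ 2 * (u ^ 2 - v ^ 2) * (3 * u ^ 2 + v ^ 2) ^ 3 + 4 * a ^ 3 * u ^ 4 * (u ^ 2 + v ^ 2) ^ 2) /
    (4 * a * b * u ^ 2 * v ^ 2 * (3 * u ^ 2 + v ^ 2) ^ 2)

/-- second coordinate of the second point -/
def Y2 (a b u v : ℤ) : ℚ :=
  ((b : ℚ) ^ 2 * (3 * u ^ 2 + v ^ 2) ^ 3 + 4 * a ^ 3 * u ^ 4 * (u ^ 2 + v ^ 2)) /
    (8 * a ^ 2 * b ^ 2 * u ^ 3 * v ^ 3 * (3 * u ^ 2 + v ^ 2) ^ 3)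

lemma point1 {a b u v : ℤ} (ha : a ≠ 0) (hS : u ^ 2 + v ^ 2 ≠ 0) :
    (F12 a b u v : ℚ) * Y1 a u v ^ 2 = X1 a b u v ^ 3 + a * X1 a b u v + b := by
  have ha' : (a : ℚ) ≠ 0 := by exact_mod_cast ha
  have hS' : (u : ℚ) ^ 2 + v ^ 2 ≠ 0 := by exact_mod_cast hS
  simp only [F12, GG, X1, Y1]
  push_cast
  field_simp
  ring

lemma point2 {a b u v : ℤ} (ha : a ≠ 0) (hb : b ≠ 0) (hu : u ≠ 0) (hv : v ≠ 0)
    (hT : 3 * u ^ 2 + v ^ 2 ≠ 0) :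
    (F12 a b u v : ℚ) * Y2 a b u v ^ 2 = X2 a b u v ^ 3 + a * X2 a b u v + b := by
  have ha' : (a : ℚ) ≠ 0 := by exact_mod_cast ha
  have hb' : (b : ℚ) ≠ 0 := by exact_mod_cast hb
  have hu' : (u : ℚ) ≠ 0 := by exact_mod_cast hu
  have hv' : (v : ℚ) ≠ 0 := by exact_mod_cast hv
  have hT' : 3 * (u : ℚ) ^ 2 + v ^ 2 ≠ 0 := by exact_mod_cast hT
  simp only [F12, GG, X2, Y2]
  push_cast
  field_simp
  ring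

/-- the form has no nontrivial zero -/
lemma GG_ne {a b u v : ℤ} (ha : a ≠ 0) (hroot : ∀ r : ℚ, r ^ 3 + a * r + b ≠ 0)
    (h : u ≠ 0 ∨ v ≠ 0) : GG a b u v ≠ 0 := by
  have hS : u ^ 2 + v ^ 2 ≠ 0 := by
    rcases h with h | h <;> positivity
  intro h0
  apply hroot (X1 a b u v)
  rw [← point1 ha hS]
  simp [F12, h0]

end Pool.Agent.Helper6.T6
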