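import Pool.Agent.Helper6.T6.Count
import Pool.Agent.Helper6.T6.Cls

/-!
# T6-13: the count

`main12_of` (Count.lean) with the auxiliary primes of `class12` (Cls.lean).
-/

namespace Pool.Agent.Helper6.T6

open Pool.Agent.Helper19.TW

theorem main12 {a b : ℤ} (ha : a ≠ 0) (hb : b ≠ 0) (hroot : ∀ r : ℚ, r ^ 3 + a * r + b ≠ 0)
    (hthin : ∀ r : ℚ, 4 * (a : ℚ) ^ 3 ≠ (r + 1) ^ 3 * (r - 3) * b ^ 2)
    {M : ℕ} (hM : 1 ≤ M) {w : ℤ → ℤ} (hw : RootLike M w)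
    (h : ∃ u v : ℤ, F12 a b u v ≠ 0 ∧ w (F12 a b u v) = 1) (ε : ℝ) (hε : 0 < ε) :
    ∃ D₀ : ℝ, ∀ D : ℝ, D₀ ≤ D → D ^ (1 / 6 - ε : ℝ) ≤
      (Set.ncard {d : ℤ | |(d : ℝ)| ≤ D ∧ IsFund d ∧ w d = 1 ∧
          2 ≤ Module.rank ℤ (tw a b d).toAffine.Point} : ℝ) :=
  main12_of ha hb hroot hthin (class12 ha hb (disc_ne ha hroot)) hM hw h ε hε

end Pool.Agent.Helper6.T6
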