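import Pool.Agent.Helper6.T6.Defs
import Pool.Agent.Helper8.TW.Sign

/-!
# T6-2: consequences of `GoodQ`, transfer, congruences, size

Modulo `p`: `p ∣ u` gives `G ≡ -b² v¹²`; `p ∣ u²+v²` gives `G ≡ 64 b² u¹²`; `p ∣ 3u²+v²` gives
`G ≡ 64 a³ u¹²`. Compare `Pool.Agent.Helper19.TW.Family`, `FamRank`, `Member`, `Member2` (`FF_bound`).
-/

namespace Pool.Agent.Helper6.T6

open Pool.Agent.Helper19.TW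

variable {a b : ℤ} {p : ℕ} {u v : ℤ}

private lemma modEq_zero_of_dvd {n x : ℤ} (h : n ∣ x) : x ≡ 0 [ZMOD n] :=
  (Int.modEq_zero_iff_dvd).2 h

theorem GoodQ.nu (hp : p.Prime) (h : GoodQ a b p u v) : ¬ (p : ℤ) ∣ u := by
  have hpI : Prime (p : ℤ) := Nat.prime_iff_prime_int.1 hp
  intro hu
  have h0 : u ≡ 0 [ZMOD p] := modEq_zero_of_dvd hu
  have h1 : b ^ 2 * (3 * u ^ 2 + v ^ 2) ^ 3 * (u ^ 2 - v ^ 2) ^ 3 +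
      4 * a ^ 3 * u ^ 4 * (u ^ 2 + v ^ 2) ^ 4 ≡
      b ^ 2 * (3 * 0 ^ 2 + v ^ 2) ^ 3 * (0 ^ 2 - v ^ 2) ^ 3 +
      4 * a ^ 3 * 0 ^ 4 * (0 ^ 2 + v ^ 2) ^ 4 [ZMOD p] := by
    gcongr
  have h2 : (0 : ℤ) ≡ b ^ 2 * (3 * 0 ^ 2 + v ^ 2) ^ 3 * (0 ^ 2 - v ^ 2) ^ 3 +
      4 * a ^ 3 * 0 ^ 4 * (0 ^ 2 + v ^ 2) ^ 4 [ZMOD p] :=
    (modEq_zero_of_dvd h.h1).symm.trans h1
  have h3 : (p : ℤ) ∣ -(b ^ 2 * v ^ 12) := by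
    have := (Int.modEq_zero_iff_dvd).1 h2.symm
    have e : b ^ 2 * (3 * 0 ^ 2 + v ^ 2) ^ 3 * (0 ^ 2 - v ^ 2) ^ 3 +
      4 * a ^ 3 * 0 ^ 4 * (0 ^ 2 + v ^ 2) ^ 4 = -(b ^ 2 * v ^ 12) := by ring
    rwa [e] at this
  rw [dvd_neg] at h3
  rcases hpI.dvd_or_dvd h3 with h4 | h4
  · exact h.hb (hpI.dvd_of_dvd_pow h4)
  · exact h.hv (hpI.dvd_of_dvd_pow h4)

private lemma not_dvd_64 (hp : Prime (p : ℤ)) (h2 : ¬ (p : ℤ) ∣ 2) : ¬ (p : ℤ) ∣ 64 := by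
  intro h
  have e : (64 : ℤ) = 2 ^ 6 := by norm_num
  rw [e] at h
  exact h2 (hp.dvd_of_dvd_pow h)

theorem GoodQ.nS (hp : p.Prime) (h : GoodQ a b p u v) : ¬ (p : ℤ) ∣ u ^ 2 + v ^ 2 := by
  have hpI : Prime (p : ℤ) := Nat.prime_iff_prime_int.1 hp
  intro hs
  have h0 : u ^ 2 + v ^ 2 ≡ 0 [ZMOD p] := modEq_zero_of_dvd hs
  have e1 : GG a b u v = b ^ 2 * (2 * u ^ 2 + (u ^ 2 + v ^ 2)) ^ 3 *
      (2 * u ^ 2 - (u ^ 2 + v ^ 2)) ^ 3 + 4 * a ^ 3 * u ^ 4 * (u ^ 2 + v ^ 2) ^ 4 := by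
    simp only [GG]; ring
  have h1 : b ^ 2 * (2 * u ^ 2 + (u ^ 2 + v ^ 2)) ^ 3 *
      (2 * u ^ 2 - (u ^ 2 + v ^ 2)) ^ 3 + 4 * a ^ 3 * u ^ 4 * (u ^ 2 + v ^ 2) ^ 4 ≡
      b ^ 2 * (2 * u ^ 2 + 0) ^ 3 *
      (2 * u ^ 2 - 0) ^ 3 + 4 * a ^ 3 * u ^ 4 * 0 ^ 4 [ZMOD p] := by
    gcongr
  rw [← e1] at h1
  have h2 := (modEq_zero_of_dvd h.h1).symm.trans h1
  have h3 : (p : ℤ) ∣ 64 * (b ^ 2 * u ^ 12) := by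
    have := (Int.modEq_zero_iff_dvd).1 h2.symm
    have e : b ^ 2 * (2 * u ^ 2 + 0) ^ 3 *
      (2 * u ^ 2 - 0) ^ 3 + 4 * a ^ 3 * u ^ 4 * 0 ^ 4 = 64 * (b ^ 2 * u ^ 12) := by ring
    rwa [e] at this
  rcases hpI.dvd_or_dvd h3 with h4 | h4
  · exact not_dvd_64 hpI h.two h4
  rcases hpI.dvd_or_dvd h4 with h4 | h4
  · exact h.hb (hpI.dvd_of_dvd_pow h4)
  · exact h.nu hp (hpI.dvd_of_dvd_pow h4)

theorem GoodQ.nT (hp : p.Prime) (h : GoodQ a b p u v) : ¬ (p : ℤ) ∣ 3 * u ^ 2 + v ^ 2 := by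
  have hpI : Prime (p : ℤ) := Nat.prime_iff_prime_int.1 hp
  intro hs
  have h0 : 3 * u ^ 2 + v ^ 2 ≡ 0 [ZMOD p] := modEq_zero_of_dvd hs
  have e1 : GG a b u v = b ^ 2 * (3 * u ^ 2 + v ^ 2) ^ 3 *
      (u ^ 2 - v ^ 2) ^ 3 + 4 * a ^ 3 * u ^ 4 * ((3 * u ^ 2 + v ^ 2) - 2 * u ^ 2) ^ 4 := by
    simp only [GG]; ring
  have h1 : b ^ 2 * (3 * u ^ 2 + v ^ 2) ^ 3 *
      (u ^ 2 - v ^ 2) ^ 3 + 4 * a ^ 3 * u ^ 4 * ((3 * u ^ 2 + v ^ 2) - 2 * u ^ 2) ^ 4 ≡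
      b ^ 2 * 0 ^ 3 *
      (u ^ 2 - v ^ 2) ^ 3 + 4 * a ^ 3 * u ^ 4 * (0 - 2 * u ^ 2) ^ 4 [ZMOD p] := by
    gcongr
  rw [← e1] at h1
  have h2 := (modEq_zero_of_dvd h.h1).symm.trans h1
  have h3 : (p : ℤ) ∣ 64 * (a ^ 3 * u ^ 12) := by
    have := (Int.modEq_zero_iff_dvd).1 h2.symm
    have e : b ^ 2 * 0 ^ 3 *
      (u ^ 2 - v ^ 2) ^ 3 + 4 * a ^ 3 * u ^ 4 * (0 - 2 * u ^ 2) ^ 4 =
        64 * (a ^ 3 * u ^ 12) := by ring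
    rwa [e] at this
  rcases hpI.dvd_or_dvd h3 with h4 | h4
  · exact not_dvd_64 hpI h.two h4
  rcases hpI.dvd_or_dvd h4 with h4 | h4
  · exact h.ha (hpI.dvd_of_dvd_pow h4)
  · exact h.nu hp (hpI.dvd_of_dvd_pow h4)

private lemma GoodQ.norm_G [hp : Fact p.Prime] (h : GoodQ a b p u v) :
    padicNorm p (GG a b u v : ℚ) = (p : ℚ)⁻¹ := by
  obtain ⟨k, hk⟩ := h.h1
  have hk' : ¬ (p : ℤ) ∣ k := by
    rintro ⟨j, hj⟩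
    apply h.h2
    exact ⟨j, by rw [hk, hj]; ring⟩
  rw [hk]
  push_cast
  rw [padicNorm.mul, norm_one hk', mul_one, padicNorm.padicNorm_p_of_prime]

theorem GoodQ.norm_F [hp : Fact p.Prime] (h : GoodQ a b p u v) :
    padicNorm p (F12 a b u v : ℚ) = (p : ℚ)⁻¹ := by
  simp only [F12]
  push_cast
  rw [padicNorm.mul, padicNorm.mul, norm_one h.ha, norm_one h.hb, h.norm_G]
  ring

theorem GoodQ.norm_X1 [hp : Fact p.Prime] (h : GoodQ a b p u v) :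
    padicNorm p (X1 a b u v) ≤ 1 := by
  have hS : padicNorm p ((u : ℚ) ^ 2 + v ^ 2) = 1 := by
    have := norm_one (h.nS hp.out)
    push_cast at this
    exact this
  have e : X1 a b u v = ((b * (3 * u ^ 2 + v ^ 2) * (u ^ 2 - v ^ 2) : ℤ) : ℚ) /
      (a * (((u : ℚ) ^ 2 + v ^ 2) * ((u : ℚ) ^ 2 + v ^ 2))) := by
    simp only [X1]
    push_cast
    rw [pow_two ((u : ℚ) ^ 2 + v ^ 2)]
  rw [e, padicNorm.div, padicNorm.mul (a : ℚ), padicNorm.mul ((u : ℚ) ^ 2 + v ^ 2),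
    norm_one h.ha, hS, one_mul, one_mul, div_one]
  exact padicNorm.of_int _

theorem GoodQ.norm_X2 [hp : Fact p.Prime] (h : GoodQ a b p u v) :
    padicNorm p (X2 a b u v) ≤ 1 := by
  have hpI : Prime (p : ℤ) := Nat.prime_iff_prime_int.1 hp.out
  have hden : ¬ (p : ℤ) ∣ 4 * a * b * u ^ 2 * v ^ 2 * (3 * u ^ 2 + v ^ 2) ^ 2 := by
    intro h1
    rcases hpI.dvd_or_dvd h1 with h2 | h2
    · rcases hpI.dvd_or_dvd h2 with h3 | h3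
      · rcases hpI.dvd_or_dvd h3 with h4 | h4
        · rcases hpI.dvd_or_dvd h4 with h5 | h5
          · rcases hpI.dvd_or_dvd h5 with h6 | h6
            · have e : (4 : ℤ) = 2 ^ 2 := by norm_num
              rw [e] at h6
              exact h.two (hpI.dvd_of_dvd_pow h6)
            · exact h.ha h6
          · exact h.hb h5
        · exact h.nu hp.out (hpI.dvd_of_dvd_pow h4)
      · exact h.hv (hpI.dvd_of_dvd_pow h3)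
    · exact h.nT hp.out (hpI.dvd_of_dvd_pow h2)
  have e : X2 a b u v = ((b ^ 2 * (u ^ 2 - v ^ 2) * (3 * u ^ 2 + v ^ 2) ^ 3 +
      4 * a ^ 3 * u ^ 4 * (u ^ 2 + v ^ 2) ^ 2 : ℤ) : ℚ) /
      ((4 * a * b * u ^ 2 * v ^ 2 * (3 * u ^ 2 + v ^ 2) ^ 2 : ℤ) : ℚ) := by
    simp only [X2]
    push_cast
    rfl
  rw [e, padicNorm.div, norm_one hden, div_one]
  exact padicNorm.of_int _

theorem GG_modEq {u' v' n : ℤ} (hu : u ≡ u' [ZMOD n]) (hv : v ≡ v' [ZMOD n]) :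
    GG a b u v ≡ GG a b u' v' [ZMOD n] := by
  simp only [GG]
  gcongr

theorem F12_modEq {u' v' n : ℤ} (hu : u ≡ u' [ZMOD n]) (hv : v ≡ v' [ZMOD n]) :
    F12 a b u v ≡ F12 a b u' v' [ZMOD n] := by
  simp only [F12]
  exact (GG_modEq hu hv).mul_left _

theorem GoodQ.transfer {u' v' : ℤ} (h : GoodQ a b p u v)
    (hu : u' ≡ u [ZMOD (p : ℤ) ^ 2]) (hv : v' ≡ v [ZMOD (p : ℤ) ^ 2]) : GoodQ a b p u' v' := by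
  have hpp : (p : ℤ) ∣ (p : ℤ) ^ 2 := dvd_pow_self _ two_ne_zero
  have hu1 : u' ≡ u [ZMOD (p : ℤ)] := hu.of_dvd hpp
  have hv1 : v' ≡ v [ZMOD (p : ℤ)] := hv.of_dvd hpp
  refine ⟨h.two, h.ha, h.hb, h.hD, ?_, ?_, ?_⟩
  · intro h1
    exact h.hv ((Int.modEq_zero_iff_dvd).1 (hv1.symm.trans ((Int.modEq_zero_iff_dvd).2 h1)))
  · exact (Int.modEq_zero_iff_dvd).1 ((GG_modEq hu1 hv1).trans ((Int.modEq_zero_iff_dvd).2 h.h1))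
  · intro h1
    exact h.h2 ((Int.modEq_zero_iff_dvd).1 ((GG_modEq hu hv).symm.trans
      ((Int.modEq_zero_iff_dvd).2 h1)))

/-- size of the form -/
theorem F12_bound (a b : ℤ) : ∃ C : ℝ, 0 < C ∧ ∀ (u v : ℤ) (T : ℝ), |(u : ℝ)| ≤ T → |(v : ℝ)| ≤ T →
    |(F12 a b u v : ℝ)| ≤ C * T ^ 12 := by
  refine ⟨|(a : ℝ)| * |(b : ℝ)| * (64 * (b : ℝ) ^ 2 + 64 * |(a : ℝ)| ^ 3) + 1, by positivity, ?_⟩
  intro u v T hu hv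
  have hT : 0 ≤ T := (abs_nonneg _).trans hu
  have hu2 : (u : ℝ) ^ 2 ≤ T ^ 2 := by
    rw [← sq_abs]; exact pow_le_pow_left₀ (abs_nonneg _) hu 2
  have hv2 : (v : ℝ) ^ 2 ≤ T ^ 2 := by
    rw [← sq_abs]; exact pow_le_pow_left₀ (abs_nonneg _) hv 2
  have hu0 : 0 ≤ (u : ℝ) ^ 2 := by positivity
  have hv0 : 0 ≤ (v : ℝ) ^ 2 := by positivity
  have h3 : |3 * (u : ℝ) ^ 2 + (v : ℝ) ^ 2| ≤ 4 * T ^ 2 := by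
    rw [abs_of_nonneg (by positivity)]; linarith
  have hm : |(u : ℝ) ^ 2 - (v : ℝ) ^ 2| ≤ T ^ 2 := by
    rw [abs_le]; constructor <;> linarith
  have hs : |(u : ℝ) ^ 2 + (v : ℝ) ^ 2| ≤ 2 * T ^ 2 := by
    rw [abs_of_nonneg (by positivity)]; linarith
  have e : (F12 a b u v : ℝ) = (a : ℝ) * b * ((b : ℝ) ^ 2 * (3 * (u : ℝ) ^ 2 + (v : ℝ) ^ 2) ^ 3 *
      ((u : ℝ) ^ 2 - (v : ℝ) ^ 2) ^ 3 + 4 * (a : ℝ) ^ 3 * ((u : ℝ) ^ 2) ^ 2 *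
      ((u : ℝ) ^ 2 + (v : ℝ) ^ 2) ^ 4) := by
    simp only [F12, GG]; push_cast; ring
  have hK : |(b : ℝ) ^ 2 * (3 * (u : ℝ) ^ 2 + (v : ℝ) ^ 2) ^ 3 *
      ((u : ℝ) ^ 2 - (v : ℝ) ^ 2) ^ 3 + 4 * (a : ℝ) ^ 3 * ((u : ℝ) ^ 2) ^ 2 *
      ((u : ℝ) ^ 2 + (v : ℝ) ^ 2) ^ 4| ≤ (64 * (b : ℝ) ^ 2 + 64 * |(a : ℝ)| ^ 3) * T ^ 12 := by
    refine (abs_add_le _ _).trans ?_
    have h1 : |(b : ℝ) ^ 2 * (3 * (u : ℝ) ^ 2 + (v : ℝ) ^ 2) ^ 3 *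
      ((u : ℝ) ^ 2 - (v : ℝ) ^ 2) ^ 3| ≤ (b : ℝ) ^ 2 * (4 * T ^ 2) ^ 3 * (T ^ 2) ^ 3 := by
      rw [abs_mul, abs_mul, abs_of_nonneg (sq_nonneg (b : ℝ)),
        abs_pow (3 * (u : ℝ) ^ 2 + (v : ℝ) ^ 2) 3, abs_pow ((u : ℝ) ^ 2 - (v : ℝ) ^ 2) 3]
      gcongr
    have h2 : |4 * (a : ℝ) ^ 3 * ((u : ℝ) ^ 2) ^ 2 * ((u : ℝ) ^ 2 + (v : ℝ) ^ 2) ^ 4| ≤
        4 * |(a : ℝ)| ^ 3 * (T ^ 2) ^ 2 * (2 * T ^ 2) ^ 4 := by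
      rw [abs_mul, abs_mul, abs_mul, abs_pow (a : ℝ) 3, abs_pow ((u : ℝ) ^ 2) 2,
        abs_pow ((u : ℝ) ^ 2 + (v : ℝ) ^ 2) 4, abs_of_nonneg hu0]
      rw [abs_of_pos (by norm_num : (0 : ℝ) < 4)]
      gcongr
    have e3 : (b : ℝ) ^ 2 * (4 * T ^ 2) ^ 3 * (T ^ 2) ^ 3 +
        4 * |(a : ℝ)| ^ 3 * (T ^ 2) ^ 2 * (2 * T ^ 2) ^ 4 =
        (64 * (b : ℝ) ^ 2 + 64 * |(a : ℝ)| ^ 3) * T ^ 12 := by ring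
    linarith
  rw [e, abs_mul, abs_mul]
  have hT12 : 0 ≤ T ^ 12 := by positivity
  have h5 : |(a : ℝ)| * |(b : ℝ)| * |(b : ℝ) ^ 2 * (3 * (u : ℝ) ^ 2 + (v : ℝ) ^ 2) ^ 3 *
      ((u : ℝ) ^ 2 - (v : ℝ) ^ 2) ^ 3 + 4 * (a : ℝ) ^ 3 * ((u : ℝ) ^ 2) ^ 2 *
      ((u : ℝ) ^ 2 + (v : ℝ) ^ 2) ^ 4| ≤
      |(a : ℝ)| * |(b : ℝ)| * ((64 * (b : ℝ) ^ 2 + 64 * |(a : ℝ)| ^ 3) * T ^ 12) := by
    gcongr
  linarith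

private noncomputable def GR (a b x y : ℝ) : ℝ :=
  b ^ 2 * (3 * x ^ 2 + y ^ 2) ^ 3 * (x ^ 2 - y ^ 2) ^ 3 + 4 * a ^ 3 * x ^ 4 * (x ^ 2 + y ^ 2) ^ 4

private lemma GR_eq (a b u v : ℤ) : GR a b u v = (GG a b u v : ℝ) := by
  simp only [GR, GG]; push_cast; rfl

/-- cone: the sign is constant near a direction -/
theorem sign_cone (a b u₁ v₁ : ℤ) (h : GG a b u₁ v₁ ≠ 0) :
    ∃ e : ℝ, 0 < e ∧ e < 1 ∧ ∀ (t : ℝ) (u v : ℤ), 0 < t →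
      |(u : ℝ) - t * u₁| ≤ e * t → |(v : ℝ) - t * v₁| ≤ e * t →
      0 < GG a b u v * GG a b u₁ v₁ := by
  obtain ⟨e, he, he1, H⟩ := Pool.Agent.Helper8.TW.cone_pos
    (fun x y => GR a b x y * (GG a b u₁ v₁ : ℝ))
    (by unfold GR; fun_prop) 12 (by intro t x y; unfold GR; ring) (u₁ : ℝ) (v₁ : ℝ)
    (by
      simp only [GR_eq]
      have : (GG a b u₁ v₁ : ℝ) ≠ 0 := by exact_mod_cast h
      exact mul_self_pos.2 this)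
  refine ⟨e, he, he1, fun t u v ht hu hv => ?_⟩
  have h1 := H t u v ht hu hv
  simp only [GR_eq] at h1
  exact_mod_cast h1

end Pool.Agent.Helper6.T6
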