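import Pool.Agent.Helper6.T6.Alg
import Pool.Agent.Helper6.T6.Good

/-!
# T6-3: two independent points

`K := AdjoinRoot` of the irreducible cubic `x³ + a x + b`, `e` its root, `S x := ∃ R, x = R + R` and
`Pool.Agent.Helper19.TW.indep`. `P1 + P2 ∉ S` because `(X1 - e)(X2 - e) (b + a e)` is a square in `K`
and `1 + (a/b) e` is not (`not_sq`).
-/

namespace Pool.Agent.Helper6.T6

open Pool.Agent.Helper19.TW

section fieldK

open Polynomial

/-- the cubic field -/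
private lemma exists_cubic {a b : ℤ} (hroot : ∀ r : ℚ, r ^ 3 + a * r + b ≠ 0) :
    ∃ (K : Type) (_ : Field K) (_ : Algebra ℚ K) (e : K),
      Module.finrank ℚ K = 3 ∧ e ^ 3 + (a : K) * e + (b : K) = 0 := by
  set f : ℚ[X] := X ^ 3 + C (a : ℚ) * X + C (b : ℚ) with hf
  have hdeg : f.natDegree = 3 := by
    rw [hf]; compute_degree!
  have hmonic : f.Monic := by
    rw [hf]; monicity!
  have hirr : Irreducible f := by
    rw [Polynomial.Monic.irreducible_iff_roots_eq_zero_of_degree_le_three hmonic (by omega)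
      (by omega)]
    rw [Multiset.eq_zero_iff_forall_notMem]
    intro r hr
    rw [mem_roots hmonic.ne_zero, IsRoot.def, hf] at hr
    simp only [eval_add, eval_pow, eval_X, eval_mul, eval_C] at hr
    exact hroot r hr
  have hfact : Fact (Irreducible f) := ⟨hirr⟩
  refine ⟨AdjoinRoot f, inferInstance, inferInstance, AdjoinRoot.root f, ?_, ?_⟩
  · rw [(AdjoinRoot.powerBasis hirr.ne_zero).finrank, AdjoinRoot.powerBasis_dim, hdeg]
  · have h := AdjoinRoot.eval₂_root f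
    rw [hf] at h
    simp only [eval₂_add, eval₂_pow, eval₂_X, eval₂_mul, eval₂_C] at h
    simpa using h

end fieldK

/-- the line through two points, in an extension -/
private lemma line_K {A B : ℚ} {x1 y1 x2 y2 : ℚ}
    (h1 : (⟨0, 0, 0, A, B⟩ : WeierstrassCurve ℚ).toAffine.Equation x1 y1)
    (h2 : (⟨0, 0, 0, A, B⟩ : WeierstrassCurve ℚ).toAffine.Equation x2 y2)
    (hxy : ¬(x1 = x2 ∧ y1 = (⟨0, 0, 0, A, B⟩ : WeierstrassCurve ℚ).toAffine.negY x2 y2))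
    {K : Type} [Field K] [CharZero K] (E : K) (hE : E ^ 3 + (A : K) * E + (B : K) = 0) :
    ∃ w : K, ((x1 : K) - E) * ((x2 : K) - E) *
      ((((⟨0, 0, 0, A, B⟩ : WeierstrassCurve ℚ).toAffine.addX x1 x2
        ((⟨0, 0, 0, A, B⟩ : WeierstrassCurve ℚ).toAffine.slope x1 x2 y1 y2) : ℚ) : K) - E)
        = w ^ 2 := by
  obtain ⟨r1, r2, r3⟩ := line_rel h1 h2 hxy
  set l := (⟨0, 0, 0, A, B⟩ : WeierstrassCurve ℚ).toAffine.slope x1 x2 y1 y2 with hl
  set x3 := (⟨0, 0, 0, A, B⟩ : WeierstrassCurve ℚ).toAffine.addX x1 x2 l with hx3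
  have r4 : x1 * x2 * x3 = (y1 - l * x1) ^ 2 - B := by
    linear_combination (-1) * r3 - x3 ^ 2 * r1 + x3 * r2
  have k1 : (x1 : K) + x2 + x3 = (l : K) ^ 2 := by exact_mod_cast congrArg (Rat.cast : ℚ → K) r1
  have k2 : (x1 : K) * x2 + x1 * x3 + x2 * x3 = A - 2 * l * (y1 - l * x1) := by
    exact_mod_cast congrArg (Rat.cast : ℚ → K) r2
  have k4 : (x1 : K) * x2 * x3 = ((y1 : K) - l * x1) ^ 2 - B := by
    exact_mod_cast congrArg (Rat.cast : ℚ → K) r4
  refine ⟨(l : K) * E + (y1 - l * x1), ?_⟩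
  linear_combination k4 - E * k2 + E ^ 2 * k1 - hE

/-- the double of a point, in an extension -/
private lemma dbl_K {A B : ℚ} (R : (⟨0, 0, 0, A, B⟩ : WeierstrassCurve ℚ).toAffine.Point)
    {x3 y3 : ℚ} {h3 : (⟨0, 0, 0, A, B⟩ : WeierstrassCurve ℚ).toAffine.Nonsingular x3 y3}
    (hR : R + R = WeierstrassCurve.Affine.Point.some x3 y3 h3)
    {K : Type} [Field K] [CharZero K] (E : K) (hE : E ^ 3 + (A : K) * E + (B : K) = 0)
    (hirr : ∀ r : ℚ, (r : K) - E ≠ 0) :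
    ∃ q : K, (x3 : K) - E = q ^ 2 := by
  cases R with
  | zero =>
    exfalso
    have : (0 : (⟨0, 0, 0, A, B⟩ : WeierstrassCurve ℚ).toAffine.Point) + 0 =
      WeierstrassCurve.Affine.Point.some x3 y3 h3 := hR
    rw [add_zero] at this
    exact WeierstrassCurve.Affine.Point.some_ne_zero _ this.symm
  | some x y h =>
    by_cases hY : y = (⟨0, 0, 0, A, B⟩ : WeierstrassCurve ℚ).toAffine.negY x y
    · rw [WeierstrassCurve.Affine.Point.add_self_of_Y_eq hY] at hR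
      exact absurd hR.symm (WeierstrassCurve.Affine.Point.some_ne_zero _)
    · have hxy : ¬(x = x ∧ y = (⟨0, 0, 0, A, B⟩ : WeierstrassCurve ℚ).toAffine.negY x y) :=
        fun h => hY h.2
      rw [WeierstrassCurve.Affine.Point.add_some hxy] at hR
      have hx : x3 = (⟨0, 0, 0, A, B⟩ : WeierstrassCurve ℚ).toAffine.addX x x
        ((⟨0, 0, 0, A, B⟩ : WeierstrassCurve ℚ).toAffine.slope x x y y) := by
        injection hR with h1 _
        exact h1.symm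
      obtain ⟨w, hw⟩ := line_K h.1 h.1 hxy E hE
      rw [← hx] at hw
      refine ⟨w / ((x : K) - E), ?_⟩
      have h0 := hirr x
      rw [div_pow, eq_div_iff (pow_ne_zero 2 h0)]
      linear_combination hw

/-- the product of the two `x`-coordinates is not a square -/
private lemma core {a b u v : ℤ} (ha : a ≠ 0) (hb : b ≠ 0) (hu : u ≠ 0) (hv : v ≠ 0)
    (hroot : ∀ r : ℚ, r ^ 3 + a * r + b ≠ 0)
    (hthin : ∀ r : ℚ, 4 * (a : ℚ) ^ 3 ≠ (r + 1) ^ 3 * (r - 3) * b ^ 2)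
    {K : Type} [Field K] [Algebra ℚ K] [CharZero K] (hK : Module.finrank ℚ K = 3) (e : K)
    (he : e ^ 3 + (a : K) * e + (b : K) = 0) (hirr : ∀ r : ℚ, (r : K) - e ≠ 0) (q : K)
    (hq : (((X1 a b u v : ℚ) : K) - e) * (((X2 a b u v : ℚ) : K) - e) = q ^ 2) : False := by
  have hq0 : q ≠ 0 := by
    rintro rfl
    have := mul_ne_zero (hirr (X1 a b u v)) (hirr (X2 a b u v))
    rw [hq] at this
    simp at this
  have haK : (a : K) ≠ 0 := by exact_mod_cast ha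
  have hbK : (b : K) ≠ 0 := by exact_mod_cast hb
  have huK : (u : K) ≠ 0 := by exact_mod_cast hu
  have hvK : (v : K) ≠ 0 := by exact_mod_cast hv
  have hS : (u : K) ^ 2 + (v : K) ^ 2 ≠ 0 := by
    have : u ^ 2 + v ^ 2 ≠ 0 := by positivity
    exact_mod_cast this
  have hT : 3 * (u : K) ^ 2 + (v : K) ^ 2 ≠ 0 := by
    have : 3 * u ^ 2 + v ^ 2 ≠ 0 := by positivity
    exact_mod_cast this
  have hT' : (u : K) ^ 2 * 3 + (v : K) ^ 2 ≠ 0 := by
    intro h0; apply hT; linear_combination h0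
  have e1 : ((X1 a b u v : ℚ) : K) - e =
      ((b : K) * (3 * u ^ 2 + v ^ 2) * (u ^ 2 - v ^ 2) - a * (u ^ 2 + v ^ 2) ^ 2 * e) /
        (a * (u ^ 2 + v ^ 2) ^ 2) := by
    simp only [X1]
    push_cast
    field_simp
  have e2 : ((X2 a b u v : ℚ) : K) - e =
      ((b : K) ^ 2 * (u ^ 2 - v ^ 2) * (3 * u ^ 2 + v ^ 2) ^ 3 +
        4 * a ^ 3 * u ^ 4 * (u ^ 2 + v ^ 2) ^ 2 -
        4 * a * b * u ^ 2 * v ^ 2 * (3 * u ^ 2 + v ^ 2) ^ 2 * e) /
        (4 * a * b * u ^ 2 * v ^ 2 * (3 * u ^ 2 + v ^ 2) ^ 2) := by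
    simp only [X2]
    push_cast
    field_simp
  set N1 : K := (b : K) * (3 * u ^ 2 + v ^ 2) * (u ^ 2 - v ^ 2) - a * (u ^ 2 + v ^ 2) ^ 2 * e
    with hN1
  set N2 : K := (b : K) ^ 2 * (u ^ 2 - v ^ 2) * (3 * u ^ 2 + v ^ 2) ^ 3 +
        4 * a ^ 3 * u ^ 4 * (u ^ 2 + v ^ 2) ^ 2 -
        4 * a * b * u ^ 2 * v ^ 2 * (3 * u ^ 2 + v ^ 2) ^ 2 * e with hN2
  set M1 : K := 4 * (u : K) ^ 4 * b - (u ^ 2 + v ^ 2) ^ 2 * (b + a * e) with hM1
  set M2 : K := 2 * (u : K) ^ 2 * (b + a * e) + (u ^ 2 + v ^ 2) * b with hM2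
  have hN : 4 * (a : K) ^ 2 * b * (u ^ 2 + v ^ 2) ^ 2 * u ^ 2 * v ^ 2 * (3 * u ^ 2 + v ^ 2) ^ 2 *
      q ^ 2 = N1 * N2 := by
    rw [← hq, e1, e2]
    field_simp
  have hid : N1 * N2 * (b + a * e) = (M1 * M2) ^ 2 := by
    rw [hN1, hN2, hM1, hM2]
    linear_combination (4 * (a : K) ^ 3 * b * u ^ 4 * (3 * u ^ 8 + 4 * u ^ 6 * v ^ 2 -
      2 * u ^ 4 * v ^ 4 - 4 * u ^ 2 * v ^ 6 - v ^ 8) -
      4 * (a : K) ^ 4 * u ^ 4 * (u ^ 2 + v ^ 2) ^ 4 * e) * he
  refine not_sq ha hb hroot hthin hK e he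
    (M1 * M2 / (2 * a * b * (u ^ 2 + v ^ 2) * u * v * (3 * u ^ 2 + v ^ 2) * q)) ?_
  have hden : (2 * (a : K) * b * (u ^ 2 + v ^ 2) * u * v * (3 * u ^ 2 + v ^ 2) * q) ≠ 0 := by
    have h2 : (2 : K) ≠ 0 := two_ne_zero
    exact mul_ne_zero (mul_ne_zero (mul_ne_zero (mul_ne_zero (mul_ne_zero (mul_ne_zero
      (mul_ne_zero h2 haK) hbK) hS) huK) hvK) hT) hq0
  rw [div_pow, mul_div_assoc', div_eq_iff (pow_ne_zero 2 hden)]
  linear_combination (-(b : K)) * hid - (b : K) * (b + a * e) * hN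

theorem rank12 {a b : ℤ} {p : ℕ} [hp : Fact p.Prime] {u v : ℤ} (h : GoodQ a b p u v)
    (hroot : ∀ r : ℚ, r ^ 3 + a * r + b ≠ 0)
    (hthin : ∀ r : ℚ, 4 * (a : ℚ) ^ 3 ≠ (r + 1) ^ 3 * (r - 3) * b ^ 2) {d : ℤ} {m : ℚ}
    (hm : (F12 a b u v : ℚ) = d * m ^ 2) (hN : padicNorm p m = 1) :
    ∃ P Q : (tw a b d).toAffine.Point, LinearIndependent ℤ ![P, Q] := by
  have hpp := hp.out
  have ne0 {z : ℤ} (hz : ¬ (p : ℤ) ∣ z) : z ≠ 0 := by rintro rfl; exact hz (dvd_zero _)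
  have ha0 := ne0 h.ha
  have hb0 := ne0 h.hb
  have hu0 := ne0 (h.nu hpp)
  have hv0 := ne0 h.hv
  have hS0 := ne0 (h.nS hpp)
  have hT0 := ne0 (h.nT hpp)
  have hD0 := ne0 h.hD
  have hd : padicNorm p (d : ℚ) = (p : ℚ)⁻¹ := by
    have := h.norm_F
    rw [hm, padicNorm.mul, pow_two, padicNorm.mul, hN] at this
    simpa using this
  have hp1 : (1 : ℚ) < p := by exact_mod_cast hp.out.one_lt
  have hinv : (p : ℚ)⁻¹ < 1 := inv_lt_one_of_one_lt₀ hp1
  have hp0 : (0 : ℚ) < p := by linarith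
  have hinv0 : (0 : ℚ) < (p : ℚ)⁻¹ := inv_pos.2 hp0
  have hd0' : (d : ℚ) ≠ 0 := by
    intro h0
    rw [h0, padicNorm.zero] at hd
    linarith
  have hd0 : d ≠ 0 := by exact_mod_cast hd0'
  have hdlt : padicNorm p (d : ℚ) < 1 := by rw [hd]; exact hinv
  have h₁ : (d : ℚ) * (m * Y1 a u v) ^ 2 = X1 a b u v ^ 3 + a * X1 a b u v + b := by
    rw [← point1 ha0 hS0, hm]; ring
  have h₂ : (d : ℚ) * (m * Y2 a b u v) ^ 2 = X2 a b u v ^ 3 + a * X2 a b u v + b := by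
    rw [← point2 ha0 hb0 hu0 hv0 hT0, hm]; ring
  have hD1 : padicNorm p ((4 * a ^ 3 + 27 * b ^ 2 : ℤ) : ℚ) = 1 := norm_one h.hD
  refine ⟨.some _ _ (mk_point hd0 hD0 h₁), .some _ _ (mk_point hd0 hD0 h₂), ?_⟩
  rw [LinearIndependent.pair_iff]
  refine indep (G := (tw a b d).toAffine.Point) (fun x => ∃ R, x = R + R) ?_ (fun x => ⟨x, rfl⟩)
    (two_tors hd0 hroot) ?_ ?_ ?_
  · rintro x ⟨R, rfl⟩
    exact ⟨-R, by abel⟩
  · rintro ⟨R, hR⟩
    have := Gd_dbl hd hD1 R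
    rw [← hR] at this
    exact absurd this (not_le.2 (nmul_lt hdlt h.norm_X1))
  · rintro ⟨R, hR⟩
    have := Gd_dbl hd hD1 R
    rw [← hR] at this
    exact absurd this (not_le.2 (nmul_lt hdlt h.norm_X2))
  · rintro ⟨R, hR⟩
    obtain ⟨K, iF, iA, e, hK, he⟩ := exists_cubic hroot
    have hc0 : CharZero K := algebraRat.charZero K
    have hirr : ∀ r : ℚ, (r : K) - e ≠ 0 := by
      intro r hr
      have hre : e = (r : K) := by linear_combination -hr
      rw [hre] at he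
      apply hroot r
      exact_mod_cast he
    have hdK : (d : K) ≠ 0 := by exact_mod_cast hd0
    set E : K := (d : K) * e with hEd
    have hE : E ^ 3 + (((a * d ^ 2 : ℤ) : ℚ) : K) * E + (((b * d ^ 3 : ℤ) : ℚ) : K) = 0 := by
      rw [hEd]
      push_cast
      linear_combination (d : K) ^ 3 * he
    have hirrE : ∀ r : ℚ, (r : K) - E ≠ 0 := by
      intro r hr
      apply hirr (r / d)
      push_cast
      rw [hEd] at hr
      field_simp
      linear_combination hr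
    by_cases hxy : (d * X1 a b u v : ℚ) = d * X2 a b u v ∧
        (d ^ 2 * (m * Y1 a u v) : ℚ) = (tw a b d).toAffine.negY (d * X2 a b u v)
          (d ^ 2 * (m * Y2 a b u v))
    · have hX : X1 a b u v = X2 a b u v := mul_left_cancel₀ hd0' hxy.1
      refine core ha0 hb0 hu0 hv0 hroot hthin hK e he hirr (((X1 a b u v : ℚ) : K) - e) ?_
      rw [← hX, pow_two]
    · rw [WeierstrassCurve.Affine.Point.add_some hxy] at hR
      obtain ⟨q, hq⟩ := dbl_K R hR.symm E hE hirrE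
      obtain ⟨w, hw⟩ := line_K (mk_point hd0 hD0 h₁).1 (mk_point hd0 hD0 h₂).1 hxy E hE
      have hw' : (((d * X1 a b u v : ℚ) : K) - E) * (((d * X2 a b u v : ℚ) : K) - E) * q ^ 2
          = w ^ 2 := by
        rw [← hq]; exact hw
      have hq0 : q ≠ 0 := by
        rintro rfl
        have := hirrE ((tw a b d).toAffine.addX (d * X1 a b u v) (d * X2 a b u v)
          ((tw a b d).toAffine.slope (d * X1 a b u v) (d * X2 a b u v)
            (d ^ 2 * (m * Y1 a u v)) (d ^ 2 * (m * Y2 a b u v))))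
        rw [hq] at this
        simp at this
      refine core ha0 hb0 hu0 hv0 hroot hthin hK e he hirr (w / (d * q)) ?_
      rw [div_pow, eq_div_iff (pow_ne_zero 2 (mul_ne_zero hdK hq0))]
      rw [hEd] at hw'
      push_cast at hw'
      linear_combination hw'

end Pool.Agent.Helper6.T6
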