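import Pool.Agent.Helper6.T6.ThinDefs
import Pool.Agent.Helper6.T6.Hens

/-!
# T6-15: auxiliary primes in the thin case

`r = m/n`. For `t = n K`, `K = 2 a b (4a³+27b²) n N`:
`H2 r t 1` is an integer `≡ 1 (mod K)` and is `> 1`: with `T = t²`,
`H2 = (r²+4r+6)T³ + (2r²+4r-3)T² + r²T + 1 ≥ 2T³ - 5T² + 1`.
So a prime `p ∤ K` divides it; `p ∤ n`, `p ∤ 2ab(4a³+27b²)N`,
`p ∣ GG a b t 1` by `thin_factor` (`gp` is an integer at `±t`). `hensel12` with `v = 1`: `t` or `t + p`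
gives `p ∥ GG a b · 1`; `n² H2 r u 1` is an integer polynomial in `u`.
-/

namespace Pool.Agent.Helper6.T6

open Pool.Agent.Helper19.TW

/-- `n² H2` as an integer polynomial -/
def JH (m n u : ℤ) : ℤ :=
  8 * n ^ 2 * u ^ 6 + 4 * m * n * u ^ 4 * (u ^ 2 + 1) + (m ^ 2 - 3 * n ^ 2) * u ^ 2 *
    (u ^ 2 + 1) ^ 2 + n ^ 2 * (u ^ 2 + 1) ^ 3

/-- `H2` at `u = n k` -/
def HZ (m n k : ℤ) : ℤ :=
  8 * (n * k) ^ 6 + 4 * m * n ^ 3 * k ^ 4 * ((n * k) ^ 2 + 1) + (m ^ 2 * k ^ 2 - 3 * (n * k) ^ 2) *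
    ((n * k) ^ 2 + 1) ^ 2 + ((n * k) ^ 2 + 1) ^ 3

/-- `gp` at `u = n k` -/
def GZ (m n k : ℤ) : ℤ :=
  (m * k) * (n * k) ^ 2 - 2 * (n * k) ^ 3 + 3 * (n * k) ^ 2 + m * k + 1

lemma H2_lower (r : ℚ) (u : ℚ) (hu : 4 ≤ u ^ 2) : 1 < H2 r u 1 := by
  have e : H2 r u 1 = (r ^ 2 + 4 * r + 6) * (u ^ 2) ^ 3 + (2 * r ^ 2 + 4 * r - 3) * (u ^ 2) ^ 2 +
      r ^ 2 * u ^ 2 + 1 := by
    simp only [H2]; ring
  rw [e]
  generalize u ^ 2 = T at hu ⊢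
  have h1 : 2 * T ^ 3 ≤ (r ^ 2 + 4 * r + 6) * T ^ 3 := by
    have : 0 ≤ T ^ 3 := by positivity
    nlinarith [sq_nonneg (r + 2)]
  have h2 : -5 * T ^ 2 ≤ (2 * r ^ 2 + 4 * r - 3) * T ^ 2 := by
    have : 0 ≤ T ^ 2 := by positivity
    nlinarith [sq_nonneg (r + 1)]
  have h3 : 0 ≤ r ^ 2 * T := by positivity
  have h4 : 0 < 2 * T ^ 3 + -5 * T ^ 2 := by
    have : 2 * T ^ 3 + -5 * T ^ 2 = T ^ 2 * (2 * T - 5) := by ring
    rw [this]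
    have : 0 < T ^ 2 := by positivity
    apply mul_pos this
    linarith
  linarith

theorem class_thin {a b : ℤ} (ha : a ≠ 0) (hb : b ≠ 0) (hD : 4 * a ^ 3 + 27 * b ^ 2 ≠ 0) {r : ℚ}
    (hr : 4 * (a : ℚ) ^ 3 = (r + 1) ^ 3 * (r - 3) * b ^ 2) :
    ∀ N : ℤ, N ≠ 0 → ∃ p : ℕ, p.Prime ∧ ¬ (p : ℤ) ∣ N ∧ ¬ p ∣ r.den ∧
      ∃ t : ℤ, GoodQ a b p t 1 ∧ padicNorm p (H2 r t 1) < 1 := by
  intro N hN
  set m : ℤ := r.num with hm
  set n : ℤ := (r.den : ℤ) with hn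
  have hn0 : n ≠ 0 := by rw [hn]; exact_mod_cast r.den_nz
  have hn0' : (n : ℚ) ≠ 0 := by exact_mod_cast hn0
  have hrn : r * n = m := by
    rw [hn, hm]
    exact_mod_cast Rat.mul_den_eq_num r
  set k : ℤ := 2 * a * b * (4 * a ^ 3 + 27 * b ^ 2) * n * N with hk
  have hk0 : k ≠ 0 := by
    rw [hk]
    exact mul_ne_zero (mul_ne_zero (mul_ne_zero (mul_ne_zero (mul_ne_zero two_ne_zero ha) hb) hD)
      hn0) hN
  have hk2 : (2 : ℤ) ∣ k := ⟨a * b * (4 * a ^ 3 + 27 * b ^ 2) * n * N, by rw [hk]; ring⟩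
  set t : ℤ := n * k with ht
  have hHZ : (HZ m n k : ℚ) = H2 r t 1 := by
    simp only [HZ, H2, ht]
    push_cast
    rw [← hrn]
    ring
  have hGZ : (GZ m n k : ℚ) = gp r t 1 := by
    simp only [GZ, gp, ht]
    push_cast
    rw [← hrn]
    ring
  have hGZ' : (GZ m n (-k) : ℚ) = gp r (-t) 1 := by
    simp only [GZ, gp, ht]
    push_cast
    rw [← hrn]
    ring
  have hH1 : 1 < HZ m n k := by
    have h1 : (4 : ℚ) ≤ (t : ℚ) ^ 2 := by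
      obtain ⟨j, hj⟩ := hk2
      have hj0 : j ≠ 0 := by rintro rfl; exact hk0 (by rw [hj]; ring)
      have h2 : t ^ 2 = 4 * (n * j) ^ 2 := by rw [ht, hj]; ring
      have h3 : 1 ≤ (n * j) ^ 2 := by
        have : 0 < (n * j) ^ 2 := by positivity
        omega
      have h4 : 4 ≤ t ^ 2 := by rw [h2]; linarith
      exact_mod_cast h4
    have h5 := H2_lower r t h1
    rw [← hHZ] at h5
    exact_mod_cast h5
  have hne : (HZ m n k).natAbs ≠ 1 := by omega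
  obtain ⟨p, hp, hpd⟩ := Nat.exists_prime_and_dvd hne
  have hpI : Prime (p : ℤ) := Nat.prime_iff_prime_int.1 hp
  have hpH : (p : ℤ) ∣ HZ m n k := Int.natCast_dvd.2 hpd
  have hpk : ¬ (p : ℤ) ∣ k := by
    intro h
    have h1 : (p : ℤ) ∣ HZ m n k - 1 := by
      refine h.trans ⟨8 * n ^ 6 * k ^ 5 + 4 * m * n ^ 3 * k ^ 3 * ((n * k) ^ 2 + 1) +
        (m ^ 2 - 3 * n ^ 2) * k * ((n * k) ^ 2 + 1) ^ 2 +
        (n ^ 6 * k ^ 5 + 3 * n ^ 4 * k ^ 3 + 3 * n ^ 2 * k), ?_⟩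
      simp only [HZ]
      ring
    have h2 : (p : ℤ) ∣ 1 := by
      have := dvd_sub hpH h1
      rwa [sub_sub_cancel] at this
    exact hpI.not_isUnit (isUnit_of_dvd_one h2)
  have d2 : ¬ (p : ℤ) ∣ 2 := fun h => hpk (h.trans hk2)
  have da : ¬ (p : ℤ) ∣ a := fun h => hpk (h.trans ⟨2 * b * (4 * a ^ 3 + 27 * b ^ 2) * n * N, by
    rw [hk]; ring⟩)
  have db : ¬ (p : ℤ) ∣ b := fun h => hpk (h.trans ⟨2 * a * (4 * a ^ 3 + 27 * b ^ 2) * n * N, by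
    rw [hk]; ring⟩)
  have dD : ¬ (p : ℤ) ∣ 4 * a ^ 3 + 27 * b ^ 2 := fun h => hpk (h.trans ⟨2 * a * b * n * N, by
    rw [hk]; ring⟩)
  have dn : ¬ (p : ℤ) ∣ n := fun h => hpk (h.trans ⟨2 * a * b * (4 * a ^ 3 + 27 * b ^ 2) * N, by
    rw [hk]; ring⟩)
  have dN : ¬ (p : ℤ) ∣ N := fun h => hpk (h.trans ⟨2 * a * b * (4 * a ^ 3 + 27 * b ^ 2) * n, by
    rw [hk]; ring⟩)
  have hG : (p : ℤ) ∣ GG a b t 1 := by
    have h1 := thin_factor hr t 1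
    push_cast at h1
    rw [← hHZ, ← hGZ, ← hGZ'] at h1
    have h2 : GG a b t 1 = -(b ^ 2 * HZ m n k * GZ m n k * GZ m n (-k)) := by exact_mod_cast h1
    rw [h2, dvd_neg]
    exact Dvd.dvd.mul_right (Dvd.dvd.mul_right (Dvd.dvd.mul_left hpH _) _) _
  obtain ⟨s, hs, H⟩ := hensel12 hp d2 da db dD hG
  have d1 : ¬ (p : ℤ) ∣ 1 := fun h => hpI.not_isUnit (isUnit_of_dvd_one h)
  -- the polynomial at `u ≡ t`
  have hJt : JH m n t = n ^ 2 * HZ m n k := by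
    simp only [JH, HZ, ht]
    ring
  have hnorm : ∀ u : ℤ, (p : ℤ) ∣ u - t → padicNorm p (H2 r u 1) < 1 := by
    intro u hu
    have : Fact p.Prime := ⟨hp⟩
    have h1 : u ≡ t [ZMOD p] := (Int.modEq_iff_dvd.2 hu).symm
    have h2 : JH m n u ≡ JH m n t [ZMOD p] := by
      simp only [JH]
      gcongr
    have h3 : (p : ℤ) ∣ JH m n u := by
      have h4 : JH m n t ≡ 0 [ZMOD p] := by
        rw [hJt]
        exact (Int.modEq_zero_iff_dvd).2 (Dvd.dvd.mul_left hpH _)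
      exact (Int.modEq_zero_iff_dvd).1 (h2.trans h4)
    have h5 : H2 r u 1 = (JH m n u : ℚ) / (n ^ 2 : ℤ) := by
      rw [eq_div_iff (by push_cast; positivity)]
      simp only [H2, JH]
      push_cast
      rw [← hrn]
      ring
    have h6 : ¬ (p : ℤ) ∣ n ^ 2 := fun h => dn (hpI.dvd_of_dvd_pow h)
    rw [h5, padicNorm.div, norm_one h6, div_one]
    exact (padicNorm.int_lt_one_iff _).2 h3
  refine ⟨p, hp, dN, ?_, ?_⟩
  · intro h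
    exact dn (by rw [hn]; exact_mod_cast h)
  · by_cases hc : (p : ℤ) ^ 2 ∣ t - s * 1
    · refine ⟨t + p, ?_, hnorm _ ⟨1, by ring⟩⟩
      have h7 : ¬ (p : ℤ) ^ 2 ∣ (t + p) - s * 1 := by
        intro h
        have h8 : (p : ℤ) ^ 2 ∣ p := by
          have := dvd_sub h hc
          have e : t + (p : ℤ) - s * 1 - (t - s * 1) = p := by ring
          rwa [e] at this
        obtain ⟨c, hc'⟩ := h8
        have h9 : (p : ℤ) * (p * c) = p * 1 := by linear_combination -1 * hc'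
        have h10 : (p : ℤ) * c = 1 := mul_left_cancel₀ hpI.ne_zero h9
        exact d1 ⟨c, h10.symm⟩
      obtain ⟨g1, g2⟩ := H (t + p) 1 ⟨1, by ring⟩ h7 d1
      exact ⟨d2, da, db, dD, d1, g1, g2⟩
    · obtain ⟨g1, g2⟩ := H t 1 ⟨0, by ring⟩ hc d1
      exact ⟨t, ⟨d2, da, db, dD, d1, g1, g2⟩, hnorm _ ⟨0, by ring⟩⟩

end Pool.Agent.Helper6.T6
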