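import Pool.Agent.Helper6.T6.ThinDefs

/-!
# T6-14: rank in the thin case

`4a³ = (r+1)³(r-3) b²`, `GoodQ` at `p` and `p` divides the factor `H2`. Norms at `p` (`p ∤ 2ab(4a³+27b²)`):
`|r| ≤ 1` (otherwise `|(r+1)³(r-3)| = |r|⁴ > 1`, but it is `|4a³/b²| = 1`), `|r+1| = |r-3| = 1`,
`4a³+27b² = b²(r-2)²(r²+4r+6)` so `|r-2| = 1`. `thin_factor`, `|GG| = 1/p` and `|H2| ≤ 1/p`
(`Pool.Agent.Helper19.TW.small`) give `|gp r u v| = |gp r (-u) v| = 1`. Then
`A = (XA(u), m YA(u))`, `B = (XA(-u), m YA(-u))` are `p`-integral, `thin_diff` shows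
`|XA(u) - XA(-u)| = 1` (`GoodQ.nu`, `nS`, `nT`), and `Pool.Agent.Helper19.TW.rank_two` applies.
-/

namespace Pool.Agent.Helper6.T6

open Pool.Agent.Helper19.TW

/-- the rational parameter is a `p`-adic integer -/
private lemma thin_r {a b : ℤ} {p : ℕ} [hp : Fact p.Prime] (n2 : padicNorm p (2 : ℚ) = 1)
    (na : padicNorm p (a : ℚ) = 1) (nb : padicNorm p (b : ℚ) = 1) {r : ℚ}
    (hr : 4 * (a : ℚ) ^ 3 = (r + 1) ^ 3 * (r - 3) * b ^ 2) :
    padicNorm p r ≤ 1 ∧ padicNorm p (r + 1) = 1 := by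
  have n1 : padicNorm p (1 : ℚ) = 1 := padicNorm.one
  have n3 : padicNorm p (3 : ℚ) ≤ 1 := by exact_mod_cast nint (p := p) 3
  have e : padicNorm p (r + 1) ^ 3 * padicNorm p (r - 3) = 1 := by
    have h1 : padicNorm p (4 * (a : ℚ) ^ 3) = 1 := by
      have : 4 * (a : ℚ) ^ 3 = 2 * 2 * (a * a * a) := by ring
      rw [this]
      simp only [padicNorm.mul, n2, na, mul_one]
    rw [hr] at h1
    have h2 : (r + 1) ^ 3 * (r - 3) * (b : ℚ) ^ 2 =
        (r + 1) * (r + 1) * (r + 1) * (r - 3) * (b * b) := by ring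
    rw [h2] at h1
    simp only [padicNorm.mul, nb, mul_one] at h1
    linear_combination h1
  have hr1 : padicNorm p r ≤ 1 := by
    by_contra hc
    push Not at hc
    have e1 : padicNorm p (r + 1) = padicNorm p r := by
      rw [padicNorm.add_eq_max_of_ne (by rw [n1]; exact hc.ne'), n1, max_eq_left hc.le]
    have e2 : padicNorm p (r - 3) = padicNorm p r := by
      rw [sub_eq_add_neg, padicNorm.add_eq_max_of_ne (by rw [padicNorm.neg]; exact (n3.trans_lt hc).ne'),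
        padicNorm.neg, max_eq_left (n3.trans hc.le)]
    rw [e1, e2] at e
    have : (1 : ℚ) < padicNorm p r ^ 3 * padicNorm p r := by
      have h3 : (1 : ℚ) < padicNorm p r ^ 3 := one_lt_pow₀ hc (by norm_num)
      nlinarith
    linarith
  refine ⟨hr1, ?_⟩
  have h1 : padicNorm p (r + 1) ≤ 1 := nadd_le hr1 n1.le
  have h2 : padicNorm p (r - 3) ≤ 1 := nsub_le hr1 n3
  refine le_antisymm h1 ?_
  by_contra hc
  push Not at hc
  have h0 := padicNorm.nonneg (p := p) (r + 1)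
  have h0' := padicNorm.nonneg (p := p) (r - 3)
  have h3 : padicNorm p (r + 1) ^ 3 < 1 := pow_lt_one₀ h0 hc (by norm_num)
  have h4 : 0 ≤ padicNorm p (r + 1) ^ 3 := by positivity
  nlinarith

/-- the third unit -/
private lemma thin_r2 {a b : ℤ} {p : ℕ} [hp : Fact p.Prime]
    (nD : padicNorm p ((4 * a ^ 3 + 27 * b ^ 2 : ℤ) : ℚ) = 1)
    {r : ℚ} (hr : 4 * (a : ℚ) ^ 3 = (r + 1) ^ 3 * (r - 3) * b ^ 2) (hr1 : padicNorm p r ≤ 1) :
    padicNorm p (r - 2) = 1 := by
  have n2 : padicNorm p (2 : ℚ) ≤ 1 := by exact_mod_cast nint (p := p) 2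
  have n4 : padicNorm p (4 : ℚ) ≤ 1 := by exact_mod_cast nint (p := p) 4
  have n6 : padicNorm p (6 : ℚ) ≤ 1 := by exact_mod_cast nint (p := p) 6
  have h2 : padicNorm p (r - 2) ≤ 1 := nsub_le hr1 n2
  have e : ((4 * a ^ 3 + 27 * b ^ 2 : ℤ) : ℚ) =
      (r - 2) * ((r - 2) * (b * (b * (r * r + 4 * r + 6)))) := by
    push_cast
    rw [hr]; ring
  have h3 : padicNorm p ((r - 2) * (b * (b * (r * r + 4 * r + 6)))) ≤ 1 :=
    nmul_le h2 (nmul_le (nint b) (nmul_le (nint b)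
      (nadd_le (nadd_le (nmul_le hr1 hr1) (nmul_le n4 hr1)) n6)))
  refine le_antisymm h2 ?_
  by_contra hc
  push Not at hc
  have := nmul_lt hc h3
  rw [← e, nD] at this
  exact lt_irrefl _ this

/-- the cubic forms are `p`-integral -/
private lemma gp_le {p : ℕ} [hp : Fact p.Prime] {r s v : ℚ} (hr : padicNorm p r ≤ 1)
    (hs : padicNorm p s ≤ 1) (hv : padicNorm p v ≤ 1) : padicNorm p (gp r s v) ≤ 1 := by
  have n2 : padicNorm p (2 : ℚ) ≤ 1 := by exact_mod_cast nint (p := p) 2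
  have n3 : padicNorm p (3 : ℚ) ≤ 1 := by exact_mod_cast nint (p := p) 3
  have e : gp r s v = (r - 2) * (s * (s * s)) + 3 * (s * (s * v)) + r * (s * (v * v)) +
      v * (v * v) := by simp only [gp]; ring
  rw [e]
  refine nadd_le (nadd_le (nadd_le ?_ ?_) ?_) ?_
  · exact nmul_le (nsub_le hr n2) (nmul_le hs (nmul_le hs hs))
  · exact nmul_le n3 (nmul_le hs (nmul_le hs hv))
  · exact nmul_le hr (nmul_le hs (nmul_le hv hv))
  · exact nmul_le hv (nmul_le hv hv)

/-- the first coordinates are `p`-integral -/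
private lemma XA_le {a b : ℤ} {p : ℕ} [hp : Fact p.Prime] (n2 : padicNorm p (2 : ℚ) = 1)
    (na : padicNorm p (a : ℚ) = 1) {r s v : ℚ} (hr : padicNorm p r ≤ 1)
    (hs : padicNorm p s ≤ 1) (hv : padicNorm p v ≤ 1) (hg : padicNorm p (gp r s v) = 1) :
    padicNorm p (XA a b r s v) ≤ 1 := by
  have n1 : padicNorm p (1 : ℚ) ≤ 1 := padicNorm.one.le
  have n3 : padicNorm p (3 : ℚ) ≤ 1 := by exact_mod_cast nint (p := p) 3
  have n4 : padicNorm p (4 : ℚ) ≤ 1 := by exact_mod_cast nint (p := p) 4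
  have e : XA a b r s v = (b * ((r + 1) * ((r + 3) * ((r - 2) * (s * (s * s))) -
      3 * ((r - 1) * (s * (s * v))) + (r * r - r - 4) * (s * (v * v)) -
      (r - 1) * (v * (v * v))))) / (2 * a * gp r s v) := by
    simp only [XA]; congr 1; ring
  rw [e, padicNorm.div, padicNorm.mul (2 * (a : ℚ)), padicNorm.mul (2 : ℚ), n2, na, hg, mul_one,
    mul_one, div_one]
  refine nmul_le (nint b) (nmul_le (nadd_le hr n1) (nsub_le (nadd_le (nsub_le ?_ ?_) ?_) ?_))
  · exact nmul_le (nadd_le hr n3) (nmul_le (nsub_le hr n2.le) (nmul_le hs (nmul_le hs hs)))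
  · exact nmul_le n3 (nmul_le (nsub_le hr n1) (nmul_le hs (nmul_le hs hv)))
  · exact nmul_le (nsub_le (nsub_le (nmul_le hr hr) hr) n4) (nmul_le hs (nmul_le hv hv))
  · exact nmul_le (nsub_le hr n1) (nmul_le hv (nmul_le hv hv))

/-- the second coordinates are `p`-integral -/
private lemma YA_le {a : ℤ} {p : ℕ} [hp : Fact p.Prime] (n2 : padicNorm p (2 : ℚ) = 1)
    (na : padicNorm p (a : ℚ) = 1) {r s v : ℚ} (hr : padicNorm p r ≤ 1)
    (hg : padicNorm p (gp r s v) = 1) : padicNorm p (YA a r s v) ≤ 1 := by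
  have n1 : padicNorm p (1 : ℚ) ≤ 1 := padicNorm.one.le
  have e : YA a r s v = ((r + 1) * ((r + 1) * (r - 2))) /
      (2 * (a * a) * (gp r s v * gp r s v)) := by
    simp only [YA]; congr 1 <;> ring
  rw [e, padicNorm.div, padicNorm.mul (2 * ((a : ℚ) * a)), padicNorm.mul (2 : ℚ),
    padicNorm.mul (a : ℚ), padicNorm.mul (gp r s v), n2, na, hg]
  simp only [mul_one, div_one]
  exact nmul_le (nadd_le hr n1) (nmul_le (nadd_le hr n1) (nsub_le hr n2.le))

theorem rank_thin {a b : ℤ} {p : ℕ} [hp : Fact p.Prime] {u v : ℤ} (h : GoodQ a b p u v)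
    (hroot : ∀ r : ℚ, r ^ 3 + a * r + b ≠ 0) {r : ℚ}
    (hr : 4 * (a : ℚ) ^ 3 = (r + 1) ^ 3 * (r - 3) * b ^ 2)
    (hH : padicNorm p (H2 r u v) < 1) {d : ℤ} {m : ℚ}
    (hm : (F12 a b u v : ℚ) = d * m ^ 2) (hN : padicNorm p m = 1) :
    ∃ P Q : (tw a b d).toAffine.Point, LinearIndependent ℤ ![P, Q] := by
  have hpp := hp.out
  have ne0 {z : ℤ} (hz : ¬ (p : ℤ) ∣ z) : z ≠ 0 := by rintro rfl; exact hz (dvd_zero _)
  have ha0 := ne0 h.ha
  have hp0 : (0 : ℚ) < p := by exact_mod_cast hpp.pos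
  have hinv0 : (0 : ℚ) < (p : ℚ)⁻¹ := inv_pos.2 hp0
  have n2 : padicNorm p (2 : ℚ) = 1 := by
    have := norm_one h.two
    exact_mod_cast this
  have na := norm_one h.ha
  have nb := norm_one h.hb
  have nu := norm_one (h.nu hpp)
  have nv := norm_one h.hv
  have nS : padicNorm p ((u : ℚ) ^ 2 + v ^ 2) = 1 := by
    have := norm_one (h.nS hpp)
    push_cast at this
    exact this
  have nT : padicNorm p (3 * (u : ℚ) ^ 2 + v ^ 2) = 1 := by
    have := norm_one (h.nT hpp)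
    push_cast at this
    exact this
  have nD := norm_one h.hD
  obtain ⟨hr1, hr2⟩ := thin_r n2 na nb hr
  have hr3 := thin_r2 nD hr hr1
  have nu' : padicNorm p (-(u : ℚ)) = 1 := by rw [padicNorm.neg]; exact nu
  have g1 : padicNorm p (gp r u v) ≤ 1 := gp_le hr1 nu.le nv.le
  have g2 : padicNorm p (gp r (-u) v) ≤ 1 := gp_le hr1 nu'.le nv.le
  have nG : padicNorm p (GG a b u v : ℚ) = (p : ℚ)⁻¹ := by
    have := h.norm_F
    simp only [F12] at this
    push_cast at this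
    rw [padicNorm.mul, padicNorm.mul, na, nb, one_mul, one_mul] at this
    exact this
  have hprod : padicNorm p (H2 r u v) * (padicNorm p (gp r u v) * padicNorm p (gp r (-u) v)) =
      (p : ℚ)⁻¹ := by
    rw [thin_factor hr, padicNorm.neg, pow_two] at nG
    simp only [padicNorm.mul, nb, one_mul] at nG
    rw [← nG]; ring
  have hHs := small hH
  have hgg : 1 ≤ padicNorm p (gp r u v) * padicNorm p (gp r (-u) v) := by
    by_contra hc
    push Not at hc
    have h0 : 0 ≤ padicNorm p (gp r u v) * padicNorm p (gp r (-u) v) :=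
      mul_nonneg (padicNorm.nonneg _) (padicNorm.nonneg _)
    have h1 : padicNorm p (H2 r u v) * (padicNorm p (gp r u v) * padicNorm p (gp r (-u) v)) ≤
        (p : ℚ)⁻¹ * (padicNorm p (gp r u v) * padicNorm p (gp r (-u) v)) :=
      mul_le_mul_of_nonneg_right hHs h0
    rw [hprod] at h1
    nlinarith
  have g1n := padicNorm.nonneg (p := p) (gp r u v)
  have g2n := padicNorm.nonneg (p := p) (gp r (-u) v)
  have G1 : padicNorm p (gp r u v) = 1 := le_antisymm g1 (by nlinarith)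
  have G2 : padicNorm p (gp r (-u) v) = 1 := le_antisymm g2 (by nlinarith)
  have G10 : gp r u v ≠ 0 := by
    intro h0
    rw [h0, padicNorm.zero] at G1
    exact zero_ne_one G1
  have G20 : gp r (-u) v ≠ 0 := by
    intro h0
    rw [h0, padicNorm.zero] at G2
    exact zero_ne_one G2
  have hd : padicNorm p (d : ℚ) = (p : ℚ)⁻¹ := by
    have := h.norm_F
    rw [hm, padicNorm.mul, pow_two, padicNorm.mul, hN] at this
    simpa using this
  have e1 := thin_point (a := a) (b := b) ha0 hr u v (u : ℚ) (Or.inl rfl) G10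
  have e2 := thin_point (a := a) (b := b) ha0 hr u v (-(u : ℚ)) (Or.inr rfl) G20
  rw [hm] at e1 e2
  have hXX : padicNorm p (XA a b r u v - XA a b r (-u) v) = 1 := by
    rw [thin_diff ha0 u v G10 G20]
    have e : 2 * (b : ℚ) * (r + 1) ^ 2 * (r - 2) * u * v * (u ^ 2 + v ^ 2) * (3 * u ^ 2 + v ^ 2) =
        2 * (b * ((r + 1) * ((r + 1) * ((r - 2) * (u * (v *
          (((u : ℚ) ^ 2 + v ^ 2) * (3 * (u : ℚ) ^ 2 + v ^ 2)))))))) := by ring
    rw [e, padicNorm.div, padicNorm.mul 2, padicNorm.mul (b : ℚ), padicNorm.mul (r + 1),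
      padicNorm.mul (r + 1), padicNorm.mul (r - 2), padicNorm.mul (u : ℚ), padicNorm.mul (v : ℚ),
      padicNorm.mul ((u : ℚ) ^ 2 + v ^ 2), padicNorm.mul (a : ℚ), padicNorm.mul (gp r u v),
      n2, nb, hr2, hr3, nu, nv, nS, nT, na, G1, G2]
    norm_num
  refine rank_two (x₁ := XA a b r u v) (x₂ := XA a b r (-u) v) (y₁ := m * YA a r u v)
    (y₂ := m * YA a r (-u) v) hd nD hroot (by rw [← e1]; ring) (by rw [← e2]; ring)
    (XA_le n2 na hr1 nu.le nv.le G1) (XA_le n2 na hr1 nu'.le nv.le G2) ?_ ?_ hXX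
  · exact nmul_le hN.le (YA_le n2 na hr1 G1)
  · exact nmul_le hN.le (YA_le n2 na hr1 G2)

end Pool.Agent.Helper6.T6
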