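import Pool.Agent.Helper6.T6.CountP
import Pool.Agent.Helper6.T6.Cls
import Pool.Agent.Helper6.T6.Rank
import Pool.Agent.Helper6.T6.ThinRank
import Pool.Agent.Helper6.T6.ThinCls

/-!
# T6: the count for all curves (generic case and thin case)
-/

namespace Pool.Agent.Helper6.T6

open Pool.Agent.Helper19.TW

theorem prov_generic {a b : ℤ} (ha : a ≠ 0) (hb : b ≠ 0) (hroot : ∀ r : ℚ, r ^ 3 + a * r + b ≠ 0)
    (hthin : ∀ r : ℚ, 4 * (a : ℚ) ^ 3 ≠ (r + 1) ^ 3 * (r - 3) * b ^ 2) : Prov a b := by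
  intro N hN
  obtain ⟨p, hp, hpN, t, hG⟩ := class12 ha hb (disc_neP ha hroot) N hN
  have : Fact p.Prime := ⟨hp⟩
  exact ⟨p, hp, hpN, t, hG, fun u v d m hu hv hm hn =>
    rank12 (hG.transfer hu hv) hroot hthin hm hn⟩

/-- congruence of `H2` modulo `p` -/
theorem H2_transfer {p : ℕ} [hp : Fact p.Prime] {r : ℚ} (hr : padicNorm p r ≤ 1) {u v u' v' : ℤ}
    (hu : u' ≡ u [ZMOD (p : ℤ) ^ 2]) (hv : v' ≡ v [ZMOD (p : ℤ) ^ 2])
    (h : padicNorm p (H2 r u v) < 1) : padicNorm p (H2 r u' v') < 1 := by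
  have hpp : (p : ℤ) ∣ (p : ℤ) ^ 2 := dvd_pow_self _ two_ne_zero
  have hu1 : u' ≡ u [ZMOD (p : ℤ)] := hu.of_dvd hpp
  have hv1 : v' ≡ v [ZMOD (p : ℤ)] := hv.of_dvd hpp
  have key : ∀ i j : ℕ, padicNorm p ((u' ^ i * v' ^ j - u ^ i * v ^ j : ℤ) : ℚ) < 1 := by
    intro i j
    rw [padicNorm.int_lt_one_iff]
    exact ((hu1.pow i).mul (hv1.pow j)).symm.dvd
  have n (z : ℤ) : padicNorm p (z : ℚ) ≤ 1 := nint z
  have hr2 : padicNorm p (r ^ 2) ≤ 1 := by rw [pow_two]; exact nmul_le hr hr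
  have c1 : padicNorm p (r ^ 2 + 4 * r + 6) ≤ 1 :=
    nadd_le (nadd_le hr2 (nmul_le (by exact_mod_cast n 4) hr)) (by exact_mod_cast n 6)
  have c2 : padicNorm p (2 * r ^ 2 + 4 * r - 3) ≤ 1 :=
    nsub_le (nadd_le (nmul_le (by exact_mod_cast n 2) hr2) (nmul_le (by exact_mod_cast n 4) hr))
      (by exact_mod_cast n 3)
  have e : H2 r u' v' = H2 r u v +
      (((u' ^ 6 * v' ^ 0 - u ^ 6 * v ^ 0 : ℤ) : ℚ) * (r ^ 2 + 4 * r + 6) +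
      ((u' ^ 4 * v' ^ 2 - u ^ 4 * v ^ 2 : ℤ) : ℚ) * (2 * r ^ 2 + 4 * r - 3) +
      ((u' ^ 2 * v' ^ 4 - u ^ 2 * v ^ 4 : ℤ) : ℚ) * r ^ 2 +
      ((u' ^ 0 * v' ^ 6 - u ^ 0 * v ^ 6 : ℤ) : ℚ)) := by
    simp only [H2]
    push_cast
    ring
  rw [e]
  exact nadd_lt h (nadd_lt (nadd_lt (nadd_lt (nmul_lt (key 6 0) c1) (nmul_lt (key 4 2) c2))
    (nmul_lt (key 2 4) hr2)) (key 0 6))

theorem prov_thin {a b : ℤ} (ha : a ≠ 0) (hb : b ≠ 0) (hroot : ∀ r : ℚ, r ^ 3 + a * r + b ≠ 0)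
    {r : ℚ} (hr : 4 * (a : ℚ) ^ 3 = (r + 1) ^ 3 * (r - 3) * b ^ 2) : Prov a b := by
  intro N hN
  obtain ⟨p, hp, hpN, hpr, t, hG, hH⟩ := class_thin ha hb (disc_neP ha hroot) hr N hN
  have : Fact p.Prime := ⟨hp⟩
  have hr1 : padicNorm p r ≤ 1 := by
    have h1 : ¬ (p : ℤ) ∣ (r.den : ℤ) := by
      intro h2
      exact hpr (by exact_mod_cast h2)
    rw [← Rat.num_div_den r, padicNorm.div]
    have h3 : padicNorm p ((r.den : ℕ) : ℚ) = 1 := by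
      have := norm_one (p := p) h1
      exact_mod_cast this
    rw [h3, div_one]
    exact nint _
  exact ⟨p, hp, hpN, t, hG, fun u v d m hu hv hm hn =>
    rank_thin (hG.transfer hu hv) hroot hr
      (H2_transfer hr1 hu hv (by simpa using hH)) hm hn⟩

theorem main12_all {a b : ℤ} (ha : a ≠ 0) (hb : b ≠ 0) (hroot : ∀ r : ℚ, r ^ 3 + a * r + b ≠ 0)
    {M : ℕ} (hM : 1 ≤ M) {w : ℤ → ℤ} (hw : RootLike M w)
    (h : ∃ u v : ℤ, F12 a b u v ≠ 0 ∧ w (F12 a b u v) = 1) (ε : ℝ) (hε : 0 < ε) :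
    ∃ D₀ : ℝ, ∀ D : ℝ, D₀ ≤ D → D ^ (1 / 6 - ε : ℝ) ≤
      (Set.ncard {d : ℤ | |(d : ℝ)| ≤ D ∧ IsFund d ∧ w d = 1 ∧
          2 ≤ Module.rank ℤ (tw a b d).toAffine.Point} : ℝ) := by
  have hP : Prov a b := by
    by_cases hthin : ∀ r : ℚ, 4 * (a : ℚ) ^ 3 ≠ (r + 1) ^ 3 * (r - 3) * b ^ 2
    · exact prov_generic ha hb hroot hthin
    · push Not at hthin
      obtain ⟨r, hr⟩ := hthin
      exact prov_thin ha hb hroot hr
  exact main12_prov ha hb hroot hP hM hw h ε hε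

end Pool.Agent.Helper6.T6
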