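import Pool.Agent.Helper6.T6.Defs

/-!
# T6-12: multiplicative reduction at a prime `q ≥ 5`, `q ≠ 11`: the sign `1` occurs

Here `4a³+27b² < 0` (three real roots), `G(u,v) < 0` for all `(u,v) ≠ (0,0)`. Modulo `q`
(`4a³ ≡ -27b²`): `G(u,v) ≡ -b² v² (2u²+v²)(9u⁴+2u²v²+v⁴)²`. Take `t` with `2t²+1` not a square and
`9t⁴+2t²+1 ≠ 0` modulo `q` (`exists_t12`), and `u = 8 M b² u'`, `v = 1` with `u ≡ t (mod q)`.
`G(u,1) = -b² e`, `e ≡ 1 (mod 8M)`, `e > 0`, `(e/q) = -1`. So `w(F(u,v)) = -w(F(0,1))`.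
`exists_t12`: `q = 5, 7, 13` by `decide`; for `q ≥ 17`: if `2t²+1` were a square for all `t` outside
the (at most 4) roots of `9t⁴+2t²+1`, the conic `y² = 2t²+1` would have at least `2(q - 7)`
points with `t ≠ 0`, but it has at most `q - 1` (`(t,y) ↦ (y-1)/t` is injective on the points
with `t ≠ 0`).
-/

namespace Pool.Agent.Helper6.T6

private lemma poly_card (q : ℕ) [Fact q.Prime] :
    (Finset.univ.filter (fun t : ZMod q => t * (9 * t ^ 4 + 2 * t ^ 2 + 1) * (2 * t ^ 2 + 1) = 0)).card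
      ≤ 7 := by
  classical
  open Polynomial in
  set P : (ZMod q)[X] := X * (C 9 * X ^ 4 + C 2 * X ^ 2 + C 1) * (C 2 * X ^ 2 + C 1) with hP
  have h1 : (Polynomial.C (9 : ZMod q) * Polynomial.X ^ 4 + Polynomial.C 2 * Polynomial.X ^ 2
      + Polynomial.C 1) ≠ 0 := by
    intro h
    have := congrArg (Polynomial.eval 0) h
    simp at this
  have h2 : (Polynomial.C (2 : ZMod q) * Polynomial.X ^ 2 + Polynomial.C 1) ≠ 0 := by
    intro h
    have := congrArg (Polynomial.eval 0) h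
    simp at this
  have hP0 : P ≠ 0 := mul_ne_zero (mul_ne_zero Polynomial.X_ne_zero h1) h2
  have hdeg : P.natDegree ≤ 7 := by
    rw [hP]
    compute_degree
  calc _ ≤ P.roots.toFinset.card := by
        apply Finset.card_le_card
        intro t ht
        rw [Multiset.mem_toFinset, Polynomial.mem_roots hP0, Polynomial.IsRoot.def, hP]
        simp only [Finset.mem_filter, Finset.mem_univ, true_and] at ht
        simpa using ht
    _ ≤ P.roots.card := Multiset.toFinset_card_le _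
    _ ≤ P.natDegree := Polynomial.card_roots' P
    _ ≤ 7 := hdeg

theorem exists_t12 (q : ℕ) (hq : q.Prime) (h5 : 5 ≤ q) (h11 : q ≠ 11) :
    ∃ t : ZMod q, ¬ IsSquare (2 * t ^ 2 + 1) ∧ 9 * t ^ 4 + 2 * t ^ 2 + 1 ≠ 0 := by
  have hcase : q = 5 ∨ q = 7 ∨ q = 13 ∨ 17 ≤ q := by
    by_contra hcon
    push Not at hcon
    obtain ⟨h1, h2, h3, h4⟩ := hcon
    interval_cases q <;> first | omega | (exact absurd hq (by norm_num))
  rcases hcase with rfl | rfl | rfl | h17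
  · exact ⟨1, by decide⟩
  · exact ⟨1, by decide⟩
  · exact ⟨3, by decide⟩
  · classical
    have hfact : Fact q.Prime := ⟨hq⟩
    by_contra hcon
    push Not at hcon
    have two0 : (2 : ZMod q) ≠ 0 := by
      have h : ((2 : ℕ) : ZMod q) ≠ 0 := by
        intro h
        rw [ZMod.natCast_eq_zero_iff] at h
        exact absurd (Nat.le_of_dvd (by norm_num) h) (by omega)
      exact_mod_cast h
    set Z := Finset.univ.filter
      (fun t : ZMod q => t * (9 * t ^ 4 + 2 * t ^ 2 + 1) * (2 * t ^ 2 + 1) = 0) with hZ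
    set S := Zᶜ with hS
    have hcard : q - 7 ≤ S.card := by
      rw [hS, Finset.card_compl, ZMod.card]
      have := poly_card q
      rw [← hZ] at this
      omega
    have hmem : ∀ t ∈ S, t ≠ 0 ∧ 2 * t ^ 2 + 1 ≠ 0 ∧ IsSquare (2 * t ^ 2 + 1) := by
      intro t ht
      rw [hS, Finset.mem_compl, hZ, Finset.mem_filter] at ht
      simp only [Finset.mem_univ, true_and, mul_eq_zero, not_or] at ht
      refine ⟨ht.1.1, ht.2, ?_⟩
      by_contra hns
      exact ht.1.2 (hcon t hns)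
    have hy : ∀ t : ZMod q, ∃ y : ZMod q, t ∈ S → y ^ 2 = 2 * t ^ 2 + 1 := by
      intro t
      by_cases ht : t ∈ S
      · obtain ⟨y, hy⟩ := (hmem t ht).2.2
        exact ⟨y, fun _ => by rw [sq, hy]⟩
      · exact ⟨0, fun h => absurd h ht⟩
    choose y hy using hy
    let sg : Bool → ZMod q := fun b => if b then 1 else -1
    have hsg : ∀ b, sg b ^ 2 = 1 := by
      intro b; cases b <;> simp [sg]
    let g : ZMod q × Bool → ZMod q := fun p => (sg p.2 * y p.1 - 1) / p.1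
    have hle : (S ×ˢ (Finset.univ : Finset Bool)).card ≤ (Finset.univ.erase (0 : ZMod q)).card := by
      have hkey : ∀ p ∈ S ×ˢ (Finset.univ : Finset Bool), p.1 * (2 - g p ^ 2) = 2 * g p ∧
          sg p.2 * y p.1 = 1 + g p * p.1 ∧ g p ≠ 0 := by
        intro p hp
        have hpS : p.1 ∈ S := (Finset.mem_product.1 hp).1
        obtain ⟨hp0, hp1, -⟩ := hmem p.1 hpS
        have e1 : g p * p.1 = sg p.2 * y p.1 - 1 := by
          simp only [g]
          field_simp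
        have e2 : (sg p.2 * y p.1) ^ 2 = 2 * p.1 ^ 2 + 1 := by
          rw [mul_pow, hsg, one_mul, hy p.1 hpS]
        have e3 : sg p.2 * y p.1 = 1 + g p * p.1 := by
          rw [e1]; ring
        refine ⟨?_, e3, ?_⟩
        · apply mul_left_cancel₀ hp0
          rw [e3] at e2
          linear_combination -e2
        · intro h0
          rw [h0, zero_mul, add_zero] at e3
          rw [e3] at e2
          have : (2 : ZMod q) * p.1 ^ 2 = 0 := by linear_combination -e2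
          exact (mul_ne_zero two0 (pow_ne_zero 2 hp0)) this
      apply Finset.card_le_card_of_injOn g
      · intro p hp
        simp only [Finset.coe_erase, Finset.coe_univ, Set.mem_diff, Set.mem_univ,
          Set.mem_singleton_iff, true_and]
        exact (hkey p hp).2.2
      · intro p hp p' hp' hgg
        obtain ⟨a1, a2, a3⟩ := hkey p hp
        obtain ⟨b1, b2, b3⟩ := hkey p' hp'
        rw [← hgg] at b1 b2
        have hne : 2 - g p ^ 2 ≠ 0 := by
          intro h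
          rw [h, mul_zero] at a1
          exact (mul_ne_zero two0 a3) a1.symm
        have ht : p.1 = p'.1 := mul_right_cancel₀ hne (a1.trans b1.symm)
        have hpS : p.1 ∈ S := (Finset.mem_product.1 hp).1
        obtain ⟨hp0, hp1, -⟩ := hmem p.1 hpS
        have hy0 : y p.1 ≠ 0 := by
          intro h
          have := hy p.1 hpS
          rw [h] at this
          apply hp1
          rw [← this]
          ring
        have hs : sg p.2 = sg p'.2 := by
          apply mul_right_cancel₀ hy0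
          rw [a2]
          conv_rhs => rw [ht, b2, ← ht]
        have h1m : (1 : ZMod q) ≠ -1 := by
          intro h
          apply two0
          linear_combination h
        have hb : p.2 = p'.2 := by
          cases h1 : p.2 <;> cases h2 : p'.2 <;> simp [sg, h1, h2] at hs ⊢
          · exact h1m hs.symm
          · exact h1m hs
        exact Prod.ext ht hb
    rw [Finset.card_product, Finset.card_erase_of_mem (Finset.mem_univ _), Finset.card_univ,
      Finset.card_univ, ZMod.card, Fintype.card_bool] at hle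
    omega

theorem flip12 {a b : ℤ} {q M : ℕ} (hq : q.Prime) (h5 : 5 ≤ q) (h11 : q ≠ 11) (hM : 1 ≤ M)
    (hqM : ¬ q ∣ M) (ha : ¬ (q : ℤ) ∣ a) (hb : b ≠ 0) (hD : (q : ℤ) ∣ 4 * a ^ 3 + 27 * b ^ 2)
    (hneg : 4 * a ^ 3 + 27 * b ^ 2 < 0) {w : ℤ → ℤ} (hpm : ∀ d, d ≠ 0 → w d = 1 ∨ w d = -1)
    (hwq : ∀ d e : ℤ, ¬ (q : ℤ) ∣ d → ¬ (q : ℤ) ∣ e → (8 * M : ℤ) ∣ e - 1 →
      w (d * e) = e.sign * jacobiSym e q * w d) :
    ∃ u v : ℤ, F12 a b u v ≠ 0 ∧ w (F12 a b u v) = 1 := by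
  have hfact : Fact q.Prime := ⟨hq⟩
  have hqI : Prime (q : ℤ) := Nat.prime_iff_prime_int.1 hq
  have ha0 : a ≠ 0 := by
    rintro rfl
    exact ha (dvd_zero _)
  have hsmall : ∀ n : ℤ, 0 < n → n < 5 → ¬ (q : ℤ) ∣ n := by
    intro n h1 h2 h3
    have := Int.le_of_dvd h1 h3
    omega
  have hqb : ¬ (q : ℤ) ∣ b := by
    intro h
    have h1 : (q : ℤ) ∣ 4 * a ^ 3 := by
      have h2 : (q : ℤ) ∣ 27 * b ^ 2 := Dvd.dvd.mul_left (dvd_pow h two_ne_zero) _
      have h3 := dvd_sub hD h2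
      rwa [add_sub_cancel_right] at h3
    rcases hqI.dvd_or_dvd h1 with h2 | h2
    · exact hsmall 4 (by norm_num) (by norm_num) h2
    · exact ha (hqI.dvd_of_dvd_pow h2)
  have hF0 : F12 a b 0 1 = -(a * b) * b ^ 2 := by
    simp only [F12, GG]; ring
  set d0 : ℤ := F12 a b 0 1 with hd0
  have hd0n : d0 ≠ 0 := by
    rw [hF0]
    exact mul_ne_zero (neg_ne_zero.2 (mul_ne_zero ha0 hb)) (pow_ne_zero 2 hb)
  have hqd0 : ¬ (q : ℤ) ∣ d0 := by
    rw [hF0]
    intro h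
    rcases hqI.dvd_or_dvd h with h1 | h1
    · rcases hqI.dvd_or_dvd ((dvd_neg).1 h1) with h2 | h2
      · exact ha h2
      · exact hqb h2
    · exact hqb (hqI.dvd_of_dvd_pow h1)
  rcases hpm d0 hd0n with h1 | hw0
  · exact ⟨0, 1, hd0n, h1⟩
  obtain ⟨t, ht1, ht2⟩ := exists_t12 q hq h5 h11
  -- the point
  have hbq : (b : ZMod q) ≠ 0 := by
    rw [Ne, ZMod.intCast_zmod_eq_zero_iff_dvd]
    exact hqb
  have h8q : (8 : ZMod q) ≠ 0 := by
    have : ((8 : ℤ) : ZMod q) ≠ 0 := by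
      rw [Ne, ZMod.intCast_zmod_eq_zero_iff_dvd]
      intro h
      have h2 : (q : ℤ) ∣ 2 ^ 3 := by simpa using h
      exact hsmall 2 (by norm_num) (by norm_num) (hqI.dvd_of_dvd_pow h2)
    exact_mod_cast this
  have hMq : (M : ZMod q) ≠ 0 := by
    rw [Ne, ZMod.natCast_eq_zero_iff]
    exact hqM
  have hcoef : (8 : ZMod q) * M * b ^ 2 ≠ 0 := mul_ne_zero (mul_ne_zero h8q hMq) (pow_ne_zero 2 hbq)
  set n : ℤ := ((((8 : ZMod q) * M * b ^ 2)⁻¹ * t).val : ℤ) with hn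
  have hnq : (n : ZMod q) = ((8 : ZMod q) * M * b ^ 2)⁻¹ * t := by
    rw [hn, Int.cast_natCast, ZMod.natCast_zmod_val]
  set u : ℤ := 8 * M * b ^ 2 * n with hu
  have huq : (u : ZMod q) = t := by
    rw [hu]
    push_cast
    rw [hnq, mul_inv_cancel_left₀ hcoef]
  have ht0 : t ≠ 0 := by
    rintro rfl
    apply ht1
    exact ⟨1, by norm_num⟩
  have hu0 : u ≠ 0 := by
    intro h
    apply ht0
    rw [← huq, h]
    norm_num
  set z : ℤ := 8 * M * (512 * (M : ℤ) ^ 3 * b ^ 6 * n ^ 4) with hz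
  have hu4 : u ^ 4 = b ^ 2 * z := by
    rw [hu, hz]; ring
  clear_value z u
  set e : ℤ := (3 * u ^ 2 + 1) ^ 3 * (1 - u ^ 2) ^ 3 - 4 * a ^ 3 * z * (u ^ 2 + 1) ^ 4 with he
  have hGe : GG a b u 1 = -(b ^ 2 * e) := by
    simp only [GG, he]
    rw [hu4]; ring
  have hFe : F12 a b u 1 = d0 * e := by
    rw [hF0]
    simp only [F12]
    rw [hGe]; ring
  -- positivity
  have hGneg : GG a b u 1 < 0 := by
    have h1 : GG a b u 1 = (4 * a ^ 3 + 27 * b ^ 2) * (u ^ 2 * (u ^ 2 + 1) ^ 2) ^ 2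
        - b ^ 2 * ((2 * u ^ 2 + 1) * (9 * u ^ 4 + 2 * u ^ 2 + 1) ^ 2) := by
      simp only [GG]; ring
    have h2 : 0 < (u ^ 2 * (u ^ 2 + 1) ^ 2) ^ 2 := by
      have : 0 < u ^ 2 := by positivity
      positivity
    have h3 : 0 ≤ b ^ 2 * ((2 * u ^ 2 + 1) * (9 * u ^ 4 + 2 * u ^ 2 + 1) ^ 2) := by positivity
    have h4 : (4 * a ^ 3 + 27 * b ^ 2) * (u ^ 2 * (u ^ 2 + 1) ^ 2) ^ 2 < 0 :=
      mul_neg_of_neg_of_pos hneg h2
    linarith
  have hepos : 0 < e := by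
    rw [hGe] at hGneg
    have hb2 : 0 < b ^ 2 := by positivity
    have : 0 < b ^ 2 * e := by linarith
    exact (mul_pos_iff_of_pos_left hb2).1 this
  -- congruence modulo 8M
  have hdvd : (8 * M : ℤ) ∣ e - 1 := by
    have hu8 : u ≡ 0 [ZMOD (8 * M : ℤ)] := by
      rw [Int.modEq_zero_iff_dvd]; exact ⟨b ^ 2 * n, by rw [hu]; ring⟩
    have hz8 : z ≡ 0 [ZMOD (8 * M : ℤ)] := by
      rw [Int.modEq_zero_iff_dvd]; exact ⟨_, hz⟩
    have : e ≡ 1 [ZMOD (8 * M : ℤ)] := by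
      rw [he]
      calc (3 * u ^ 2 + 1) ^ 3 * (1 - u ^ 2) ^ 3 - 4 * a ^ 3 * z * (u ^ 2 + 1) ^ 4
          ≡ (3 * 0 ^ 2 + 1) ^ 3 * (1 - 0 ^ 2) ^ 3 - 4 * a ^ 3 * 0 * (0 ^ 2 + 1) ^ 4
            [ZMOD (8 * M : ℤ)] := by
            gcongr
        _ = 1 := by ring
    exact (Int.modEq_iff_dvd).1 this.symm
  -- the residue modulo q
  have hDq : (4 : ZMod q) * (a : ZMod q) ^ 3 + 27 * (b : ZMod q) ^ 2 = 0 := by
    have := (ZMod.intCast_zmod_eq_zero_iff_dvd (4 * a ^ 3 + 27 * b ^ 2) q).2 hD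
    push_cast at this
    exact this
  have hzq : (b : ZMod q) ^ 2 * (z : ZMod q) = t ^ 4 := by
    have h1 : ((u ^ 4 : ℤ) : ZMod q) = ((b ^ 2 * z : ℤ) : ZMod q) := by rw [hu4]
    push_cast at h1
    rw [huq] at h1
    exact h1.symm
  have heq : (e : ZMod q) = (3 * t ^ 2 + 1) ^ 3 * (1 - t ^ 2) ^ 3
      - 4 * (a : ZMod q) ^ 3 * (z : ZMod q) * (t ^ 2 + 1) ^ 4 := by
    rw [he]
    push_cast
    rw [huq]
  have hkey : (e : ZMod q) = (2 * t ^ 2 + 1) * (9 * t ^ 4 + 2 * t ^ 2 + 1) ^ 2 := by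
    apply mul_left_cancel₀ (pow_ne_zero 2 hbq)
    rw [heq]
    linear_combination (-(t ^ 4 * (t ^ 2 + 1) ^ 4)) * hDq - (t ^ 2 + 1) ^ 4 * 4 * (a : ZMod q) ^ 3 * hzq
  have hns : ¬ IsSquare ((e : ℤ) : ZMod q) := by
    rintro ⟨r, hr⟩
    apply ht1
    refine ⟨r * (9 * t ^ 4 + 2 * t ^ 2 + 1)⁻¹, ?_⟩
    have h1 : (2 * t ^ 2 + 1) * (9 * t ^ 4 + 2 * t ^ 2 + 1) ^ 2 = r ^ 2 := by
      rw [← hkey, hr]; ring
    calc 2 * t ^ 2 + 1 = (2 * t ^ 2 + 1) * (9 * t ^ 4 + 2 * t ^ 2 + 1) ^ 2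
          * ((9 * t ^ 4 + 2 * t ^ 2 + 1)⁻¹) ^ 2 := by
            rw [mul_assoc, ← mul_pow, mul_inv_cancel₀ ht2]; ring
      _ = _ := by rw [h1]; ring
  have hjac : jacobiSym e q = -1 := by
    rw [← jacobiSym.legendreSym.to_jacobiSym]
    exact (legendreSym.eq_neg_one_iff q).2 hns
  have hqe : ¬ (q : ℤ) ∣ e := by
    intro h
    apply hns
    rw [(ZMod.intCast_zmod_eq_zero_iff_dvd e q).2 h]
    exact ⟨0, by norm_num⟩
  refine ⟨u, 1, ?_, ?_⟩
  · rw [hFe]
    exact mul_ne_zero hd0n hepos.ne'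
  · rw [hFe, hwq d0 e hqd0 hqe hdvd, hjac, hw0, Int.sign_eq_one_of_pos hepos]
    norm_num

end Pool.Agent.Helper6.T6
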