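import Mathlib

/-!
# T6-5: the lattice `l ∣ x - r y` without short vectors

(1) `two_vectors`: let `e1 = (x1,y1)` be a shortest nonzero vector of the lattice
`Λ = {l ∣ x - r y}`. Thue (pigeonhole): `x1² + y1² ≤ 2 l`, so `B² ≤ 2 l` and
`|e1|² ≤ 2 l ≤ 4 l²/B²`. `e1 = y1 (r,1) + k (l,0)` with `gcd(y1,k) = 1` (shortest), Bezout gives
`e2 ∈ Λ` with `x1 y2 - x2 y1 = ± l`; subtract a multiple of `e1` such that `|⟨e1,e2⟩| ≤ |e1|²/2`; then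
`|e2|² ≤ |e1|²/4 + l²/|e1|² ≤ 4 l²/B²`.
(2) `near`: CRT gives a point of `Λ` in the class of `(u0,v0)` modulo `Q`; subtract integral multiples
of `Q e1`, `Q e2` (coordinates in the basis `e1, e2`, rounding): `(u,v) - (X,Y) = Q (α e1 + β e2)`,
`|α|, |β| ≤ 1/2`, so both coordinates are at most `Q (|e1|+|e2|)/2 ≤ 2 Q l/B` away.
(3) if `l² ∣ u - s v` for all three of `(u,v)`, `(u,v) + Q e1`, `(u,v) + Q e2`, then `l²` divides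
`x1 - s y1` and `x2 - s y2`, hence `x1 y2 - x2 y1 = (x1 - s y1) y2 - (x2 - s y2) y1 = ± l`, a
contradiction; the change of the coordinates is at most `2 Q l/B`.
-/

namespace Pool.Agent.Helper6.T6

/-- a shortest nonzero vector -/
private lemma shortest {l : ℕ} (hl : l.Prime) (r : ℤ) :
    ∃ x y : ℤ, (l : ℤ) ∣ x - r * y ∧ (x ≠ 0 ∨ y ≠ 0) ∧
      ∀ x' y' : ℤ, (l : ℤ) ∣ x' - r * y' → (x' ≠ 0 ∨ y' ≠ 0) →
        x ^ 2 + y ^ 2 ≤ x' ^ 2 + y' ^ 2 := by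
  classical
  have hex : ∃ n : ℕ, ∃ x y : ℤ, (l : ℤ) ∣ x - r * y ∧ (x ≠ 0 ∨ y ≠ 0) ∧
      x ^ 2 + y ^ 2 = (n : ℤ) := by
    refine ⟨l ^ 2, l, 0, by simp, Or.inl ?_, by push_cast; ring⟩
    exact_mod_cast hl.ne_zero
  obtain ⟨x, y, h1, h2, h3⟩ := Nat.find_spec hex
  refine ⟨x, y, h1, h2, fun x' y' h1' h2' => ?_⟩
  have h4 : (0 : ℤ) ≤ x' ^ 2 + y' ^ 2 := by positivity
  obtain ⟨m, hm⟩ := Int.eq_ofNat_of_zero_le h4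
  have h5 : Nat.find hex ≤ m := Nat.find_le ⟨x', y', h1', h2', hm⟩
  rw [h3, hm]
  exact_mod_cast h5

theorem two_vectors {l : ℕ} (hl : l.Prime) (r : ℤ) {B : ℝ} (hB : 1 ≤ B)
    (h : ∀ x y : ℤ, (l : ℤ) ∣ x - r * y → (x ≠ 0 ∨ y ≠ 0) → B ^ 2 ≤ (x : ℝ) ^ 2 + (y : ℝ) ^ 2) :
    ∃ x₁ y₁ x₂ y₂ : ℤ, (l : ℤ) ∣ x₁ - r * y₁ ∧ (l : ℤ) ∣ x₂ - r * y₂ ∧
      (x₁ * y₂ - x₂ * y₁ = l ∨ x₁ * y₂ - x₂ * y₁ = -l) ∧
      (x₁ : ℝ) ^ 2 + (y₁ : ℝ) ^ 2 ≤ 4 * (l / B) ^ 2 ∧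
      (x₂ : ℝ) ^ 2 + (y₂ : ℝ) ^ 2 ≤ 4 * (l / B) ^ 2 := by
  obtain ⟨x₁, y₁, hd, hne, hmin⟩ := shortest hl r
  obtain ⟨k, hk⟩ := hd
  have hl0 : (l : ℤ) ≠ 0 := by exact_mod_cast hl.ne_zero
  have hx1 : x₁ = r * y₁ + k * l := by linarith
  have hpos1 : 0 < x₁ ^ 2 + y₁ ^ 2 := by
    rcases hne with h1 | h1
    · have := sq_nonneg y₁
      have := pow_pos (abs_pos.mpr h1) 2
      rw [sq_abs] at this
      linarith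
    · have := sq_nonneg x₁
      have := pow_pos (abs_pos.mpr h1) 2
      rw [sq_abs] at this
      linarith
  -- the vector is primitive
  have hcop : IsCoprime k y₁ := by
    rw [Int.isCoprime_iff_gcd_eq_one]
    by_contra hg
    have hg0 : Int.gcd k y₁ ≠ 0 := by
      intro h0
      rw [Int.gcd_eq_zero_iff] at h0
      rcases hne with h1 | h1
      · apply h1; rw [hx1, h0.1, h0.2]; ring
      · exact h1 h0.2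
    have hg2 : 2 ≤ Int.gcd k y₁ := by omega
    obtain ⟨k', hk'⟩ := Int.gcd_dvd_left (a := k) (b := y₁)
    obtain ⟨y', hy'⟩ := Int.gcd_dvd_right (a := k) (b := y₁)
    set g : ℤ := (Int.gcd k y₁ : ℤ) with hgdef
    have hg2' : (2 : ℤ) ≤ g := by rw [hgdef]; exact_mod_cast hg2
    have hx' : x₁ = g * (r * y' + k' * l) := by
      rw [hx1]
      linear_combination r * hy' + (l : ℤ) * hk'
    have hdv : (l : ℤ) ∣ (r * y' + k' * l) - r * y' := ⟨k', by ring⟩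
    have hne' : (r * y' + k' * l) ≠ 0 ∨ y' ≠ 0 := by
      by_contra hcon
      push Not at hcon
      rcases hne with h1 | h1
      · apply h1; rw [hx', hcon.1]; ring
      · apply h1; rw [hy', hcon.2]; ring
    have h5 := hmin _ _ hdv hne'
    have h6 : x₁ ^ 2 + y₁ ^ 2 = g ^ 2 * ((r * y' + k' * l) ^ 2 + y' ^ 2) := by
      rw [hx']
      linear_combination (y₁ + g * y') * hy'
    have h7 : 0 < (r * y' + k' * l) ^ 2 + y' ^ 2 := by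
      by_contra hcon
      have : (r * y' + k' * l) ^ 2 + y' ^ 2 ≤ 0 := not_lt.mp hcon
      nlinarith
    have h8 : (4 : ℤ) ≤ g ^ 2 := by nlinarith
    have h9 := mul_le_mul_of_nonneg_right h8 h7.le
    rw [h6] at h5
    linarith
  obtain ⟨u, v, huv⟩ := hcop
  -- `u k + v y₁ = 1`; the second vector is `y₂ = u`, `k₂ = -v`
  have hA : (0 : ℚ) < ((x₁ ^ 2 + y₁ ^ 2 : ℤ) : ℚ) := by exact_mod_cast hpos1
  set A : ℤ := x₁ ^ 2 + y₁ ^ 2 with hAdef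
  set y₀ : ℤ := u with hy0
  set x₀ : ℤ := r * u - v * l with hx0
  set n : ℤ := round ((((x₁ * x₀ + y₁ * y₀ : ℤ) : ℚ)) / (A : ℚ)) with hn
  set x₂ : ℤ := x₀ - n * x₁ with hx2
  set y₂ : ℤ := y₀ - n * y₁ with hy2
  have hdet : x₁ * y₂ - x₂ * y₁ = l := by
    rw [hx2, hy2, hx0, hy0, hx1]
    linear_combination (l : ℤ) * huv
  have hd2 : (l : ℤ) ∣ x₂ - r * y₂ := by
    refine ⟨-v - n * k, ?_⟩
    rw [hx2, hy2, hx0, hy0]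
    linear_combination (-n) * hk
  have hne2 : x₂ ≠ 0 ∨ y₂ ≠ 0 := by
    by_contra hcon
    push Not at hcon
    rw [hcon.1, hcon.2] at hdet
    apply hl0
    linarith
  have hmin2 := hmin x₂ y₂ hd2 hne2
  have hdot : |(((x₁ * x₂ + y₁ * y₂ : ℤ) : ℚ))| ≤ (A : ℚ) / 2 := by
    have h1 := abs_sub_round ((((x₁ * x₀ + y₁ * y₀ : ℤ) : ℚ)) / (A : ℚ))
    rw [← hn] at h1
    have h2 : (((x₁ * x₂ + y₁ * y₂ : ℤ) : ℚ)) =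
        ((((x₁ * x₀ + y₁ * y₀ : ℤ) : ℚ)) / (A : ℚ) - n) * A := by
      have hA' : (A : ℚ) ≠ 0 := hA.ne'
      rw [sub_mul, div_mul_cancel₀ _ hA']
      rw [hx2, hy2, hAdef]
      push_cast
      ring
    rw [h2, abs_mul, abs_of_pos hA]
    nlinarith
  have hB2 := h x₁ y₁ ⟨k, hk⟩ hne
  have hlag : (A : ℝ) * ((x₂ : ℝ) ^ 2 + (y₂ : ℝ) ^ 2) - ((x₁ : ℝ) * x₂ + y₁ * y₂) ^ 2
      = (l : ℝ) ^ 2 := by
    have h1 : ((x₁ * y₂ - x₂ * y₁ : ℤ) : ℝ) = (l : ℝ) := by rw [hdet]; norm_cast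
    rw [← h1, hAdef]
    push_cast
    ring
  have hAr : (A : ℝ) = (x₁ : ℝ) ^ 2 + (y₁ : ℝ) ^ 2 := by rw [hAdef]; push_cast; ring
  have hmr : (A : ℝ) ≤ (x₂ : ℝ) ^ 2 + (y₂ : ℝ) ^ 2 := by
    have : ((A : ℤ) : ℝ) ≤ ((x₂ ^ 2 + y₂ ^ 2 : ℤ) : ℝ) := by exact_mod_cast hmin2
    push_cast at this
    exact this
  have hdr : |(x₁ : ℝ) * x₂ + y₁ * y₂| ≤ (A : ℝ) / 2 := by
    have h1 : ((|(((x₁ * x₂ + y₁ * y₂ : ℤ) : ℚ))| : ℚ) : ℝ) ≤ (((A : ℚ) / 2 : ℚ) : ℝ) := by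
      exact_mod_cast hdot
    push_cast at h1
    exact h1
  have hdr2 : ((x₁ : ℝ) * x₂ + y₁ * y₂) ^ 2 ≤ ((A : ℝ) / 2) ^ 2 := by
    rw [← sq_abs]
    exact pow_le_pow_left₀ (abs_nonneg _) hdr 2
  have hApos : (0 : ℝ) < A := by
    have : (0 : ℝ) < B ^ 2 := by positivity
    rw [hAr]; linarith
  have hBpos : (0 : ℝ) < B := by linarith
  have hfin2 : (x₂ : ℝ) ^ 2 + (y₂ : ℝ) ^ 2 ≤ 4 * (l / B) ^ 2 := by
    have h3 : (A : ℝ) * ((x₂ : ℝ) ^ 2 + (y₂ : ℝ) ^ 2) ≤ (4 / 3) * (l : ℝ) ^ 2 := by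
      nlinarith
    have h4 : B ^ 2 * ((x₂ : ℝ) ^ 2 + (y₂ : ℝ) ^ 2) ≤ 4 * (l : ℝ) ^ 2 := by
      have h5 : B ^ 2 * ((x₂ : ℝ) ^ 2 + (y₂ : ℝ) ^ 2) ≤
          (A : ℝ) * ((x₂ : ℝ) ^ 2 + (y₂ : ℝ) ^ 2) := by
        rw [hAr]
        gcongr
      nlinarith [sq_nonneg (l : ℝ)]
    rw [div_pow]
    have h6 : (x₂ : ℝ) ^ 2 + (y₂ : ℝ) ^ 2 ≤ (4 * (l : ℝ) ^ 2) / B ^ 2 := by
      rw [le_div_iff₀ (by positivity)]
      linarith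
    calc (x₂ : ℝ) ^ 2 + (y₂ : ℝ) ^ 2 ≤ (4 * (l : ℝ) ^ 2) / B ^ 2 := h6
      _ = 4 * ((l : ℝ) ^ 2 / B ^ 2) := by ring
  refine ⟨x₁, y₁, x₂, y₂, ⟨k, hk⟩, hd2, Or.inl hdet, ?_, hfin2⟩
  rw [← hAr]
  exact hmr.trans hfin2

end Pool.Agent.Helper6.T6
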