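import Pool.Agent.Helper6.T6.Lat

/-! # T6-5b: see the header of Lat.lean, (2) and (3) -/

namespace Pool.Agent.Helper6.T6

/-- a point of the lattice in a residue class, near a target, outside the class of `s` mod `l²` -/
theorem near {l : ℕ} (hl : l.Prime) (r s : ℤ) (hs : (l : ℤ) ∣ s - r) {B : ℝ} (hB : 1 ≤ B)
    (h : ∀ x y : ℤ, (l : ℤ) ∣ x - r * y → (x ≠ 0 ∨ y ≠ 0) → B ^ 2 ≤ (x : ℝ) ^ 2 + (y : ℝ) ^ 2)
    (Q : ℕ) (hQ : 1 ≤ Q) (hQl : ¬ l ∣ Q) (u₀ v₀ : ℤ) (X Y : ℝ) :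
    ∃ u v : ℤ, (Q : ℤ) ∣ u - u₀ ∧ (Q : ℤ) ∣ v - v₀ ∧ (l : ℤ) ∣ u - r * v ∧
      ¬ (l : ℤ) ^ 2 ∣ u - s * v ∧ |(u : ℝ) - X| ≤ 4 * Q * (l / B) ∧
      |(v : ℝ) - Y| ≤ 4 * Q * (l / B) := by
  have _ := hs
  obtain ⟨x₁, y₁, x₂, y₂, h1, h2, hD, hn1, hn2⟩ := two_vectors hl r hB h
  have hB0 : (0 : ℝ) < B := by linarith
  have hl0 : (0 : ℝ) < l := by exact_mod_cast hl.pos
  have hQ0 : (0 : ℝ) < Q := by exact_mod_cast hQ
  have hLB : 0 < (l : ℝ) / B := by positivity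
  have habs : ∀ x y : ℝ, x ^ 2 + y ^ 2 ≤ 4 * (l / B) ^ 2 → |x| ≤ 2 * (l / B) := by
    intro x y hxy
    apply abs_le_of_sq_le_sq' _ (by positivity) |> abs_le.2
    nlinarith [sq_nonneg y]
  have hx1 := habs x₁ y₁ hn1
  have hy1 := habs y₁ x₁ (by linarith)
  have hx2 := habs x₂ y₂ hn2
  have hy2 := habs y₂ x₂ (by linarith)
  -- coprimality
  have hcop : IsCoprime (Q : ℤ) (l : ℤ) := by
    rw [Nat.isCoprime_iff_coprime]
    exact ((Nat.Prime.coprime_iff_not_dvd hl).2 hQl).symm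
  obtain ⟨a, b, hab⟩ := hcop
  set u' : ℤ := u₀ * (b * l) + r * v₀ * (a * Q) with hu'
  have hu1 : (Q : ℤ) ∣ u' - u₀ := ⟨a * (r * v₀ - u₀), by
    rw [hu']; linear_combination u₀ * hab⟩
  have hu2 : (l : ℤ) ∣ u' - r * v₀ := ⟨b * (u₀ - r * v₀), by
    rw [hu']; linear_combination r * v₀ * hab⟩
  -- the determinant
  have hDR : ((x₁ : ℝ) * y₂ - x₂ * y₁) ≠ 0 := by
    rcases hD with h | h
    · have : (x₁ : ℝ) * y₂ - x₂ * y₁ = l := by exact_mod_cast h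
      rw [this]; exact hl0.ne'
    · have : (x₁ : ℝ) * y₂ - x₂ * y₁ = -l := by exact_mod_cast h
      rw [this]; exact (neg_neg_of_pos hl0).ne
  set D : ℝ := (x₁ : ℝ) * y₂ - x₂ * y₁ with hDdef
  set α : ℝ := (((u' : ℝ) - X) * y₂ - ((v₀ : ℝ) - Y) * x₂) / (Q * D) with hα
  set β : ℝ := ((x₁ : ℝ) * (v₀ - Y) - y₁ * (u' - X)) / (Q * D) with hβ
  set m : ℤ := round α with hm
  set n : ℤ := round β with hn
  have hαm : |α - m| ≤ 1 / 2 := abs_sub_round α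
  have hβn : |β - n| ≤ 1 / 2 := abs_sub_round β
  set u : ℤ := u' - Q * (m * x₁ + n * x₂) with hu
  set v : ℤ := v₀ - Q * (m * y₁ + n * y₂) with hv
  have eu : (u : ℝ) - X = Q * ((α - m) * x₁ + (β - n) * x₂) := by
    have e1 : (u' : ℝ) - X = Q * (α * x₁ + β * x₂) := by
      rw [hα, hβ]
      field_simp
      rw [hDdef]
      ring
    rw [hu]
    push_cast
    linear_combination e1
  have ev : (v : ℝ) - Y = Q * ((α - m) * y₁ + (β - n) * y₂) := by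
    have e1 : (v₀ : ℝ) - Y = Q * (α * y₁ + β * y₂) := by
      rw [hα, hβ]
      field_simp
      rw [hDdef]
      ring
    rw [hv]
    push_cast
    linear_combination e1
  have bnd : ∀ p q : ℝ, |p| ≤ 2 * (l / B) → |q| ≤ 2 * (l / B) →
      |(Q : ℝ) * ((α - m) * p + (β - n) * q)| ≤ 2 * Q * (l / B) := by
    intro p q hp hq
    rw [abs_mul, abs_of_pos hQ0]
    have h3 : |(α - m) * p + (β - n) * q| ≤ 2 * (l / B) := by
      refine (abs_add_le _ _).trans ?_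
      rw [abs_mul, abs_mul]
      have h4 : |α - m| * |p| ≤ 1 / 2 * (2 * (l / B)) :=
        mul_le_mul hαm hp (abs_nonneg _) (by norm_num)
      have h5 : |β - n| * |q| ≤ 1 / 2 * (2 * (l / B)) :=
        mul_le_mul hβn hq (abs_nonneg _) (by norm_num)
      linarith
    nlinarith
  have hub : |(u : ℝ) - X| ≤ 2 * Q * (l / B) := by rw [eu]; exact bnd _ _ hx1 hx2
  have hvb : |(v : ℝ) - Y| ≤ 2 * Q * (l / B) := by rw [ev]; exact bnd _ _ hy1 hy2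
  have hqu : (Q : ℤ) ∣ u - u₀ := by
    have : u - u₀ = (u' - u₀) - Q * (m * x₁ + n * x₂) := by rw [hu]; ring
    rw [this]
    exact dvd_sub hu1 (dvd_mul_right _ _)
  have hqv : (Q : ℤ) ∣ v - v₀ := by
    have : v - v₀ = Q * (-(m * y₁ + n * y₂)) := by rw [hv]; ring
    rw [this]
    exact dvd_mul_right _ _
  have hluv : (l : ℤ) ∣ u - r * v := by
    have : u - r * v = (u' - r * v₀) - Q * m * (x₁ - r * y₁) - Q * n * (x₂ - r * y₂) := by
      rw [hu, hv]; ring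
    rw [this]
    exact dvd_sub (dvd_sub hu2 (Dvd.dvd.mul_left h1 _)) (Dvd.dvd.mul_left h2 _)
  have hQlB : 0 ≤ (Q : ℝ) * (l / B) := by positivity
  by_cases c0 : (l : ℤ) ^ 2 ∣ u - s * v
  swap
  · exact ⟨u, v, hqu, hqv, hluv, c0, by linarith, by linarith⟩
  have shift : ∀ x y : ℤ, (l : ℤ) ∣ x - r * y → |(x : ℝ)| ≤ 2 * (l / B) → |(y : ℝ)| ≤ 2 * (l / B) →
      ¬ (l : ℤ) ^ 2 ∣ x - s * y → ∃ u v : ℤ, (Q : ℤ) ∣ u - u₀ ∧ (Q : ℤ) ∣ v - v₀ ∧
      (l : ℤ) ∣ u - r * v ∧ ¬ (l : ℤ) ^ 2 ∣ u - s * v ∧ |(u : ℝ) - X| ≤ 4 * Q * (l / B) ∧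
      |(v : ℝ) - Y| ≤ 4 * Q * (l / B) := by
    intro x y hxy hx hy hns
    refine ⟨u + Q * x, v + Q * y, ?_, ?_, ?_, ?_, ?_, ?_⟩
    · have : u + Q * x - u₀ = (u - u₀) + Q * x := by ring
      rw [this]
      exact dvd_add hqu (dvd_mul_right _ _)
    · have : v + Q * y - v₀ = (v - v₀) + Q * y := by ring
      rw [this]
      exact dvd_add hqv (dvd_mul_right _ _)
    · have : u + Q * x - r * (v + Q * y) = (u - r * v) + Q * (x - r * y) := by ring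
      rw [this]
      exact dvd_add hluv (Dvd.dvd.mul_left hxy _)
    · intro hcon
      have e : u + Q * x - s * (v + Q * y) = (u - s * v) + Q * (x - s * y) := by ring
      rw [e] at hcon
      have h3 : (l : ℤ) ^ 2 ∣ Q * (x - s * y) := (dvd_add_right c0).1 hcon
      have h4 : IsCoprime ((l : ℤ) ^ 2) (Q : ℤ) := by
        refine IsCoprime.pow_left ?_
        rw [Nat.isCoprime_iff_coprime]
        exact (Nat.Prime.coprime_iff_not_dvd hl).2 hQl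
      exact hns (h4.dvd_of_dvd_mul_left h3)
    · push_cast
      have e : (u : ℝ) + Q * x - X = ((u : ℝ) - X) + Q * x := by ring
      rw [e]
      refine (abs_add_le _ _).trans ?_
      rw [abs_mul, abs_of_pos hQ0]
      nlinarith
    · push_cast
      have e : (v : ℝ) + Q * y - Y = ((v : ℝ) - Y) + Q * y := by ring
      rw [e]
      refine (abs_add_le _ _).trans ?_
      rw [abs_mul, abs_of_pos hQ0]
      nlinarith
  by_cases c1 : (l : ℤ) ^ 2 ∣ x₁ - s * y₁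
  swap
  · exact shift x₁ y₁ h1 hx1 hy1 c1
  by_cases c2 : (l : ℤ) ^ 2 ∣ x₂ - s * y₂
  swap
  · exact shift x₂ y₂ h2 hx2 hy2 c2
  exfalso
  have h3 : (l : ℤ) ^ 2 ∣ x₁ * y₂ - x₂ * y₁ := by
    have : x₁ * y₂ - x₂ * y₁ = (x₁ - s * y₁) * y₂ - (x₂ - s * y₂) * y₁ := by ring
    rw [this]
    exact dvd_sub (Dvd.dvd.mul_right c1 _) (Dvd.dvd.mul_right c2 _)
  have h4 : (l : ℤ) ^ 2 ∣ l := by
    rcases hD with h | h
    · rwa [h] at h3
    · rw [h] at h3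
      exact (dvd_neg).1 h3
  have h5 := Int.le_of_dvd (by exact_mod_cast hl.pos) h4
  have h6 : (2 : ℤ) ≤ l := by exact_mod_cast hl.two_le
  nlinarith

end Pool.Agent.Helper6.T6
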