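import Pool.Agent.Helper6.T6.Good
import Pool.Agent.Helper6.T6.Hens
import Pool.Agent.Helper6.T6.Near
import Pool.Agent.Helper19.TW.Member

/-! # T6-16: as Member.lean, with the rank guarantee as a hypothesis -/

namespace Pool.Agent.Helper6.T6

open Pool.Agent.Helper19.TW

private lemma disc_ne' {a b : ℤ} (ha : a ≠ 0) (hroot : ∀ r : ℚ, r ^ 3 + a * r + b ≠ 0) :
    4 * a ^ 3 + 27 * b ^ 2 ≠ 0 := by
  intro h
  have ha' : (a : ℚ) ≠ 0 := by exact_mod_cast ha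
  have h' : (4 : ℚ) * a ^ 3 + 27 * b ^ 2 = 0 := by exact_mod_cast h
  apply hroot (-(3 * b) / (2 * a))
  field_simp
  linear_combination (-(b : ℚ)) * h'

private lemma not_dvd_of_lt {l : ℕ} {z : ℤ} (hz : z ≠ 0) (h : z.natAbs < l) : ¬ (l : ℤ) ∣ z := by
  intro hd
  have := Int.natAbs_dvd_natAbs.2 hd
  rw [Int.natAbs_natCast] at this
  exact absurd (Nat.le_of_dvd (Int.natAbs_pos.2 hz) this) (by omega)

private lemma fund_of_sqfree' {d : ℤ} (hd : Squarefree d) : IsFund d ∨ IsFund (4 * d) := by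
  have h4 : d % 4 ≠ 0 := by
    intro h
    have h1 : (2 * 2 : ℤ) ∣ d := by omega
    have := hd 2 h1
    have h2 := Int.isUnit_iff.1 this
    omega
  by_cases h1 : d % 4 = 1
  · exact Or.inl (Or.inl ⟨h1, hd⟩)
  · refine Or.inr (Or.inr ⟨d, rfl, by omega, hd⟩)

/-- divisibility of the squarefree part by the large prime -/
private lemma large12 {a b u v : ℤ} {l : ℕ} (hl : l.Prime) (ha : ¬ (l : ℤ) ∣ a)
    (hb : ¬ (l : ℤ) ∣ b) (h1 : (l : ℤ) ∣ GG a b u v) (h2 : ¬ (l : ℤ) ^ 2 ∣ GG a b u v) {d r : ℤ}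
    (hF : F12 a b u v = d * r ^ 2) : (l : ℤ) ∣ d := by
  have hlI : Prime (l : ℤ) := Nat.prime_iff_prime_int.1 hl
  have hr : ¬ (l : ℤ) ∣ r := by
    intro hr
    have h3 : (l : ℤ) ^ 2 ∣ GG a b u v * (a * b) := by
      have e : GG a b u v * (a * b) = F12 a b u v := by simp only [F12]; ring
      rw [e, hF]
      exact Dvd.dvd.mul_left (pow_dvd_pow_of_dvd hr 2) d
    have hc : IsCoprime ((l : ℤ) ^ 2) (a * b) := by
      apply IsCoprime.pow_left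
      refine (Prime.coprime_iff_not_dvd hlI).2 ?_
      intro h4
      rcases hlI.dvd_or_dvd h4 with h6 | h6
      · exact ha h6
      · exact hb h6
    exact h2 (hc.dvd_of_dvd_mul_right h3)
  have h5 : (l : ℤ) ∣ d * r ^ 2 := by
    rw [← hF]
    have e : F12 a b u v = GG a b u v * (a * b) := by simp only [F12]; ring
    rw [e]
    exact Dvd.dvd.mul_right h1 _
  rcases hlI.dvd_or_dvd h5 with h6 | h6
  · exact h6
  · exact absurd (hlI.dvd_of_dvd_pow h6) hr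

/-- auxiliary primes with a rank guarantee in a residue class -/
def Prov (a b : ℤ) : Prop :=
  ∀ N : ℤ, N ≠ 0 → ∃ p : ℕ, p.Prime ∧ ¬ (p : ℤ) ∣ N ∧ ∃ t : ℤ, GoodQ a b p t 1 ∧
    ∀ (u v d : ℤ) (m : ℚ), u ≡ t [ZMOD (p : ℤ) ^ 2] → v ≡ 1 [ZMOD (p : ℤ) ^ 2] →
      (F12 a b u v : ℚ) = d * m ^ 2 → padicNorm p m = 1 →
      ∃ P Q : (tw a b d).toAffine.Point, LinearIndependent ℤ ![P, Q]

theorem member12p {a b : ℤ} (ha : a ≠ 0) (hb : b ≠ 0) (hroot : ∀ r : ℚ, r ^ 3 + a * r + b ≠ 0)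
    (hclass : Prov a b)
    {M : ℕ} (hM : 1 ≤ M) {w : ℤ → ℤ} (hw : RootLike M w) {u₁ v₁ : ℤ} (h0 : F12 a b u₁ v₁ ≠ 0)
    (h1 : w (F12 a b u₁ v₁) = 1) :
    ∃ (C : ℝ) (l0 : ℕ), 1 ≤ C ∧ ∀ (l : ℕ) (r : ℤ) (B : ℝ), l.Prime → l0 ≤ l →
      (l : ℤ) ∣ GG a b r 1 → C ≤ B →
      (∀ x y : ℤ, (l : ℤ) ∣ x - r * y → (x ≠ 0 ∨ y ≠ 0) → B ^ 2 ≤ (x : ℝ) ^ 2 + (y : ℝ) ^ 2) →
      ∃ d : ℤ, IsFund d ∧ w d = 1 ∧
        (∃ P Q : (tw a b d).toAffine.Point, LinearIndependent ℤ ![P, Q]) ∧ d ≠ 0 ∧ (l : ℤ) ∣ d ∧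
        |(d : ℝ)| ≤ C * ((l : ℝ) / B) ^ 12 := by
  have hD := disc_ne' ha hroot
  set F₁ := F12 a b u₁ v₁ with hF₁
  set L₁ : ℤ := 8 * M * F₁ with hL₁
  have hM0 : (M : ℤ) ≠ 0 := by positivity
  have hL₁0 : L₁ ≠ 0 := mul_ne_zero (mul_ne_zero (by norm_num) hM0) h0
  obtain ⟨p, hp, hpL, t, hG, hrk⟩ := hclass L₁ hL₁0
  have hpI : Prime (p : ℤ) := Nat.prime_iff_prime_int.1 hp
  have : Fact p.Prime := ⟨hp⟩
  -- Chinese remainders
  have hcop : IsCoprime L₁ ((p : ℤ) ^ 2) := by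
    apply IsCoprime.pow_right
    exact ((Prime.coprime_iff_not_dvd hpI).2 hpL).symm
  obtain ⟨al, be, hab⟩ := hcop
  have crt : ∀ x y : ℤ, ∃ z : ℤ, z ≡ x [ZMOD L₁] ∧ z ≡ y [ZMOD (p : ℤ) ^ 2] := by
    intro x y
    refine ⟨x * (be * (p : ℤ) ^ 2) + y * (al * L₁), ?_, ?_⟩
    · refine (Int.modEq_iff_dvd).2 ⟨al * (x - y), ?_⟩
      linear_combination (-x) * hab
    · refine (Int.modEq_iff_dvd).2 ⟨be * (y - x), ?_⟩
      linear_combination (-y) * hab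
  obtain ⟨uc, huc1, huc2⟩ := crt u₁ t
  obtain ⟨vc, hvc1, hvc2⟩ := crt v₁ 1
  -- sign
  have hK₁ : GG a b u₁ v₁ ≠ 0 := by
    intro h
    apply h0
    rw [hF₁]; simp only [F12]; rw [h, mul_zero]
  obtain ⟨e, he, he1, hcone⟩ := sign_cone a b u₁ v₁ hK₁
  obtain ⟨CF, hCF, hFb⟩ := F12_bound a b
  set Q : ℕ := L₁.natAbs * p ^ 2 with hQ
  have hQ1 : 1 ≤ Q := by
    rw [hQ]
    exact Nat.one_le_iff_ne_zero.2 (mul_ne_zero (Int.natAbs_ne_zero.2 hL₁0)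
      (pow_ne_zero 2 hp.ne_zero))
  have hQR : (1 : ℝ) ≤ (Q : ℝ) := by exact_mod_cast hQ1
  set A : ℝ := |(u₁ : ℝ)| + |(v₁ : ℝ)| + 1 with hA
  have hA1 : 1 ≤ A := by
    rw [hA]; have := abs_nonneg (u₁ : ℝ); have := abs_nonneg (v₁ : ℝ); linarith
  set K : ℝ := A * (4 * Q / e) with hK
  have hK0 : 0 < K := by rw [hK]; positivity
  refine ⟨max 1 (max (K + 1) (4 * (CF * K ^ 12))),
    a.natAbs + b.natAbs + (4 * a ^ 3 + 27 * b ^ 2).natAbs + Q + 3, le_max_left _ _, ?_⟩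
  intro l r B hl hl0 hGr hCB hlat
  have hB1 : 1 ≤ B := le_trans (le_max_left _ _) hCB
  have hBK : K + 1 ≤ B := le_trans (le_trans (le_max_left _ _) (le_max_right _ _)) hCB
  have hB0 : 0 < B := by linarith
  have hlR : (0 : ℝ) < l := by exact_mod_cast hl.pos
  have hla : ¬ (l : ℤ) ∣ a := not_dvd_of_lt ha (by omega)
  have hlb : ¬ (l : ℤ) ∣ b := not_dvd_of_lt hb (by omega)
  have hlD : ¬ (l : ℤ) ∣ 4 * a ^ 3 + 27 * b ^ 2 := not_dvd_of_lt hD (by omega)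
  have hl2 : ¬ (l : ℤ) ∣ 2 := not_dvd_of_lt two_ne_zero (by
    have : (2 : ℤ).natAbs = 2 := rfl
    omega)
  have hlQ : ¬ l ∣ Q := by
    intro h
    have := Nat.le_of_dvd (by omega) h
    omega
  obtain ⟨s, hs, hens⟩ := hensel12 hl hl2 hla hlb hlD hGr
  set τ : ℝ := (4 * Q / e) * (l / B) with hτ
  have hτ0 : 0 < τ := by rw [hτ]; positivity
  obtain ⟨u, v, hu, hv, hluv, hls, hdu, hdv⟩ := near hl r s hs hB1 hlat Q hQ1 hlQ uc vc
    (τ * u₁) (τ * v₁)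
  have hτe : 4 * (Q : ℝ) * (l / B) = e * τ := by
    rw [hτ]; field_simp
  rw [hτe] at hdu hdv
  have hKK : 0 < GG a b u v * GG a b u₁ v₁ := hcone τ u v hτ0 hdu hdv
  have hGne : GG a b u v ≠ 0 := by
    intro h; rw [h, zero_mul] at hKK; exact lt_irrefl _ hKK
  -- size
  have hKl : K * (l / B) < l := by
    have h3 : K < B := by linarith
    rw [mul_div_assoc', div_lt_iff₀ hB0]
    nlinarith
  have hAτ : A * τ = K * (l / B) := by rw [hK, hτ]; ring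
  have hsz : ∀ (x : ℤ) (x₁ : ℤ), |(x : ℝ) - τ * x₁| ≤ e * τ → |(x₁ : ℝ)| + 1 ≤ A →
      |(x : ℝ)| ≤ K * (l / B) := by
    intro x x₁ hx hx₁
    have h3 : |(x : ℝ)| ≤ |(x : ℝ) - τ * x₁| + |τ * (x₁ : ℝ)| := by
      have := abs_add_le ((x : ℝ) - τ * x₁) (τ * x₁)
      rwa [sub_add_cancel] at this
    rw [abs_mul, abs_of_pos hτ0] at h3
    rw [← hAτ]
    nlinarith [mul_le_mul_of_nonneg_right he1.le hτ0.le, mul_le_mul_of_nonneg_right hx₁ hτ0.le]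
  have huT : |(u : ℝ)| ≤ K * (l / B) := hsz u u₁ hdu (by
    rw [hA]; have := abs_nonneg (v₁ : ℝ); linarith)
  have hvT : |(v : ℝ)| ≤ K * (l / B) := hsz v v₁ hdv (by
    rw [hA]; have := abs_nonneg (u₁ : ℝ); linarith)
  have hzero : ∀ x : ℤ, |(x : ℝ)| ≤ K * (l / B) → (l : ℤ) ∣ x → x = 0 := by
    intro x hx hd
    by_contra hne
    apply not_dvd_of_lt hne _ hd
    have h3 : ((x.natAbs : ℕ) : ℝ) < l := by
      rw [Nat.cast_natAbs, Int.cast_abs]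
      linarith
    exact_mod_cast h3
  have hlv : ¬ (l : ℤ) ∣ v := by
    intro hlv
    have hv0 : v = 0 := hzero v hvT hlv
    have hlu : (l : ℤ) ∣ u := by rw [hv0, mul_zero, sub_zero] at hluv; exact hluv
    have hu0 : u = 0 := hzero u huT hlu
    apply hGne
    rw [hu0, hv0]
    simp [GG]
  obtain ⟨hS1, hS2⟩ := hens u v hluv hls hlv
  -- congruences
  have hLL : (Q : ℤ) = |L₁| * (p : ℤ) ^ 2 := by
    rw [hQ]; push_cast; rfl
  have hL₁L : L₁ ∣ (Q : ℤ) := by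
    rw [hLL]; exact Dvd.dvd.mul_right ((dvd_abs _ _).2 dvd_rfl) _
  have hpL' : (p : ℤ) ^ 2 ∣ (Q : ℤ) := by rw [hLL]; exact Dvd.intro_left _ rfl
  have hu1 : u ≡ u₁ [ZMOD L₁] :=
    (((Int.modEq_iff_dvd).2 hu).symm.of_dvd hL₁L).trans huc1
  have hv1 : v ≡ v₁ [ZMOD L₁] :=
    (((Int.modEq_iff_dvd).2 hv).symm.of_dvd hL₁L).trans hvc1
  have hu2 : u ≡ t [ZMOD (p : ℤ) ^ 2] :=
    (((Int.modEq_iff_dvd).2 hu).symm.of_dvd hpL').trans huc2
  have hv2 : v ≡ 1 [ZMOD (p : ℤ) ^ 2] :=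
    (((Int.modEq_iff_dvd).2 hv).symm.of_dvd hpL').trans hvc2
  have hG' : GoodQ a b p u v := hG.transfer hu2 hv2
  -- the value
  set F := F12 a b u v with hF
  have hFm : F₁ ≡ F [ZMOD L₁] := (F12_modEq hu1 hv1).symm
  obtain ⟨k, hk⟩ := (Int.modEq_iff_dvd).1 hFm
  have hFe : F = F₁ * (1 + 8 * M * k) := by
    rw [hL₁] at hk; linear_combination hk
  have hFF : 0 < F * F₁ := by
    have : F * F₁ = (a * b) ^ 2 * (GG a b u v * GG a b u₁ v₁) := by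
      rw [hF, hF₁]; simp only [F12]; ring
    rw [this]
    have := mul_ne_zero ha hb
    positivity
  have he0 : 0 < 1 + 8 * M * k := by
    rw [hFe] at hFF
    have : F₁ * (1 + 8 * M * k) * F₁ = F₁ ^ 2 * (1 + 8 * M * k) := by ring
    rw [this] at hFF
    exact (mul_pos_iff_of_pos_left (by positivity)).1 hFF
  have hwF : w F = 1 := by
    rw [hFe, hw.tw F₁ _ h0 ⟨k, by ring⟩, Int.sign_eq_one_of_pos he0, h1, one_mul]
  have hF0 : F ≠ 0 := by rw [hFe]; exact mul_ne_zero h0 he0.ne'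
  obtain ⟨d, m, hdr, hdsq, hr0⟩ := sqfree_part hF0
  have hd0 : d ≠ 0 := hdsq.ne_zero
  have hld : (l : ℤ) ∣ d := large12 hl hla hlb hS1 hS2 (hF.symm.trans hdr)
  have hwd : w d = 1 := by rw [← hw.sq d m hd0 hr0, ← hdr]; exact hwF
  have hNr : padicNorm p (m : ℚ) = 1 := by
    refine norm_one ?_
    rintro ⟨z, hz⟩
    have e1 := hG'.norm_F
    rw [← hF, hdr, hz] at e1
    have e2 : (((d * (p * z) ^ 2 : ℤ)) : ℚ) = (p : ℚ) * ((p : ℚ) * ((d * z ^ 2 : ℤ) : ℚ)) := by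
      push_cast; ring
    rw [e2, padicNorm.mul, padicNorm.mul, padicNorm.padicNorm_p_of_prime] at e1
    have hp1 : (1 : ℚ) < p := by exact_mod_cast hp.one_lt
    have hinv : (p : ℚ)⁻¹ < 1 := inv_lt_one_of_one_lt₀ hp1
    have hinv0 : (0 : ℚ) < (p : ℚ)⁻¹ := inv_pos.2 (by linarith)
    have hle := nint (p := p) (d * z ^ 2)
    have hnn := padicNorm.nonneg (p := p) ((d * z ^ 2 : ℤ) : ℚ)
    have : (p : ℚ)⁻¹ * padicNorm p ((d * z ^ 2 : ℤ) : ℚ) = 1 := by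
      have h3 : (p : ℚ)⁻¹ * ((p : ℚ)⁻¹ * padicNorm p ((d * z ^ 2 : ℤ) : ℚ)) = (p : ℚ)⁻¹ * 1 := by
        rw [mul_one]; exact e1
      exact mul_left_cancel₀ hinv0.ne' h3
    nlinarith
  have hFd : |(d : ℝ)| ≤ |(F : ℝ)| := by
    rw [hdr]; push_cast; rw [abs_mul]
    have : (1 : ℝ) ≤ |(m : ℝ) ^ 2| := by
      rw [abs_pow, sq_abs]
      have : 1 ≤ m ^ 2 := by have := sq_nonneg m; have := pow_ne_zero 2 hr0; omega
      exact_mod_cast this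
    nlinarith [abs_nonneg (d : ℝ)]
  have hbd : |(F : ℝ)| ≤ CF * K ^ 12 * (l / B) ^ 12 := by
    refine (hFb u v _ huT hvT).trans (le_of_eq ?_)
    rw [mul_pow]; ring
  have hX0 : 0 ≤ CF * K ^ 12 * (l / B) ^ 12 := le_trans (abs_nonneg _) hbd
  have hlB : (0 : ℝ) ≤ (l / B) ^ 12 := by positivity
  have hCle : 4 * (CF * K ^ 12 * (l / B) ^ 12) ≤
      max 1 (max (K + 1) (4 * (CF * K ^ 12))) * ((l : ℝ) / B) ^ 12 := by
    have h3 : 4 * (CF * K ^ 12) * ((l : ℝ) / B) ^ 12 ≤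
        max 1 (max (K + 1) (4 * (CF * K ^ 12))) * ((l : ℝ) / B) ^ 12 :=
      mul_le_mul_of_nonneg_right (le_trans (le_max_right _ _) (le_max_right _ _)) hlB
    refine le_trans (le_of_eq ?_) h3
    ring
  generalize CF * K ^ 12 * ((l : ℝ) / B) ^ 12 = Z at hbd hX0 hCle
  rcases fund_of_sqfree' hdsq with hf | hf
  · refine ⟨d, hf, hwd, hrk u v d m hu2 hv2 ?_ hNr, hd0, hld, ?_⟩
    · rw [← hF, hdr]; push_cast; ring
    · refine le_trans ?_ hCle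
      linarith
  · refine ⟨4 * d, hf, ?_, hrk u v (4 * d) (m / 2) hu2 hv2 ?_ ?_, by omega,
      Dvd.dvd.mul_left hld 4, ?_⟩
    · have := hw.sq d 2 hd0 two_ne_zero
      rw [← hwd, ← this]; congr 1; ring
    · rw [← hF, hdr]; push_cast; ring
    · rw [padicNorm.div, hNr]
      have : padicNorm p (2 : ℚ) = 1 := by exact_mod_cast norm_one hG.two
      rw [this]; norm_num
    · push_cast
      rw [abs_mul]
      have : |(4 : ℝ)| = 4 := abs_of_pos (by norm_num)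
      rw [this]
      refine le_trans ?_ hCle
      linarith

end Pool.Agent.Helper6.T6
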