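import Pool.Agent.Helper38.TW.IdBounds
import Pool.Agent.Helper38.TW.DegOne

/-!
# T6-7: prime ideals of degree one: Mertens with constant 1 (lower bound)

`QQ L p`: the prime ideals of norm `p`. Proof as in `Pool.Agent.Helper38.TW.DegOne` (all private
lemmas there may be copied: `d1_under`, `d1_card`, `d1_hom`, `d1_fac`, `d1_div`, `d1_geo`, `d1_sq`,
`d1_term`, `d1_upper`), but sharp: with `η` small, `y₀` from `idc_eps` for `η`, `x` large,
LHS `∑_{N(I) ≤ x} log N(I) ≥ (1-η) κ x log x - C x` (ideals of norm `> x/R`, `R` large: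
`≥ ((1-η) - (1+η)/R) κ x` of them, each `log ≥ log x - log R`).
RHS `≤ ∑_{(P,k)} log N(P) idc (x / N(P)^k)`; the terms with `N(P) = p` prime, `k = 1`, `p ≤ x/y₀` are
`≤ (1+η) κ (x/p) log p`; those with `x/y₀ < p ≤ x` are together `≤ C n x ∑_{x/y₀ < p ≤ x} log p/p ≤ C' x`
(Mertens upper and lower bounds `Pool.Agent.Helper10.P5.mertens_lower`, `mertens_upper`, or
`primes_upper` for `ℚ`; or Chebyshev `∑_{p ≤ x} log p ≤ 2 x`: `Chebyshev.theta` in Mathlib); all
others (`N(P)^k` not a prime) are `≤ C x` as in `d1_upper`.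
-/

namespace Pool.Agent.Helper6.T6

open Finset NumberField Pool.Agent.Helper10.P5 Pool.Agent.Helper79.GA Pool.Agent.Helper38.TW

open Classical in
/-- the prime ideals of norm `p` -/
noncomputable def QQ (L : Type) [Field L] [NumberField L] (p : ℕ) : Finset (Ideal (𝓞 L)) :=
  (idC_fin L p).toFinset.filter (fun P => P.IsPrime ∧ Ideal.absNorm P = p)

/-- a rational prime in `P` -/
private theorem d1_under {L : Type} [Field L] [NumberField L] (P : Ideal (𝓞 L)) (hP : P.IsPrime)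
    (h0 : P ≠ ⊥) : ∃ p f : ℕ, p.Prime ∧ (p : 𝓞 L) ∈ P ∧ Ideal.absNorm P = p ^ f ∧ 1 ≤ f := by
  have hN : Ideal.absNorm P ≠ 0 := fun h => h0 (Ideal.absNorm_eq_zero_iff.1 h)
  have hmem : ((Ideal.absNorm P : ℕ) : 𝓞 L) ∈ P := Ideal.absNorm_mem P
  have h1 : ∃ p : ℕ, p.Prime ∧ (p : 𝓞 L) ∈ P := by
    have key : ∀ n : ℕ, n ≠ 0 → (n : 𝓞 L) ∈ P → ∃ p : ℕ, p.Prime ∧ (p : 𝓞 L) ∈ P := by
      intro n
      induction n using Nat.recOnPrimePow with
      | zero => intro h; exact absurd rfl h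
      | one =>
        intro _ h
        rw [Nat.cast_one] at h
        exact absurd ((Ideal.eq_top_iff_one P).2 h) hP.ne_top
      | prime_pow_mul a p n hp hpa hn ih =>
        intro _ h
        rw [Nat.cast_mul, Nat.cast_pow] at h
        rcases hP.mem_or_mem h with h | h
        · exact ⟨p, hp, hP.mem_of_pow_mem _ h⟩
        · refine ih ?_ h
          rintro rfl
          simp_all
    exact key _ hN hmem
  obtain ⟨p, hp, hpP⟩ := h1
  have hle : Ideal.span {(p : 𝓞 L)} ≤ P := (Ideal.span_singleton_le_iff_mem _).2 hpP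
  have hd := Ideal.absNorm_dvd_absNorm_of_le hle
  have hn : Ideal.absNorm (Ideal.span {(p : 𝓞 L)}) = p ^ Module.finrank ℤ (𝓞 L) := by
    rw [Ideal.absNorm_span_singleton]
    have h2 : ((p : ℕ) : 𝓞 L) = algebraMap ℤ (𝓞 L) (p : ℤ) := by simp
    rw [h2, Algebra.norm_algebraMap, Int.natAbs_pow, Int.natAbs_natCast]
  rw [hn] at hd
  obtain ⟨f, _, hf⟩ := (Nat.dvd_prime_pow hp).1 hd
  refine ⟨p, f, hp, hpP, hf, ?_⟩
  rcases Nat.eq_zero_or_pos f with h | h
  · exfalso
    rw [h, pow_zero] at hf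
    exact hP.ne_top (Ideal.absNorm_eq_one_iff.1 hf)
  · exact h

/-- at most `n` primes over `p` -/
private theorem d1_card {L : Type} [Field L] [NumberField L] (p : ℕ) (hp : p.Prime)
    (Q : Finset (Ideal (𝓞 L))) (hQ : ∀ P ∈ Q, P.IsPrime ∧ P ≠ ⊥ ∧ (p : 𝓞 L) ∈ P) :
    Q.card ≤ Module.finrank ℤ (𝓞 L) := by
  classical
  have h2 : ∏ P ∈ Q, P ∣ Ideal.span {(p : 𝓞 L)} := by
    refine Finset.prod_dvd_of_coprime (s := fun P : Ideal (𝓞 L) => P) ?_ ?_
    · intro P hP P' hP' hne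
      rw [Finset.mem_coe] at hP hP'
      have hm : P.IsMaximal := (hQ P hP).1.isMaximal (hQ P hP).2.1
      have hm' : P'.IsMaximal := (hQ P' hP').1.isMaximal (hQ P' hP').2.1
      exact Ideal.isCoprime_iff_sup_eq.2 (Ideal.IsMaximal.coprime_of_ne hm hm' hne)
    · intro P hP
      rw [Ideal.dvd_span_singleton]
      exact (hQ P hP).2.2
  have hn : Ideal.absNorm (Ideal.span {(p : 𝓞 L)}) = p ^ Module.finrank ℤ (𝓞 L) := by
    rw [Ideal.absNorm_span_singleton]
    have h2 : ((p : ℕ) : 𝓞 L) = algebraMap ℤ (𝓞 L) (p : ℤ) := by simp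
    rw [h2, Algebra.norm_algebraMap, Int.natAbs_pow, Int.natAbs_natCast]
  have h3 : ∏ P ∈ Q, Ideal.absNorm P ≤ p ^ Module.finrank ℤ (𝓞 L) := by
    rw [← map_prod, ← hn]
    refine Nat.le_of_dvd ?_ (map_dvd Ideal.absNorm h2)
    rw [hn]
    exact pow_pos hp.pos _
  have h4 : p ^ Q.card ≤ ∏ P ∈ Q, Ideal.absNorm P := by
    refine Finset.pow_card_le_prod _ _ _ fun P hP => ?_
    obtain ⟨q, f, hq, hqP, hf, hf1⟩ := d1_under P (hQ P hP).1 (hQ P hP).2.1
    have hpq : q = p := by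
      by_contra hne
      have hc : Nat.Coprime p q := (Nat.coprime_primes hp hq).2 (fun h => hne h.symm)
      have h5 : (1 : 𝓞 L) ∈ P := by
        have h6 : IsCoprime (p : ℤ) (q : ℤ) := Nat.isCoprime_iff_coprime.2 hc
        obtain ⟨a, b, hab⟩ := h6
        have h7 : (1 : 𝓞 L) = (a : 𝓞 L) * (p : 𝓞 L) + (b : 𝓞 L) * (q : 𝓞 L) := by
          exact_mod_cast hab.symm
        rw [h7]
        exact P.add_mem (P.mul_mem_left _ (hQ P hP).2.2) (P.mul_mem_left _ hqP)
      exact (hQ P hP).1.ne_top ((Ideal.eq_top_iff_one P).2 h5)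
    rw [hf, hpq]
    calc p = p ^ 1 := (pow_one p).symm
      _ ≤ p ^ f := Nat.pow_le_pow_right hp.pos hf1
  exact (Nat.pow_le_pow_iff_right hp.one_lt).1 (h4.trans h3)

/-- a degree one prime gives a homomorphism to `ZMod p` -/
private theorem d1_hom {L : Type} [Field L] [NumberField L] (P : Ideal (𝓞 L))
    (hp : (Ideal.absNorm P).Prime) : Nonempty (𝓞 L →+* ZMod (Ideal.absNorm P)) := by
  have hc : Nat.card (𝓞 L ⧸ P) = Ideal.absNorm P := by
    rw [Ideal.absNorm_apply, Submodule.cardQuot_apply]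
  have : Finite (𝓞 L ⧸ P) := by
    apply Nat.finite_of_card_ne_zero
    rw [hc]
    exact hp.ne_zero
  have := Fintype.ofFinite (𝓞 L ⧸ P)
  have h1 : Fintype.card (𝓞 L ⧸ P) = Ideal.absNorm P := by
    rw [← Nat.card_eq_fintype_card, hc]
  exact ⟨(ZMod.ringEquivOfPrime (𝓞 L ⧸ P) hp h1).symm.toRingHom.comp (Ideal.Quotient.mk P)⟩

/-- `log N(I)` is at most the sum over the prime powers dividing `I` -/
private theorem d1_fac {L : Type} [Field L] [NumberField L] (x : ℝ) (I : Ideal (𝓞 L))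
    (hI0 : I ≠ 0) (hI : (Ideal.absNorm I : ℝ) ≤ x) (Pr : Finset (Ideal (𝓞 L)))
    (hPr : ∀ P : Ideal (𝓞 L), P.IsPrime → P ≠ 0 → (Ideal.absNorm P : ℝ) ≤ x → P ∈ Pr) (K : ℕ)
    (hK : x ≤ K) [∀ (P : Ideal (𝓞 L)) (k : ℕ), Decidable (P ^ k ∣ I)] :
    Real.log (Ideal.absNorm I) ≤
      ∑ P ∈ Pr, ∑ k ∈ Icc 1 K, if P ^ k ∣ I then Real.log (Ideal.absNorm P) else 0 := by
  classical
  have hpos : ∀ J : Ideal (𝓞 L), J ≠ 0 → 1 ≤ Ideal.absNorm J := fun J hJ =>
    Nat.one_le_iff_ne_zero.2 fun h => hJ (Ideal.absNorm_eq_zero_iff.1 h)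
  set F := (UniqueFactorizationMonoid.normalizedFactors I).toFinset with hF
  set c : Ideal (𝓞 L) → ℕ := fun P =>
    (UniqueFactorizationMonoid.normalizedFactors I).count P with hc
  have hprod : I = ∏ P ∈ F, P ^ c P := by
    have h1 := Ideal.prod_normalizedFactors_eq_self (I := I) hI0
    rw [Finset.prod_multiset_count] at h1
    exact h1.symm
  have hFp : ∀ P ∈ F, P.IsPrime ∧ P ≠ 0 ∧ P ^ c P ∣ I ∧ 1 ≤ c P := by
    intro P hP
    rw [hF, Multiset.mem_toFinset] at hP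
    have hpr := UniqueFactorizationMonoid.prime_of_normalized_factor P hP
    refine ⟨Ideal.isPrime_of_prime hpr, hpr.ne_zero, ?_, Multiset.one_le_count_iff_mem.2 hP⟩
    have h2 : P ^ c P ∣ ∏ P ∈ F, P ^ c P :=
      Finset.dvd_prod_of_mem (fun P => P ^ c P) (by rw [hF, Multiset.mem_toFinset]; exact hP)
    rwa [← hprod] at h2
  have hle : ∀ J : Ideal (𝓞 L), J ∣ I → Ideal.absNorm J ≤ Ideal.absNorm I := fun J hJ =>
    Nat.le_of_dvd (hpos I hI0) (map_dvd Ideal.absNorm hJ)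
  have hN2 : ∀ P ∈ F, 2 ≤ Ideal.absNorm P := by
    intro P hP
    have h1 := hpos P (hFp P hP).2.1
    have h2 : Ideal.absNorm P ≠ 1 := fun h =>
      (hFp P hP).1.ne_top (Ideal.absNorm_eq_one_iff.1 h)
    omega
  have hcK : ∀ P ∈ F, c P ≤ K := by
    intro P hP
    have h1 := hle _ (hFp P hP).2.2.1
    rw [map_pow] at h1
    have h2 : c P < 2 ^ c P := Nat.lt_two_pow_self
    have h3 : 2 ^ c P ≤ Ideal.absNorm P ^ c P := Nat.pow_le_pow_left (hN2 P hP) _
    have h4 : (Ideal.absNorm I : ℝ) ≤ K := hI.trans hK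
    have h5 : Ideal.absNorm I ≤ K := by exact_mod_cast h4
    omega
  have hFPr : F ⊆ Pr := by
    intro P hP
    refine hPr P (hFp P hP).1 (hFp P hP).2.1 (le_trans ?_ hI)
    have h1 : P ∣ I := (dvd_pow_self P (by have := (hFp P hP).2.2.2; omega)).trans
      (hFp P hP).2.2.1
    exact_mod_cast hle P h1
  have hlog : Real.log (Ideal.absNorm I) = ∑ P ∈ F, (c P : ℝ) * Real.log (Ideal.absNorm P) := by
    conv_lhs => rw [hprod]
    rw [map_prod, Nat.cast_prod, Real.log_prod]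
    · refine Finset.sum_congr rfl fun P _ => ?_
      rw [map_pow, Nat.cast_pow, Real.log_pow]
    · intro P hP
      rw [map_pow, Nat.cast_pow]
      have := hN2 P hP
      have h1 : (Ideal.absNorm P : ℝ) ≠ 0 := by
        have : Ideal.absNorm P ≠ 0 := by omega
        exact_mod_cast this
      exact pow_ne_zero _ h1
  rw [hlog]
  have hnn : ∀ P : Ideal (𝓞 L), 0 ≤ Real.log (Ideal.absNorm P) := fun P =>
    Real.log_natCast_nonneg _
  calc ∑ P ∈ F, (c P : ℝ) * Real.log (Ideal.absNorm P)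
      ≤ ∑ P ∈ F, ∑ k ∈ Icc 1 K, if P ^ k ∣ I then Real.log (Ideal.absNorm P) else 0 := by
        refine Finset.sum_le_sum fun P hP => ?_
        rw [← Finset.sum_filter, Finset.sum_const, nsmul_eq_mul]
        refine mul_le_mul_of_nonneg_right ?_ (hnn P)
        rw [Nat.cast_le]
        have h1 : Icc 1 (c P) ⊆ (Icc 1 K).filter (fun k => P ^ k ∣ I) := by
          intro k hk
          rw [Finset.mem_Icc] at hk
          rw [Finset.mem_filter, Finset.mem_Icc]
          exact ⟨⟨hk.1, hk.2.trans (hcK P hP)⟩,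
            (pow_dvd_pow P hk.2).trans (hFp P hP).2.2.1⟩
        have h2 := Finset.card_le_card h1
        rwa [Nat.card_Icc, Nat.add_sub_cancel] at h2
    _ ≤ ∑ P ∈ Pr, ∑ k ∈ Icc 1 K, if P ^ k ∣ I then Real.log (Ideal.absNorm P) else 0 := by
        refine Finset.sum_le_sum_of_subset_of_nonneg hFPr fun P _ _ => ?_
        refine Finset.sum_nonneg fun k _ => ?_
        split_ifs
        · exact hnn P
        · exact le_rfl

/-- the geometric sum -/
private theorem d1_geo (N : ℝ) (hN : 2 ≤ N) (K : ℕ) :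
    ∑ k ∈ Icc 1 K, 1 / N ^ k ≤ 1 / N + 2 / N ^ 2 := by
  have h0 : 0 < N := by linarith
  have key : ∀ K : ℕ, ∑ k ∈ Icc 1 K, 1 / N ^ k = (1 - 1 / N ^ K) / (N - 1) := by
    intro K
    induction K with
    | zero => simp
    | succ K ih =>
      rw [Finset.sum_Icc_succ_top (by omega), ih]
      have h1 : N - 1 ≠ 0 := by linarith
      field_simp
      ring
  rw [key K]
  have h1 : (1 - 1 / N ^ K) / (N - 1) ≤ 1 / (N - 1) := by
    apply div_le_div_of_nonneg_right _ (by linarith)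
    have : 0 ≤ 1 / N ^ K := by positivity
    linarith
  refine h1.trans ?_
  rw [div_add_div _ _ (ne_of_gt h0) (by positivity), div_le_div_iff₀ (by linarith) (by positivity)]
  nlinarith [sq_nonneg N, mul_pos h0 h0]

/-- the sum of `log p/p^2` is bounded -/
private theorem d1_sq : ∃ D : ℝ, 0 ≤ D ∧ ∀ x : ℕ, ∑ p ∈ PL x, Real.log p / (p : ℝ) ^ 2 ≤ D := by
  have hs : Summable (fun n : ℕ => 2 * (1 / (n : ℝ) ^ (3 / 2 : ℝ))) :=
    (Real.summable_one_div_nat_rpow.mpr (by norm_num)).mul_left 2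
  refine ⟨∑' n : ℕ, 2 * (1 / (n : ℝ) ^ (3 / 2 : ℝ)), tsum_nonneg fun n => by positivity,
    fun x => ?_⟩
  refine le_trans (Finset.sum_le_sum fun p hp => ?_)
    (hs.sum_le_tsum (PL x) fun n _ => by positivity)
  rw [mem_PL] at hp
  have hp0 : (0 : ℝ) < p := by exact_mod_cast hp.2.pos
  have h1 : Real.log p ≤ 2 * (p : ℝ) ^ (1 / 2 : ℝ) := by
    have h2 := Real.log_le_rpow_div hp0.le (ε := 1 / 2) (by norm_num)
    linarith
  have h3 : 2 * (1 / (p : ℝ) ^ (3 / 2 : ℝ)) = 2 * (p : ℝ) ^ (1 / 2 : ℝ) / (p : ℝ) ^ 2 := by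
    have h4 : (p : ℝ) ^ 2 = (p : ℝ) ^ (1 / 2 : ℝ) * (p : ℝ) ^ (3 / 2 : ℝ) := by
      rw [← Real.rpow_add hp0, ← Real.rpow_natCast]
      norm_num
    rw [h4]
    have h5 : (p : ℝ) ^ (1 / 2 : ℝ) ≠ 0 := by positivity
    have h6 : (p : ℝ) ^ (3 / 2 : ℝ) ≠ 0 := by positivity
    field_simp
  rw [h3]
  exact div_le_div_of_nonneg_right h1 (by positivity)

/-- the term of a prime ideal of norm `p^f` -/
private theorem d1_term (p f : ℕ) (hp : p.Prime) (hf : 1 ≤ f) :
    Real.log ((p : ℝ) ^ f) * (1 / (p : ℝ) ^ f + 2 / ((p : ℝ) ^ f) ^ 2) ≤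
      (if f = 1 then Real.log p / p else 0) + 4 * (Real.log p / (p : ℝ) ^ 2) := by
  have hp0 : (0 : ℝ) < p := by exact_mod_cast hp.pos
  have hp2 : (2 : ℝ) ≤ p := by exact_mod_cast hp.two_le
  have hl : 0 ≤ Real.log p := Real.log_natCast_nonneg _
  rw [Real.log_pow]
  have h2 : (f : ℝ) * Real.log p * (2 / ((p : ℝ) ^ f) ^ 2) ≤ 2 * (Real.log p / (p : ℝ) ^ 2) := by
    have h3 : (f : ℝ) * (p : ℝ) ^ 2 ≤ ((p : ℝ) ^ f) ^ 2 := by
      obtain ⟨g, rfl⟩ := Nat.exists_eq_add_of_le hf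
      have h4 : ((1 + g : ℕ) : ℝ) ≤ (2 : ℝ) ^ g := by
        have : 1 + g ≤ 2 ^ g := by
          have := Nat.lt_two_pow_self (n := g)
          omega
        exact_mod_cast this
      have h5 : (2 : ℝ) ^ g ≤ (p : ℝ) ^ g := pow_le_pow_left₀ (by norm_num) hp2 g
      have h6 : (1 : ℝ) ≤ (p : ℝ) ^ g := one_le_pow₀ (by linarith)
      have h7 : ((p : ℝ) ^ (1 + g)) ^ 2 = (p : ℝ) ^ g * (p : ℝ) ^ g * (p : ℝ) ^ 2 := by
        ring
      rw [h7]
      refine mul_le_mul_of_nonneg_right ?_ (by positivity)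
      nlinarith
    have h8 : (f : ℝ) * Real.log p * (2 / ((p : ℝ) ^ f) ^ 2) =
        2 * (f * Real.log p) / ((p : ℝ) ^ f) ^ 2 := by ring
    have h9 : 2 * (Real.log p / (p : ℝ) ^ 2) = 2 * Real.log p / (p : ℝ) ^ 2 := by ring
    rw [h8, h9, div_le_div_iff₀ (by positivity) (by positivity)]
    nlinarith
  rw [mul_add]
  split_ifs with h
  · subst h
    have h10 : ((1 : ℕ) : ℝ) * Real.log p * (1 / (p : ℝ) ^ 1) = Real.log p / p := by
      rw [pow_one, Nat.cast_one]
      ring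
    rw [h10]
    have : 0 ≤ Real.log p / (p : ℝ) ^ 2 := by positivity
    linarith
  · have h11 : (f : ℝ) * Real.log p * (1 / (p : ℝ) ^ f) ≤ 2 * (Real.log p / (p : ℝ) ^ 2) := by
      have hf2 : 2 ≤ f := by omega
      obtain ⟨g, rfl⟩ := Nat.exists_eq_add_of_le hf2
      have h4 : ((2 + g : ℕ) : ℝ) ≤ 2 * (2 : ℝ) ^ g := by
        have : 2 + g ≤ 2 * 2 ^ g := by
          have := Nat.lt_two_pow_self (n := g)
          omega
        exact_mod_cast this
      have h5 : (2 : ℝ) ^ g ≤ (p : ℝ) ^ g := pow_le_pow_left₀ (by norm_num) hp2 g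
      have h8 : ((2 + g : ℕ) : ℝ) * Real.log p * (1 / (p : ℝ) ^ (2 + g)) =
          ((2 + g : ℕ) : ℝ) * Real.log p / ((p : ℝ) ^ (2 + g)) := by ring
      have h9 : 2 * (Real.log p / (p : ℝ) ^ 2) = 2 * Real.log p / (p : ℝ) ^ 2 := by ring
      rw [h8, h9, div_le_div_iff₀ (by positivity) (by positivity), pow_add]
      have h12 : ((2 + g : ℕ) : ℝ) ≤ 2 * (p : ℝ) ^ g := by linarith
      have h13 : 0 ≤ Real.log p * (p : ℝ) ^ 2 := by positivity
      nlinarith
    linarith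

/-- the number of ideals divisible by `J` -/
private theorem d1_div' {L : Type} [Field L] [NumberField L] (x : ℝ)
    (J : Ideal (𝓞 L)) (hJ : J ≠ 0) [∀ I : Ideal (𝓞 L), Decidable (J ∣ I)] :
    (((idC_fin L x).toFinset.filter (fun I => J ∣ I)).card : ℝ) ≤
      idc L (x / Ideal.absNorm J) := by
  classical
  have hpos : ∀ J : Ideal (𝓞 L), J ≠ 0 → 1 ≤ Ideal.absNorm J := fun J hJ =>
    Nat.one_le_iff_ne_zero.2 fun h => hJ (Ideal.absNorm_eq_zero_iff.1 h)
  have hJ1 : (1 : ℝ) ≤ Ideal.absNorm J := by exact_mod_cast hpos J hJ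
  rw [idC_card, Nat.cast_le]
  refine Finset.card_le_card_of_surjOn (fun I => J * I) ?_
  intro I hI
  rw [Finset.mem_coe, Finset.mem_filter, Set.Finite.mem_toFinset] at hI
  obtain ⟨⟨hI0, hIx⟩, ⟨I', rfl⟩⟩ := hI
  refine ⟨I', ?_, rfl⟩
  rw [Finset.mem_coe, Set.Finite.mem_toFinset]
  refine ⟨right_ne_zero_of_mul hI0, ?_⟩
  rw [le_div_iff₀ (by linarith)]
  rw [map_mul, Nat.cast_mul] at hIx
  linarith

/-- the sum over `k ≥ 2` -/
private theorem d2_geo (N : ℝ) (hN : 2 ≤ N) (K : ℕ) (hK : 1 ≤ K) :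
    ∑ k ∈ (Icc 1 K).erase 1, 1 / N ^ k ≤ 2 / N ^ 2 := by
  have h1 := d1_geo N hN K
  have h2 : ∑ k ∈ (Icc 1 K).erase 1, 1 / N ^ k + 1 / N ^ 1 = ∑ k ∈ Icc 1 K, 1 / N ^ k :=
    Finset.sum_erase_add _ _ (Finset.mem_Icc.2 ⟨le_rfl, hK⟩)
  rw [pow_one] at h2
  linarith

/-- the two parts of the term of a prime ideal of norm `p^f` -/
private theorem d2_term (p f : ℕ) (hp : p.Prime) (hf : 1 ≤ f) :
    Real.log ((p : ℝ) ^ f) * ((if f = 1 then 0 else 1 / (p : ℝ) ^ f) + 2 / ((p : ℝ) ^ f) ^ 2) ≤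
      4 * (Real.log p / (p : ℝ) ^ 2) := by
  have h := d1_term p f hp hf
  by_cases h1 : f = 1
  · subst h1
    rw [if_pos rfl] at h ⊢
    rw [pow_one] at h ⊢
    rw [mul_add] at h
    rw [zero_add]
    have e : Real.log (p : ℝ) * (1 / (p : ℝ)) = Real.log p / p := by ring
    rw [e] at h
    linarith
  · rw [if_neg h1] at h ⊢
    linarith

open Classical in
/-- the upper bound -/
private theorem d2_upper (L : Type) [Field L] [NumberField L] (C : ℝ) (hC0 : 0 < C)
    (hC : ∀ y : ℝ, 1 ≤ y → (idc L y : ℝ) ≤ C * y) (D : ℝ)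
    (hD : ∀ x : ℕ, ∑ p ∈ PL x, Real.log p / (p : ℝ) ^ 2 ≤ D) (x : ℕ) (hx : 1 ≤ x) :
    ∑ I ∈ (idC_fin L x).toFinset, Real.log (Ideal.absNorm I) ≤
      ∑ p ∈ PL x, ((QQ L p).card : ℝ) * (Real.log p * idc L ((x : ℝ) / p)) +
        C * x * (Module.finrank ℤ (𝓞 L) * (4 * D)) := by
  have hpos : ∀ J : Ideal (𝓞 L), J ≠ 0 → 1 ≤ Ideal.absNorm J := fun J hJ =>
    Nat.one_le_iff_ne_zero.2 fun h => hJ (Ideal.absNorm_eq_zero_iff.1 h)
  set S := (idC_fin L x).toFinset with hS
  set Pr := S.filter (fun P => P.IsPrime) with hPr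
  have hSm : ∀ I, I ∈ S ↔ I ≠ 0 ∧ (Ideal.absNorm I : ℝ) ≤ x := by
    intro I
    rw [hS, Set.Finite.mem_toFinset]
    rfl
  have hPrm : ∀ P ∈ Pr, P.IsPrime ∧ P ≠ 0 ∧ (Ideal.absNorm P : ℝ) ≤ x := by
    intro P hP
    rw [hPr, Finset.mem_filter, hSm] at hP
    exact ⟨hP.2, hP.1.1, hP.1.2⟩
  have hnn : ∀ P : Ideal (𝓞 L), 0 ≤ Real.log (Ideal.absNorm P) := fun P =>
    Real.log_natCast_nonneg _
  have hx0 : (0 : ℝ) ≤ x := Nat.cast_nonneg _
  have hP2 : ∀ P ∈ Pr, (2 : ℝ) ≤ Ideal.absNorm P := by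
    intro P hP
    have h5 := hpos P (hPrm P hP).2.1
    have h6 : Ideal.absNorm P ≠ 1 := fun h =>
      (hPrm P hP).1.ne_top (Ideal.absNorm_eq_one_iff.1 h)
    have : 2 ≤ Ideal.absNorm P := by omega
    exact_mod_cast this
  -- the number of ideals divisible by `P ^ k`, crude
  have hcrude : ∀ P ∈ Pr, ∀ k : ℕ, ((S.filter (fun I => P ^ k ∣ I)).card : ℝ) ≤
      C * x * (1 / (Ideal.absNorm P : ℝ) ^ k) := by
    intro P hP k
    have hN : (Ideal.absNorm (P ^ k) : ℝ) = (Ideal.absNorm P : ℝ) ^ k := by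
      rw [map_pow, Nat.cast_pow]
    have hN0 : (0 : ℝ) < (Ideal.absNorm P : ℝ) ^ k := by
      have := hP2 P hP
      positivity
    rcases le_or_gt (Ideal.absNorm (P ^ k) : ℝ) x with h | h
    · have h1 := d1_div' (x : ℝ) (P ^ k) (pow_ne_zero _ (hPrm P hP).2.1)
      refine h1.trans ((hC _ ?_).trans (le_of_eq ?_))
      · rw [hN] at h ⊢
        rw [le_div_iff₀ hN0]
        linarith
      · rw [hN]
        ring
    · have h1 : S.filter (fun I => P ^ k ∣ I) = ∅ := by
        rw [Finset.filter_eq_empty_iff]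
        intro I hI hJI
        rw [hSm] at hI
        have h2 : Ideal.absNorm (P ^ k) ≤ Ideal.absNorm I :=
          Nat.le_of_dvd (hpos I hI.1) (map_dvd Ideal.absNorm hJI)
        have h3 : (Ideal.absNorm (P ^ k) : ℝ) ≤ Ideal.absNorm I := by exact_mod_cast h2
        linarith [hI.2]
      rw [h1, Finset.card_empty, Nat.cast_zero]
      positivity
  -- split each prime ideal
  have hsplit : ∀ P ∈ Pr, ∑ k ∈ Icc 1 x, ((S.filter (fun I => P ^ k ∣ I)).card : ℝ) *
        Real.log (Ideal.absNorm P) ≤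
      (if (Ideal.absNorm P).Prime then Real.log (Ideal.absNorm P) *
          idc L ((x : ℝ) / Ideal.absNorm P) else 0) +
        C * x * (Real.log (Ideal.absNorm P) *
          ((if (Ideal.absNorm P).Prime then 0 else 1 / (Ideal.absNorm P : ℝ)) +
            2 / (Ideal.absNorm P : ℝ) ^ 2)) := by
    intro P hP
    have e : ∑ k ∈ Icc 1 x, ((S.filter (fun I => P ^ k ∣ I)).card : ℝ) *
        Real.log (Ideal.absNorm P) =
        ∑ k ∈ (Icc 1 x).erase 1, ((S.filter (fun I => P ^ k ∣ I)).card : ℝ) *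
        Real.log (Ideal.absNorm P) + ((S.filter (fun I => P ^ 1 ∣ I)).card : ℝ) *
        Real.log (Ideal.absNorm P) :=
      (Finset.sum_erase_add _ _ (Finset.mem_Icc.2 ⟨le_rfl, hx⟩)).symm
    have h1 : ∑ k ∈ (Icc 1 x).erase 1, ((S.filter (fun I => P ^ k ∣ I)).card : ℝ) *
        Real.log (Ideal.absNorm P) ≤
        C * x * (Real.log (Ideal.absNorm P) * (2 / (Ideal.absNorm P : ℝ) ^ 2)) := by
      calc ∑ k ∈ (Icc 1 x).erase 1, ((S.filter (fun I => P ^ k ∣ I)).card : ℝ) *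
            Real.log (Ideal.absNorm P)
          ≤ ∑ k ∈ (Icc 1 x).erase 1, C * x * (1 / (Ideal.absNorm P : ℝ) ^ k) *
            Real.log (Ideal.absNorm P) :=
            Finset.sum_le_sum fun k _ => mul_le_mul_of_nonneg_right (hcrude P hP k) (hnn P)
        _ = C * x * Real.log (Ideal.absNorm P) *
              ∑ k ∈ (Icc 1 x).erase 1, 1 / (Ideal.absNorm P : ℝ) ^ k := by
            rw [Finset.mul_sum]
            refine Finset.sum_congr rfl fun k _ => ?_
            ring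
        _ ≤ C * x * Real.log (Ideal.absNorm P) * (2 / (Ideal.absNorm P : ℝ) ^ 2) :=
            mul_le_mul_of_nonneg_left (d2_geo _ (hP2 P hP) x hx)
              (mul_nonneg (mul_nonneg hC0.le hx0) (hnn P))
        _ = _ := by ring
    rw [e]
    by_cases hpr : (Ideal.absNorm P).Prime
    · rw [if_pos hpr, if_pos hpr]
      have h2 := d1_div' (x : ℝ) (P ^ 1) (pow_ne_zero _ (hPrm P hP).2.1)
      rw [map_pow, pow_one, ← hS] at h2
      have h3 := mul_le_mul_of_nonneg_right h2 (hnn P)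
      rw [zero_add]
      rw [pow_one] at h3 ⊢
      linarith
    · rw [if_neg hpr, if_neg hpr]
      have h2 := mul_le_mul_of_nonneg_right (hcrude P hP 1) (hnn P)
      rw [zero_add, mul_add, mul_add]
      have h4 : C * x * (1 / (Ideal.absNorm P : ℝ) ^ 1) * Real.log (Ideal.absNorm P) =
          C * x * (Real.log (Ideal.absNorm P) * (1 / (Ideal.absNorm P : ℝ))) := by
        rw [pow_one]
        ring
      rw [h4] at h2
      linarith
  have h1 : ∑ I ∈ S, Real.log (Ideal.absNorm I) ≤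
      ∑ P ∈ Pr, ((if (Ideal.absNorm P).Prime then Real.log (Ideal.absNorm P) *
          idc L ((x : ℝ) / Ideal.absNorm P) else 0) +
        C * x * (Real.log (Ideal.absNorm P) *
          ((if (Ideal.absNorm P).Prime then 0 else 1 / (Ideal.absNorm P : ℝ)) +
            2 / (Ideal.absNorm P : ℝ) ^ 2))) := by
    calc ∑ I ∈ S, Real.log (Ideal.absNorm I)
        ≤ ∑ I ∈ S, ∑ P ∈ Pr, ∑ k ∈ Icc 1 x,
            if P ^ k ∣ I then Real.log (Ideal.absNorm P) else 0 := by
          refine Finset.sum_le_sum fun I hI => ?_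
          rw [hSm] at hI
          refine d1_fac (x : ℝ) I hI.1 hI.2 Pr ?_ x le_rfl
          intro P hP hP0 hPx
          rw [hPr, Finset.mem_filter, hSm]
          exact ⟨⟨hP0, hPx⟩, hP⟩
      _ = ∑ P ∈ Pr, ∑ k ∈ Icc 1 x, ((S.filter (fun I => P ^ k ∣ I)).card : ℝ) *
            Real.log (Ideal.absNorm P) := by
          rw [Finset.sum_comm]
          refine Finset.sum_congr rfl fun P _ => ?_
          rw [Finset.sum_comm]
          refine Finset.sum_congr rfl fun k _ => ?_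
          rw [← Finset.sum_filter, Finset.sum_const, nsmul_eq_mul]
      _ ≤ _ := Finset.sum_le_sum hsplit
  rw [Finset.sum_add_distrib, ← Finset.mul_sum] at h1
  refine h1.trans (add_le_add ?_ (mul_le_mul_of_nonneg_left ?_ (mul_nonneg hC0.le hx0)))
  · -- main part
    rw [← Finset.sum_filter]
    have hmaps : ∀ P ∈ Pr.filter (fun P => (Ideal.absNorm P).Prime),
        Ideal.absNorm P ∈ PL x := by
      intro P hP
      rw [Finset.mem_filter] at hP
      rw [mem_PL]
      refine ⟨?_, hP.2⟩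
      exact_mod_cast (hPrm P hP.1).2.2
    rw [← Finset.sum_fiberwise_of_maps_to hmaps]
    refine Finset.sum_le_sum fun p hp => ?_
    rw [mem_PL] at hp
    have hp0 : 0 ≤ Real.log (p : ℝ) * idc L ((x : ℝ) / p) :=
      mul_nonneg (Real.log_natCast_nonneg _) (Nat.cast_nonneg _)
    have e1 : ∑ P ∈ (Pr.filter (fun P => (Ideal.absNorm P).Prime)).filter
        (fun P => Ideal.absNorm P = p), Real.log (Ideal.absNorm P) *
          idc L ((x : ℝ) / Ideal.absNorm P) =
        (((Pr.filter (fun P => (Ideal.absNorm P).Prime)).filter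
          (fun P => Ideal.absNorm P = p)).card : ℝ) *
          (Real.log (p : ℝ) * idc L ((x : ℝ) / p)) := by
      rw [← nsmul_eq_mul, ← Finset.sum_const]
      refine Finset.sum_congr rfl fun P hP => ?_
      rw [Finset.mem_filter] at hP
      rw [hP.2]
    rw [e1]
    refine mul_le_mul_of_nonneg_right ?_ hp0
    rw [Nat.cast_le]
    refine Finset.card_le_card fun P hP => ?_
    rw [Finset.mem_filter, Finset.mem_filter] at hP
    rw [QQ, Finset.mem_filter, Set.Finite.mem_toFinset]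
    refine ⟨⟨(hPrm P hP.1.1).2.1, ?_⟩, (hPrm P hP.1.1).1, hP.2⟩
    rw [hP.2]
  -- the prime below
  have hund : ∀ P : Ideal (𝓞 L), ∃ p f : ℕ, P ∈ Pr → (p.Prime ∧ (p : 𝓞 L) ∈ P ∧
      Ideal.absNorm P = p ^ f ∧ 1 ≤ f) := by
    intro P
    by_cases hP : P ∈ Pr
    · obtain ⟨p, f, h⟩ := d1_under P (hPrm P hP).1 (hPrm P hP).2.1
      exact ⟨p, f, fun _ => h⟩
    · exact ⟨0, 0, fun h => absurd h hP⟩
  choose π φ hπ using hund
  set h : ℕ → ℝ := fun p => 4 * (Real.log p / (p : ℝ) ^ 2) with hh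
  have hh0 : ∀ p, 0 ≤ h p := by
    intro p
    rw [hh]
    have h2 : 0 ≤ Real.log (p : ℝ) := Real.log_natCast_nonneg _
    positivity
  have hπx : ∀ P ∈ Pr, π P ∈ PL x := by
    intro P hP
    obtain ⟨hp, _, hN, hf⟩ := hπ P hP
    rw [mem_PL]
    refine ⟨?_, hp⟩
    have h2 : π P ≤ π P ^ φ P := by
      calc π P = π P ^ 1 := (pow_one _).symm
        _ ≤ π P ^ φ P := Nat.pow_le_pow_right hp.pos hf
    have h3 : (Ideal.absNorm P : ℝ) ≤ x := (hPrm P hP).2.2
    have h4 : Ideal.absNorm P ≤ x := by exact_mod_cast h3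
    rw [hN] at h4
    exact h2.trans h4
  calc ∑ P ∈ Pr, Real.log (Ideal.absNorm P) *
        ((if (Ideal.absNorm P).Prime then 0 else 1 / (Ideal.absNorm P : ℝ)) +
          2 / (Ideal.absNorm P : ℝ) ^ 2)
      ≤ ∑ P ∈ Pr, h (π P) := by
        refine Finset.sum_le_sum fun P hP => ?_
        obtain ⟨hp, hpP, hN, hf⟩ := hπ P hP
        have h2 := d2_term (π P) (φ P) hp hf
        refine le_trans (le_of_eq ?_) h2
        have e2 : (Ideal.absNorm P).Prime ↔ φ P = 1 := by
          rw [hN]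
          constructor
          · intro h3
            exact (Nat.Prime.eq_one_of_pow h3)
          · intro h3
            rw [h3, pow_one]
            exact hp
        have e3 : (Ideal.absNorm P : ℝ) = (π P : ℝ) ^ φ P := by
          rw [hN, Nat.cast_pow]
        rw [e3]
        congr 2
        by_cases h3 : φ P = 1
        · rw [if_pos h3, if_pos (e2.2 h3)]
        · rw [if_neg h3, if_neg (fun h4 => h3 (e2.1 h4))]
    _ = ∑ p ∈ PL x, ∑ P ∈ Pr.filter (fun P => π P = p), h (π P) := by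
        rw [Finset.sum_fiberwise_of_maps_to hπx]
    _ ≤ ∑ p ∈ PL x, (Module.finrank ℤ (𝓞 L) : ℝ) * h p := by
        refine Finset.sum_le_sum fun p hp => ?_
        rw [mem_PL] at hp
        have h2 : ∑ P ∈ Pr.filter (fun P => π P = p), h (π P) =
            ((Pr.filter (fun P => π P = p)).card : ℝ) * h p := by
          rw [← nsmul_eq_mul, ← Finset.sum_const]
          refine Finset.sum_congr rfl fun P hP => ?_
          rw [Finset.mem_filter] at hP
          rw [hP.2]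
        rw [h2]
        refine mul_le_mul_of_nonneg_right ?_ (hh0 p)
        rw [Nat.cast_le]
        refine d1_card p hp.2 _ fun P hP => ?_
        rw [Finset.mem_filter] at hP
        refine ⟨(hPrm P hP.1).1, (hPrm P hP.1).2.1, ?_⟩
        have h3 := (hπ P hP.1).2.1
        rwa [hP.2] at h3
    _ = (Module.finrank ℤ (𝓞 L) : ℝ) * (4 * ∑ p ∈ PL x, Real.log p / (p : ℝ) ^ 2) := by
        rw [← Finset.mul_sum, hh, ← Finset.mul_sum]
    _ ≤ _ := by
        refine mul_le_mul_of_nonneg_left ?_ (Nat.cast_nonneg _)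
        linarith [hD x]

/-- the lower bound -/
private theorem d2_lower (L : Type) [Field L] [NumberField L] (κ : ℝ) (hκ : 0 < κ) (η : ℝ)
    (hη : 0 < η) (hη1 : η ≤ 1 / 4) (y₀ : ℝ) (hy1 : 1 ≤ y₀)
    (hy₀ : ∀ y : ℝ, y₀ ≤ y → (1 - η) * κ * y ≤ idc L y ∧
      (idc L y : ℝ) ≤ (1 + η) * κ * y) (x : ℝ) (hx : y₀ ≤ η * x) :
    (1 - 3 * η) * κ * x * (Real.log x + Real.log η) ≤
      ∑ I ∈ (idC_fin L x).toFinset, Real.log (Ideal.absNorm I) := by
  classical
  set S := (idC_fin L x).toFinset with hS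
  set S' := (idC_fin L (η * x)).toFinset with hS'
  have hx0 : 0 < x := by
    by_contra hcon
    push Not at hcon
    have : η * x ≤ 0 := mul_nonpos_of_nonneg_of_nonpos hη.le hcon
    linarith
  have hηx : η * x ≤ x := by nlinarith
  have hηx0 : 0 < η * x := mul_pos hη hx0
  have hsub : S' ⊆ S := by
    intro I hI
    rw [hS', Set.Finite.mem_toFinset] at hI
    rw [hS, Set.Finite.mem_toFinset]
    exact ⟨hI.1, hI.2.trans hηx⟩
  have h1 := (hy₀ x (by linarith)).1
  have h2 := (hy₀ (η * x) hx).2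
  rw [idC_card] at h1 h2
  have h3 : ((S \ S').card : ℝ) = (S.card : ℝ) - S'.card := by
    have := Finset.card_sdiff_add_card_eq_card hsub
    have h4 : ((S \ S').card : ℝ) + S'.card = S.card := by exact_mod_cast this
    linarith
  have h5 : (1 - 3 * η) * κ * x ≤ ((S \ S').card : ℝ) := by
    rw [h3]
    have h6 : 0 < κ * x := mul_pos hκ hx0
    have h7 : (1 + η) * κ * (η * x) = (η + η ^ 2) * (κ * x) := by ring
    have h8 : (1 - 3 * η) * κ * x = (1 - 3 * η) * (κ * x) := by ring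
    have h9 : (1 - η) * κ * x = (1 - η) * (κ * x) := by ring
    rw [h8]
    rw [h7] at h2
    rw [h9] at h1
    have h10 : (1 - 3 * η) * (κ * x) ≤ (1 - η - (η + η ^ 2)) * (κ * x) :=
      mul_le_mul_of_nonneg_right (by nlinarith) h6.le
    linarith
  have hlog : Real.log (η * x) = Real.log x + Real.log η := by
    rw [Real.log_mul hη.ne' hx0.ne']
    ring
  have hlx : 0 ≤ Real.log (η * x) := Real.log_nonneg (by linarith)
  calc (1 - 3 * η) * κ * x * (Real.log x + Real.log η)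
      = (1 - 3 * η) * κ * x * Real.log (η * x) := by rw [hlog]
    _ ≤ ((S \ S').card : ℝ) * Real.log (η * x) :=
        mul_le_mul_of_nonneg_right h5 hlx
    _ = ∑ I ∈ S \ S', Real.log (η * x) := by
        rw [Finset.sum_const, nsmul_eq_mul]
    _ ≤ ∑ I ∈ S \ S', Real.log (Ideal.absNorm I) := by
        refine Finset.sum_le_sum fun I hI => ?_
        rw [Finset.mem_sdiff, hS, hS', Set.Finite.mem_toFinset, Set.Finite.mem_toFinset] at hI
        have h9 : η * x < Ideal.absNorm I := by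
          by_contra hcon
          exact hI.2 ⟨hI.1.1, not_lt.1 hcon⟩
        exact Real.log_le_log hηx0 h9.le
    _ ≤ ∑ I ∈ S, Real.log (Ideal.absNorm I) :=
        Finset.sum_le_sum_of_subset_of_nonneg Finset.sdiff_subset
          fun I _ _ => Real.log_natCast_nonneg _

/-- the primes between `x / y₀` and `x` -/
private theorem d2_short (y₀ : ℝ) (hy1 : 1 ≤ y₀) : ∃ B : ℝ, 0 ≤ B ∧ ∀ x : ℕ, y₀ ≤ x →
    ∑ p ∈ (PL x).filter (fun p : ℕ => ¬ (p : ℝ) ≤ x / y₀), Real.log p / p ≤ B := by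
  obtain ⟨C, hC0, hC⟩ := mertens_lower
  have hly : 0 ≤ Real.log y₀ := Real.log_nonneg hy1
  have hl4 : 0 ≤ Real.log 4 := Real.log_nonneg (by norm_num)
  have hl2 : 0 ≤ Real.log 2 := Real.log_nonneg (by norm_num)
  refine ⟨Real.log 4 + Real.log 2 + Real.log y₀ + C, by positivity, fun x hx => ?_⟩
  have hy0 : 0 < y₀ := by linarith
  have hx0 : (0 : ℝ) < x := by linarith
  have hz1 : 1 ≤ (x : ℝ) / y₀ := by
    rw [le_div_iff₀ hy0]
    linarith
  set t : ℕ := ⌊(x : ℝ) / y₀⌋₊ with ht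
  have ht1 : 1 ≤ t := by
    rw [ht, Nat.one_le_floor_iff]
    exact hz1
  have hx1 : 1 ≤ x := by exact_mod_cast hx0
  have h1 := Pool.Agent.Helper10.mertens_upper x hx1
  have h2 := hC t ht1
  have h3 : (x : ℝ) / y₀ < t + 1 := Nat.lt_floor_add_one _
  have ht1' : (1 : ℝ) ≤ t := by exact_mod_cast ht1
  have h4 : (x : ℝ) ≤ 2 * y₀ * t := by
    have h5 : (x : ℝ) / y₀ < 2 * t := by linarith
    rw [div_lt_iff₀ hy0] at h5
    linarith
  have h5 : Real.log x ≤ Real.log 2 + Real.log y₀ + Real.log t := by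
    rw [← Real.log_mul (by norm_num) hy0.ne', ← Real.log_mul (by positivity) (by positivity)]
    exact Real.log_le_log hx0 h4
  have hfil : (PL x).filter (fun p : ℕ => (p : ℝ) ≤ x / y₀) = PL t := by
    ext p
    rw [Finset.mem_filter, mem_PL, mem_PL]
    have e : (p : ℝ) ≤ x / y₀ ↔ p ≤ t := by
      rw [ht, Nat.le_floor_iff (by linarith)]
    constructor
    · rintro ⟨⟨_, h6⟩, h7⟩
      exact ⟨e.1 h7, h6⟩
    · rintro ⟨h6, h7⟩
      refine ⟨⟨?_, h7⟩, e.2 h6⟩
      have h8 : (p : ℝ) ≤ x := by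
        refine (e.2 h6).trans ?_
        rw [div_le_iff₀ hy0]
        nlinarith
      exact_mod_cast h8
  have h6 := Finset.sum_filter_add_sum_filter_not (PL x) (fun p : ℕ => (p : ℝ) ≤ x / y₀)
    (fun p => Real.log p / p)
  rw [hfil] at h6
  have h7 : ∑ p ∈ PL x, Real.log p / p ≤ Real.log x + Real.log 4 := h1
  linarith

theorem QQ_mem (L : Type) [Field L] [NumberField L] {p : ℕ} (hp : p.Prime) (P : Ideal (𝓞 L)) :
    P ∈ QQ L p ↔ P.IsPrime ∧ Ideal.absNorm P = p := by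
  simp only [QQ, Finset.mem_filter, Set.Finite.mem_toFinset, Set.mem_ofPred_eq]
  constructor
  · exact fun h => h.2
  · intro h
    refine ⟨⟨?_, ?_⟩, h⟩
    · intro h0
      rw [h0, Ideal.zero_eq_bot, Ideal.absNorm_bot] at h
      exact hp.ne_zero h.2.symm
    · rw [h.2]

theorem QQ_card (L : Type) [Field L] [NumberField L] {p : ℕ} (hp : p.Prime) :
    (QQ L p).card ≤ Module.finrank ℤ (𝓞 L) := by
  refine d1_card p hp _ fun P hP => ?_
  rw [QQ_mem L hp] at hP
  refine ⟨hP.1, ?_, ?_⟩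
  · intro h0
    rw [h0, Ideal.absNorm_bot] at hP
    exact hp.ne_zero hP.2.symm
  · have := Ideal.absNorm_mem P
    rwa [hP.2] at this

theorem QQ_hom (L : Type) [Field L] [NumberField L] {p : ℕ} (hp : p.Prime)
    (h : (QQ L p).Nonempty) : Nonempty (𝓞 L →+* ZMod p) := by
  obtain ⟨P, hP⟩ := h
  rw [QQ_mem L hp] at hP
  have h1 := d1_hom P (by rw [hP.2]; exact hp)
  rwa [hP.2] at h1

theorem primes_lower (L : Type) [Field L] [NumberField L] (ε : ℝ) (hε : 0 < ε) (hε1 : ε < 1) :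
    ∃ C : ℝ, ∀ x : ℕ, 1 ≤ x →
      (1 - ε) * Real.log x - C ≤ ∑ p ∈ PL x, ((QQ L p).card : ℝ) * (Real.log p / p) := by
  classical
  obtain ⟨κ, hκ, heps⟩ := idc_eps L
  set η : ℝ := ε / 4 with hη
  have hη0 : 0 < η := by positivity
  have hη1 : η ≤ 1 / 4 := by linarith
  obtain ⟨y₀, hy1, hy₀⟩ := heps η hη0 (by linarith)
  obtain ⟨C₀, hC0, hC⟩ := idc_le L
  obtain ⟨D, hD0, hD⟩ := d1_sq
  obtain ⟨B, hB0, hB⟩ := d2_short y₀ hy1
  set n : ℝ := ((Module.finrank ℤ (𝓞 L) : ℕ) : ℝ) with hn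
  have hn0 : 0 ≤ n := Nat.cast_nonneg _
  set X : ℝ := y₀ / η with hX
  have hXy : y₀ ≤ X := by
    rw [hX, le_div_iff₀ hη0]
    nlinarith
  have hX1 : 1 ≤ X := hy1.trans hXy
  have hlX : 0 ≤ Real.log X := Real.log_nonneg hX1
  have hlη : Real.log η ≤ 0 := Real.log_nonpos hη0.le (by linarith)
  -- the constant
  set E : ℝ := (C₀ * n * B + C₀ * (n * (4 * D))) / κ with hE
  have hE0 : 0 ≤ E := by positivity
  refine ⟨Real.log X - Real.log η + E, fun x hx => ?_⟩
  have hx0 : (0 : ℝ) < x := by exact_mod_cast (by omega : 0 < x)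
  have hx1 : (1 : ℝ) ≤ x := by exact_mod_cast hx
  have hlx : 0 ≤ Real.log x := Real.log_nonneg hx1
  set W := ∑ p ∈ PL x, ((QQ L p).card : ℝ) * (Real.log p / p) with hW
  have hW0 : 0 ≤ W := Finset.sum_nonneg fun p _ =>
    mul_nonneg (Nat.cast_nonneg _) (div_nonneg (Real.log_natCast_nonneg _) (Nat.cast_nonneg _))
  rcases le_or_gt X x with h | h
  · have hηx : y₀ ≤ η * x := by
      rw [hX, div_le_iff₀ hη0] at h
      linarith
    have hyx : y₀ ≤ x := hXy.trans h
    have hy0 : 0 < y₀ := by linarith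
    have h1 := d2_lower L κ hκ η hη0 hη1 y₀ hy1 hy₀ (x : ℝ) hηx
    have h2 := d2_upper L C₀ hC0 hC D hD x hx
    have hmain : ∑ p ∈ PL x, ((QQ L p).card : ℝ) * (Real.log p * idc L ((x : ℝ) / p)) ≤
        (1 + η) * κ * x * W + C₀ * n * B * x := by
      have hterm : ∀ p ∈ PL x, ((QQ L p).card : ℝ) * (Real.log p * idc L ((x : ℝ) / p)) ≤
          (1 + η) * κ * x * (((QQ L p).card : ℝ) * (Real.log p / p)) +
            (if ¬ (p : ℝ) ≤ x / y₀ then C₀ * n * x * (Real.log p / p) else 0) := by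
        intro p hp
        rw [mem_PL] at hp
        have hp0 : (0 : ℝ) < p := by exact_mod_cast hp.2.pos
        have hlp : 0 ≤ Real.log (p : ℝ) := Real.log_natCast_nonneg _
        have hq0 : (0 : ℝ) ≤ (QQ L p).card := Nat.cast_nonneg _
        have hlpp : 0 ≤ Real.log (p : ℝ) / p := div_nonneg hlp hp0.le
        have hmain0 : 0 ≤ (1 + η) * κ * x * (((QQ L p).card : ℝ) * (Real.log p / p)) := by
          positivity
        by_cases hpx : (p : ℝ) ≤ x / y₀
        · rw [if_neg (not_not.2 hpx), add_zero]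
          have h3 : y₀ ≤ (x : ℝ) / p := by
            rw [le_div_iff₀ hp0]
            rw [le_div_iff₀ hy0] at hpx
            linarith
          have h4 := (hy₀ _ h3).2
          have h5 := mul_le_mul_of_nonneg_left (mul_le_mul_of_nonneg_left h4 hlp) hq0
          refine h5.trans (le_of_eq ?_)
          ring
        · rw [if_pos hpx]
          have hpx' : (p : ℝ) ≤ x := by exact_mod_cast hp.1
          have h3 : 1 ≤ (x : ℝ) / p := by
            rw [le_div_iff₀ hp0]
            linarith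
          have h4 := hC _ h3
          have h6 : ((QQ L p).card : ℝ) ≤ n := by
            rw [hn, Nat.cast_le]
            exact QQ_card L hp.2
          have h5 : ((QQ L p).card : ℝ) * (Real.log p * idc L ((x : ℝ) / p)) ≤
              n * (Real.log p * (C₀ * (x / p))) :=
            mul_le_mul h6 (mul_le_mul_of_nonneg_left h4 hlp)
              (mul_nonneg hlp (Nat.cast_nonneg _)) hn0
          have h7 : n * (Real.log p * (C₀ * (x / p))) = C₀ * n * x * (Real.log p / p) := by ring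
          rw [h7] at h5
          linarith
      refine (Finset.sum_le_sum hterm).trans ?_
      rw [Finset.sum_add_distrib, ← Finset.mul_sum, ← hW, ← Finset.sum_filter, ← Finset.mul_sum]
      have h3 := hB x hyx
      have h4 : C₀ * n * x * ∑ p ∈ (PL x).filter (fun p : ℕ => ¬ (p : ℝ) ≤ x / y₀),
          Real.log p / p ≤ C₀ * n * x * B :=
        mul_le_mul_of_nonneg_left h3 (by positivity)
      linarith
    rw [← hn] at h2
    have h3 : (1 - 3 * η) * κ * x * (Real.log x + Real.log η) ≤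
        (1 + η) * κ * x * W + C₀ * n * B * x + C₀ * x * (n * (4 * D)) := by
      linarith
    have h4 : κ * x * ((1 - 3 * η) * (Real.log x + Real.log η)) ≤
        κ * x * ((1 + η) * W + E) := by
      have h5 : κ * x * ((1 + η) * W + E) =
          (1 + η) * κ * x * W + C₀ * n * B * x + C₀ * x * (n * (4 * D)) := by
        rw [hE]
        field_simp
        ring
      rw [h5]
      refine le_trans (le_of_eq ?_) h3
      ring
    have h5 := le_of_mul_le_mul_left h4 (by positivity)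
    have h6 : (1 - ε) * (1 + η) ≤ 1 - 3 * η := by
      have : ε = 4 * η := by rw [hη]; ring
      rw [this]
      nlinarith
    -- `(1 + η) ((1 - ε) log x) ≤ (1 - 3 η) log x`
    have h7 : (1 - ε) * (1 + η) * Real.log x ≤ (1 - 3 * η) * Real.log x :=
      mul_le_mul_of_nonneg_right h6 hlx
    have h8 : (1 - 3 * η) * (-Real.log η) ≤ (1 + η) * (-Real.log η) :=
      mul_le_mul_of_nonneg_right (by linarith) (by linarith)
    have h9 : (1 + η) * ((1 - ε) * Real.log x) ≤ (1 + η) * (W + (-Real.log η) + E) := by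
      have h10 : E ≤ (1 + η) * E := by nlinarith
      nlinarith
    have h11 := le_of_mul_le_mul_left h9 (by linarith)
    linarith
  · have h1 : Real.log x ≤ Real.log X := Real.log_le_log hx0 h.le
    have h2 : (1 - ε) * Real.log x ≤ Real.log x := by nlinarith
    linarith

end Pool.Agent.Helper6.T6
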