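import Pool.Agent.Helper6.T6.Defs
import Pool.Agent.Helper19.TW.Sign

/-!
# T6-11: one real root: both signs occur

`F(0,1) = -a b³`. If `w = 1` there: done. Otherwise `u = 8 M b² n`, `v = 1`, `n` large:
`GG a b u 1 = -b² e`, `e = -[(3u²+1)³(u²-1)³ + 4a³ (u⁴/b²) (u²+1)⁴] ≡ 1 (mod 8M)`, `e < 0` for large
`n` (leading coefficient `4a³+27b² ≥ 1` of `GG a b u 1`). Compare `Pool.Agent.Helper19.TW.Sign.base`.
-/

namespace Pool.Agent.Helper6.T6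

open Pool.Agent.Helper19.TW

private lemma pos_value {a b : ℤ} (hD : 0 < 4 * a ^ 3 + 27 * b ^ 2) {u S : ℤ}
    (hS : S = |16 * a ^ 3 - 54 * b ^ 2| + |24 * a ^ 3 + 9 * b ^ 2| + |16 * a ^ 3 + 28 * b ^ 2| +
      |4 * a ^ 3 - 3 * b ^ 2| + |-6 * b ^ 2| + |-b ^ 2|) (hu : S < u) : 0 < GG a b u 1 := by
  have hS0 : 0 ≤ S := by rw [hS]; positivity
  have u1 : 1 ≤ u := by omega
  have key : ∀ (c : ℤ) (i : ℕ), i ≤ 10 → -(|c| * u ^ 10) ≤ c * u ^ i := by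
    intro c i hi
    have h1 : u ^ i ≤ u ^ 10 := pow_le_pow_right₀ u1 hi
    have h2 : 0 ≤ u ^ i := by positivity
    have h3 : -|c| ≤ c := neg_abs_le c
    have h4 : -|c| * u ^ i ≤ c * u ^ i := mul_le_mul_of_nonneg_right h3 h2
    have h5 : |c| * u ^ i ≤ |c| * u ^ 10 := mul_le_mul_of_nonneg_left h1 (abs_nonneg c)
    linarith
  have k1 := key (16 * a ^ 3 - 54 * b ^ 2) 10 (by norm_num)
  have k2 := key (24 * a ^ 3 + 9 * b ^ 2) 8 (by norm_num)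
  have k3 := key (16 * a ^ 3 + 28 * b ^ 2) 6 (by norm_num)
  have k4 := key (4 * a ^ 3 - 3 * b ^ 2) 4 (by norm_num)
  have k5 := key (-6 * b ^ 2) 2 (by norm_num)
  have k6 := key (-b ^ 2) 0 (by norm_num)
  have e : GG a b u 1 = (4 * a ^ 3 + 27 * b ^ 2) * u ^ 12 + (16 * a ^ 3 - 54 * b ^ 2) * u ^ 10 +
      (24 * a ^ 3 + 9 * b ^ 2) * u ^ 8 + (16 * a ^ 3 + 28 * b ^ 2) * u ^ 6 +
      (4 * a ^ 3 - 3 * b ^ 2) * u ^ 4 + (-6 * b ^ 2) * u ^ 2 + (-b ^ 2) * u ^ 0 := by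
    unfold GG
    ring
  have h12 : u ^ 12 ≤ (4 * a ^ 3 + 27 * b ^ 2) * u ^ 12 := by
    have : 0 ≤ u ^ 12 := by positivity
    nlinarith
  have h10 : (S + 1) * u ^ 10 ≤ u ^ 12 := by
    have h0 : 0 ≤ u ^ 10 := by positivity
    have h2 : S + 1 ≤ u ^ 2 := by nlinarith
    calc (S + 1) * u ^ 10 ≤ u ^ 2 * u ^ 10 := mul_le_mul_of_nonneg_right h2 h0
      _ = u ^ 12 := by ring
  have hp : 0 < u ^ 10 := by positivity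
  have hsum : S * u ^ 10 = |16 * a ^ 3 - 54 * b ^ 2| * u ^ 10 + |24 * a ^ 3 + 9 * b ^ 2| * u ^ 10 +
      |16 * a ^ 3 + 28 * b ^ 2| * u ^ 10 + |4 * a ^ 3 - 3 * b ^ 2| * u ^ 10 +
      |-6 * b ^ 2| * u ^ 10 + |-b ^ 2| * u ^ 10 := by
    rw [hS]
    ring
  rw [e]
  linarith

theorem base12 {a b : ℤ} (ha : a ≠ 0) (hb : b ≠ 0) (hD : 0 < 4 * a ^ 3 + 27 * b ^ 2) {M : ℕ}
    (hM : 1 ≤ M) {w : ℤ → ℤ} (hw : RootLike M w) :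
    ∃ u v : ℤ, F12 a b u v ≠ 0 ∧ w (F12 a b u v) = 1 := by
  have hF01 : F12 a b 0 1 = -(a * b) * b ^ 2 := by
    unfold F12 GG
    ring
  have h0 : F12 a b 0 1 ≠ 0 := by
    rw [hF01]
    exact mul_ne_zero (neg_ne_zero.2 (mul_ne_zero ha hb)) (pow_ne_zero 2 hb)
  rcases hw.pm _ h0 with h1 | h1
  · exact ⟨0, 1, h0, h1⟩
  obtain ⟨S, hS⟩ : ∃ S : ℤ, S = |16 * a ^ 3 - 54 * b ^ 2| + |24 * a ^ 3 + 9 * b ^ 2| +
      |16 * a ^ 3 + 28 * b ^ 2| + |4 * a ^ 3 - 3 * b ^ 2| + |-6 * b ^ 2| + |-b ^ 2| := ⟨_, rfl⟩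
  have hS0 : 0 ≤ S := by rw [hS]; positivity
  have b1 : 1 ≤ b ^ 2 := by have := sq_nonneg b; have := pow_ne_zero 2 hb; omega
  have hM' : (1 : ℤ) ≤ M := by exact_mod_cast hM
  obtain ⟨u, hu⟩ : ∃ u : ℤ, u = 8 * M * (b ^ 2 * (S + 1)) := ⟨_, rfl⟩
  have huS : S < u := by
    have h2 : S + 1 ≤ b ^ 2 * (S + 1) := by nlinarith
    rw [hu]
    nlinarith
  have hpos := pos_value hD hS huS
  obtain ⟨z, hz⟩ : ∃ z : ℤ, z = 8 * M * (512 * (M : ℤ) ^ 3 * b ^ 6 * (S + 1) ^ 4) := ⟨_, rfl⟩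
  obtain ⟨e, he⟩ : ∃ e : ℤ, e = -((3 * u ^ 2 + 1) ^ 3 * (u ^ 2 - 1) ^ 3 +
      4 * a ^ 3 * z * (u ^ 2 + 1) ^ 4) := ⟨_, rfl⟩
  have hu4 : u ^ 4 = b ^ 2 * z := by
    rw [hu, hz]
    ring
  have hGe : GG a b u 1 = -(b ^ 2) * e := by
    unfold GG
    rw [he]
    linear_combination 4 * a ^ 3 * (u ^ 2 + 1) ^ 4 * hu4
  have hFe : F12 a b u 1 = F12 a b 0 1 * e := by
    rw [hF01]
    unfold F12
    rw [hGe]
    ring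
  have heneg : e < 0 := by
    by_contra hc
    push Not at hc
    rw [hGe] at hpos
    nlinarith
  have hdvd : (8 * M : ℤ) ∣ e - 1 := by
    have hu8 : (8 * M : ℤ) ∣ u := ⟨b ^ 2 * (S + 1), hu⟩
    have hz8 : (8 * M : ℤ) ∣ z := ⟨_, hz⟩
    obtain ⟨q, hq⟩ := hu8
    obtain ⟨r, hr⟩ := hz8
    refine ⟨-(q * u * (27 * u ^ 10 - 54 * u ^ 8 + 9 * u ^ 6 + 28 * u ^ 4 - 3 * u ^ 2 - 6) +
      4 * a ^ 3 * r * (u ^ 2 + 1) ^ 4), ?_⟩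
    rw [he]
    linear_combination -(u * (27 * u ^ 10 - 54 * u ^ 8 + 9 * u ^ 6 + 28 * u ^ 4 - 3 * u ^ 2 - 6)) * hq -
      4 * a ^ 3 * (u ^ 2 + 1) ^ 4 * hr
  refine ⟨u, 1, ?_, ?_⟩
  · rw [hFe]
    exact mul_ne_zero h0 heneg.ne
  · rw [hFe, hw.tw _ _ h0 hdvd, h1, Int.sign_eq_neg_one_of_neg heneg]
    norm_num

end Pool.Agent.Helper6.T6
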