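import Pool.Agent.Helper6.T6.Good

/-!
# T6, thin case `4a³ = (r+1)³(r-3) b²`

Here the form of degree 12 is `b² · H2 · gp(u,v) · (-gp(-u,v))` with rational forms of degree 6, 3, 3,
and `P1 + P2 = 2A`, `P1 - P2 = 2B` with rational points `A`, `B` (`B` is `A` with `u ↦ -u`).
-/

namespace Pool.Agent.Helper6.T6

/-- the factor of degree 6 -/
def H2 (r u v : ℚ) : ℚ :=
  8 * u ^ 6 + 4 * r * u ^ 4 * (u ^ 2 + v ^ 2) + (r ^ 2 - 3) * u ^ 2 * (u ^ 2 + v ^ 2) ^ 2 +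
    (u ^ 2 + v ^ 2) ^ 3

/-- the factor of degree 3 -/
def gp (r u v : ℚ) : ℚ := (r - 2) * u ^ 3 + 3 * u ^ 2 * v + r * u * v ^ 2 + v ^ 3

/-- first coordinate of `A` -/
def XA (a b : ℤ) (r u v : ℚ) : ℚ :=
  (b : ℚ) * (r + 1) * ((r + 3) * (r - 2) * u ^ 3 - 3 * (r - 1) * u ^ 2 * v +
    (r ^ 2 - r - 4) * u * v ^ 2 - (r - 1) * v ^ 3) / (2 * a * gp r u v)

/-- second coordinate of `A` -/
def YA (a : ℤ) (r u v : ℚ) : ℚ := (r + 1) ^ 2 * (r - 2) / (2 * (a : ℚ) ^ 2 * gp r u v ^ 2)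

theorem thin_factor {a b : ℤ} {r : ℚ} (hr : 4 * (a : ℚ) ^ 3 = (r + 1) ^ 3 * (r - 3) * b ^ 2)
    (u v : ℤ) : (GG a b u v : ℚ) = -(b ^ 2 * H2 r u v * gp r u v * gp r (-u) v) := by
  simp only [GG, H2, gp]
  push_cast
  linear_combination ((u : ℚ) ^ 4 * (u ^ 2 + v ^ 2) ^ 4) * hr

/-- the numerator of `XA` -/
def NA (r u v : ℚ) : ℚ :=
  (r + 3) * (r - 2) * u ^ 3 - 3 * (r - 1) * u ^ 2 * v + (r ^ 2 - r - 4) * u * v ^ 2 -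
    (r - 1) * v ^ 3

lemma thin_key (r s v : ℚ) : NA r s v ^ 3 * gp r s v +
    (r - 3) * ((r + 1) * NA r s v * gp r s v ^ 3 + 2 * gp r s v ^ 4) =
    2 * (r + 1) * (r - 2) ^ 2 * ((3 * s ^ 2 + v ^ 2) ^ 3 * (s ^ 2 - v ^ 2) ^ 3 +
      (r + 1) ^ 3 * (r - 3) * s ^ 4 * (s ^ 2 + v ^ 2) ^ 4) := by
  simp only [NA, gp]
  ring

theorem thin_point {a b : ℤ} {r : ℚ} (ha : a ≠ 0)
    (hr : 4 * (a : ℚ) ^ 3 = (r + 1) ^ 3 * (r - 3) * b ^ 2) (u v : ℤ) (s : ℚ)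
    (hs : s = u ∨ s = -u) (hg : gp r s v ≠ 0) :
    (F12 a b u v : ℚ) * YA a r s v ^ 2 = XA a b r s v ^ 3 + a * XA a b r s v + b := by
  have ha' : (a : ℚ) ≠ 0 := by exact_mod_cast ha
  have h1 : (F12 a b u v : ℚ) = a * b * (b ^ 2 * (3 * s ^ 2 + v ^ 2) ^ 3 * (s ^ 2 - v ^ 2) ^ 3 +
      4 * (a : ℚ) ^ 3 * s ^ 4 * (s ^ 2 + v ^ 2) ^ 4) := by
    rcases hs with rfl | rfl <;> · simp only [F12, GG]; push_cast; ring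
  have hX : XA a b r s v = (b : ℚ) * (r + 1) * NA r s v / (2 * a * gp r s v) := rfl
  have hk := thin_key r s v
  have h2 : (a : ℚ) * b * (b ^ 2 * (3 * s ^ 2 + v ^ 2) ^ 3 * (s ^ 2 - v ^ 2) ^ 3 +
      4 * (a : ℚ) ^ 3 * s ^ 4 * (s ^ 2 + v ^ 2) ^ 4) = a * b ^ 3 *
      ((3 * s ^ 2 + v ^ 2) ^ 3 * (s ^ 2 - v ^ 2) ^ 3 +
      (r + 1) ^ 3 * (r - 3) * s ^ 4 * (s ^ 2 + v ^ 2) ^ 4) := by
    rw [hr]; ring
  rw [h1, h2, hX, YA]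
  generalize (3 * s ^ 2 + (v : ℚ) ^ 2) ^ 3 * (s ^ 2 - (v : ℚ) ^ 2) ^ 3 +
      (r + 1) ^ 3 * (r - 3) * s ^ 4 * (s ^ 2 + (v : ℚ) ^ 2) ^ 4 = K at *
  generalize gp r s v = g at *
  generalize NA r s v = n at *
  have h4 : (8 * (a : ℚ) ^ 3 * g ^ 4) ≠ 0 := by positivity
  apply mul_left_cancel₀ h4
  have e1 : 8 * (a : ℚ) ^ 3 * g ^ 4 * (a * b ^ 3 * K *
      ((r + 1) ^ 2 * (r - 2) / (2 * (a : ℚ) ^ 2 * g ^ 2)) ^ 2) =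
      b ^ 3 * (r + 1) ^ 3 * (2 * (r + 1) * (r - 2) ^ 2 * K) := by
    field_simp
    ring
  have e2 : 8 * (a : ℚ) ^ 3 * g ^ 4 * ((b * (r + 1) * n / (2 * a * g)) ^ 3 +
      a * (b * (r + 1) * n / (2 * a * g)) + b) =
      b ^ 3 * (r + 1) ^ 3 * (n ^ 3 * g) + 4 * (a : ℚ) ^ 3 * b * ((r + 1) * n * g ^ 3 + 2 * g ^ 4) := by
    field_simp
    ring
  rw [e1, e2, ← hk, hr]
  ring

theorem thin_diff {a b : ℤ} {r : ℚ} (ha : a ≠ 0) (u v : ℤ) (h1 : gp r u v ≠ 0)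
    (h2 : gp r (-u) v ≠ 0) : XA a b r u v - XA a b r (-u) v =
      2 * b * (r + 1) ^ 2 * (r - 2) * u * v * (u ^ 2 + v ^ 2) * (3 * u ^ 2 + v ^ 2) /
        (a * (gp r u v * gp r (-u) v)) := by
  have ha' : (a : ℚ) ≠ 0 := by exact_mod_cast ha
  simp only [XA]
  rw [div_sub_div _ _ (by positivity) (by positivity), div_eq_div_iff (by positivity) (by positivity)]
  simp only [gp]
  ring

end Pool.Agent.Helper6.T6
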